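import Pool.Agent.H42.PL.AbA

/-!
# PL.AbB : two involutions, the isometries which commute up to sign with both

PROOF. `D = J J' - J' J`, `T = J J' + J' J = τ + κ U`, `τ1 = τ + κ d`, `τ2 = τ - κ d`. `line`: if `J x = x` and `U x = d x` then `x = a w1` (write `x = a w1 + b w2`, apply `U`); if `J x = -x`, `U x = d x` then `x = b D w1` (`eig_pos`, then apply `J`: `J w1 = w1`, `J D w1 = -D w1`); the same for `w2`.
`y` preserves `bq`, so it is injective (`bq_nondeg`).
Case `y J = J y`, `y J' = J' y`: `y` commutes with `D`, `T`, `U`. `y w1 = l w1`, `l² bq w1 w1 = bq w1 w1`, `l² = 1` (`ne1`), `y D w1 = l D w1`; in the same way `l'` for `w2`, `D w2`. By `span4`: `l = l' = ±1` gives `y = ±1`, `l = -l' = ±1` gives `y = ± d⁻¹ U`.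
Case `y J = -J y`, `y J' = -J' y`: `y` commutes with `D`, `T`, `U`; `J (y w1) = -y w1`, `U (y w1) = d y w1`, so `y w1 = l D w1` and `bq w1 w1 = bq (y w1) (y w1) = l² (4 - τ1²) bq w1 w1` (`nrm1`), so `4 - τ1² = (l⁻¹)²` is a square: contradiction to `ns1`.
Cases `y J = J y`, `y J' = -J' y` and `y J = -J y`, `y J' = J' y`: `y T = -T y`. `T (y w1) = -τ1 (y w1)`, `y w1 ≠ 0`; `(T - τ1) (T - τ2) = κ² (U² - d²) = 0`, so `(-τ1 - τ1) (-τ1 - τ2) = 0`: `τ1 = 0`, then `4 - τ1² = 2²` is a square, or `τ1 + τ2 = 2 τ = 0`, contradiction to `τ ≠ 0`.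
-/

set_option autoImplicit false

namespace Pool.Agent.H42.PL

variable {K : Type} [Field K]

namespace Cfg

variable {η : K} {J J' U : Module.End K (V4 K)} {τ κ d : K} {w1 w2 : V4 K}

private theorem AbB_inj (h : Cfg η J J' U τ κ d w1 w2) {y : Module.End K (V4 K)}
    (hy : ∀ x x', bq η (y x) (y x') = bq η x x') {x : V4 K} (hx : y x = 0) : x = 0 :=
  bq_nondeg h.η_ne fun z => by rw [← hy x z, hx, bq_zero_left]

private theorem AbB_U (h : Cfg η J J' U τ κ d w1 w2) {y : Module.End K (V4 K)}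
    (hT : y * (J * J' + J' * J) = (J * J' + J' * J) * y) : y * U = U * y := by
  rw [h.T_eq, mul_add, add_mul, mul_smul_comm, smul_mul_assoc, mul_one, one_mul, add_right_inj,
    mul_smul_comm, smul_mul_assoc] at hT
  exact smul_right_injective _ h.κ_ne hT

private theorem AbB_line1 (h : Cfg η J J' U τ κ d w1 w2) {x : V4 K} (hJ : J x = x)
    (hU : U x = d • x) : ∃ a : K, x = a • w1 := by
  obtain ⟨a, b, rfl⟩ := h.span x hJ
  rw [map_add, map_smul, map_smul, h.Uw1, h.Uw2] at hU
  have h1 : (2 * d * b) • w2 = 0 := by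
    linear_combination (norm := module) (-1 : K) • hU
  have hb : b = 0 := by
    rcases smul_eq_zero.1 h1 with h2 | h2
    · rcases mul_eq_zero.1 h2 with h3 | h3
      · exact absurd h3 (mul_ne_zero h.two_ne h.d_ne)
      · exact h3
    · exact absurd h2 h.w2_ne
  exact ⟨a, by rw [hb, zero_smul, add_zero]⟩

private theorem AbB_line2 (h : Cfg η J J' U τ κ d w1 w2) {x : V4 K} (hJ : J x = x)
    (hU : U x = -(d • x)) : ∃ a : K, x = a • w2 := by
  obtain ⟨a, b, rfl⟩ := h.span x hJ
  rw [map_add, map_smul, map_smul, h.Uw1, h.Uw2] at hU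
  have h1 : (2 * d * a) • w1 = 0 := by
    linear_combination (norm := module) (1 : K) • hU
  have hb : a = 0 := by
    rcases smul_eq_zero.1 h1 with h2 | h2
    · rcases mul_eq_zero.1 h2 with h3 | h3
      · exact absurd h3 (mul_ne_zero h.two_ne h.d_ne)
      · exact h3
    · exact absurd h2 h.w1_ne
  exact ⟨b, by rw [hb, zero_smul, zero_add]⟩

private theorem AbB_line3 (h : Cfg η J J' U τ κ d w1 w2) {x : V4 K} (hJ : J x = -x)
    (hU : U x = d • x) : ∃ a : K, x = a • (J * J' - J' * J) w1 := by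
  obtain ⟨a, b, hx⟩ := (h.eig_pos x).1 hU
  have hJD : J ((J * J' - J' * J) w1) = -((J * J' - J' * J) w1) := by
    have h0 := LinearMap.congr_fun h.D_J w1
    rw [Module.End.mul_apply, LinearMap.neg_apply, Module.End.mul_apply, h.Jw1] at h0
    exact neg_eq_iff_eq_neg.1 h0.symm
  rw [hx, map_add, map_smul, map_smul, h.Jw1, hJD] at hJ
  have h1 : (2 * a) • w1 = 0 := by
    linear_combination (norm := module) (1 : K) • hJ
  have ha : a = 0 := by
    rcases smul_eq_zero.1 h1 with h2 | h2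
    · rcases mul_eq_zero.1 h2 with h3 | h3
      · exact absurd h3 h.two_ne
      · exact h3
    · exact absurd h2 h.w1_ne
  exact ⟨b, by rw [hx, ha, zero_smul, zero_add]⟩

private theorem AbB_sq {l b : K} (hb : b ≠ 0) (h : l * (l * b) = b) : l = 1 ∨ l = -1 := by
  have h1 : (l - 1) * (l + 1) = 0 := by
    have h2 : ((l - 1) * (l + 1)) * b = 0 := by linear_combination h
    exact (mul_eq_zero.1 h2).resolve_right hb
  rcases mul_eq_zero.1 h1 with h2 | h2
  · exact Or.inl (sub_eq_zero.1 h2)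
  · exact Or.inr (eq_neg_of_add_eq_zero_left h2)

private theorem AbB_comm (h : Cfg η J J' U τ κ d w1 w2) (y : Module.End K (V4 K))
    (hy : ∀ x x', bq η (y x) (y x') = bq η x x') (h1 : y * J = J * y) (h2 : y * J' = J' * y) :
    (∀ x, y x = x) ∨ (∀ x, y x = -x) ∨ (∀ x, y x = d⁻¹ • U x) ∨ (∀ x, y x = -(d⁻¹ • U x)) := by
  have hJJ' : y * (J * J') = (J * J') * y := by rw [← mul_assoc, h1, mul_assoc, h2, mul_assoc]
  have hJ'J : y * (J' * J) = (J' * J) * y := by rw [← mul_assoc, h2, mul_assoc, h1, mul_assoc]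
  have hD : y * (J * J' - J' * J) = (J * J' - J' * J) * y := by rw [mul_sub, sub_mul, hJJ', hJ'J]
  have hU := AbB_U h (y := y) (by rw [mul_add, add_mul, hJJ', hJ'J])
  have aJ : ∀ x, J (y x) = y (J x) := fun x => (LinearMap.congr_fun h1 x).symm
  have aU : ∀ x, U (y x) = y (U x) := fun x => (LinearMap.congr_fun hU x).symm
  have aD : ∀ x, y ((J * J' - J' * J) x) = (J * J' - J' * J) (y x) := fun x =>
    LinearMap.congr_fun hD x
  have aUD : ∀ x, U ((J * J' - J' * J) x) = (J * J' - J' * J) (U x) := fun x =>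
    LinearMap.congr_fun h.U_D x
  obtain ⟨l, hl⟩ := AbB_line1 h (x := y w1) (by rw [aJ, h.Jw1]) (by rw [aU, h.Uw1, map_smul])
  obtain ⟨l', hl'⟩ := AbB_line2 h (x := y w2) (by rw [aJ, h.Jw2])
    (by rw [aU, h.Uw2, map_neg, map_smul])
  have hl2 : l = 1 ∨ l = -1 := by
    refine AbB_sq h.ne1 ?_
    have := hy w1 w1
    rwa [hl, bq_smul_left, bq_smul_right] at this
  have hl2' : l' = 1 ∨ l' = -1 := by
    refine AbB_sq h.ne2 ?_
    have := hy w2 w2
    rwa [hl', bq_smul_left, bq_smul_right] at this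
  have key : ∀ x, ∃ u v : V4 K, x = u + v ∧ y x = l • u + l' • v ∧ d⁻¹ • U x = u - v := by
    intro x
    obtain ⟨a, b, a', b', hx⟩ := h.span4 x
    refine ⟨a • w1 + b • (J * J' - J' * J) w1, a' • w2 + b' • (J * J' - J' * J) w2, hx, ?_, ?_⟩
    · rw [hx]
      simp only [map_add, map_smul, aD, hl, hl']
      module
    · rw [hx]
      have hdd := inv_mul_cancel₀ h.d_ne
      simp only [map_add, map_smul, aUD, h.Uw1, h.Uw2, map_neg, smul_add, smul_neg, smul_smul]
      have e1 : ∀ c : K, d⁻¹ * (c * d) = c := fun c => by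
        rw [mul_comm c, ← mul_assoc, hdd, one_mul]
      rw [e1, e1, e1, e1]
      abel
  rcases hl2 with rfl | rfl <;> rcases hl2' with rfl | rfl
  · refine Or.inl fun x => ?_
    obtain ⟨u, v, hx, hyx, -⟩ := key x
    rw [hyx, hx, one_smul, one_smul]
  · refine Or.inr (Or.inr (Or.inl fun x => ?_))
    obtain ⟨u, v, -, hyx, hUx⟩ := key x
    rw [hyx, hUx, one_smul, neg_one_smul, sub_eq_add_neg]
  · refine Or.inr (Or.inr (Or.inr fun x => ?_))
    obtain ⟨u, v, -, hyx, hUx⟩ := key x
    rw [hyx, hUx, one_smul, neg_one_smul, neg_sub]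
    abel
  · refine Or.inr (Or.inl fun x => ?_)
    obtain ⟨u, v, hx, hyx, -⟩ := key x
    rw [hyx, hx, neg_one_smul, neg_one_smul]
    abel

private theorem AbB_anti (h : Cfg η J J' U τ κ d w1 w2) (y : Module.End K (V4 K))
    (hy : ∀ x x', bq η (y x) (y x') = bq η x x') (h1 : y * J = -(J * y))
    (h2 : y * J' = -(J' * y)) : False := by
  have p1 : ∀ x, y (J x) = -J (y x) := fun x => LinearMap.congr_fun h1 x
  have p2 : ∀ x, y (J' x) = -J' (y x) := fun x => LinearMap.congr_fun h2 x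
  have hT : y * (J * J' + J' * J) = (J * J' + J' * J) * y := by
    refine LinearMap.ext fun x => ?_
    simp only [Module.End.mul_apply, LinearMap.add_apply, map_add, p1, p2, map_neg, neg_neg]
  have hU := AbB_U h hT
  have aJ : J (y w1) = -(y w1) := by
    have h0 := LinearMap.congr_fun h1 w1
    rw [Module.End.mul_apply, LinearMap.neg_apply, Module.End.mul_apply, h.Jw1] at h0
    exact neg_eq_iff_eq_neg.1 h0.symm
  have aU : U (y w1) = d • y w1 := by
    have h0 := LinearMap.congr_fun hU w1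
    rw [Module.End.mul_apply, Module.End.mul_apply, h.Uw1, map_smul] at h0
    exact h0.symm
  obtain ⟨l, hl⟩ := AbB_line3 h aJ aU
  have h3 := hy w1 w1
  rw [hl, bq_smul_left, bq_smul_right, h.nrm1] at h3
  have h4 : l * l * (4 - (τ + κ * d) ^ 2) = 1 := by
    have h5 : (l * l * (4 - (τ + κ * d) ^ 2) - 1) * bq η w1 w1 = 0 := by linear_combination h3
    exact sub_eq_zero.1 ((mul_eq_zero.1 h5).resolve_right h.ne1)
  have hl0 : l ≠ 0 := by
    rintro rfl
    simp at h4
  refine h.ns1 ⟨l⁻¹, ?_⟩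
  field_simp
  linear_combination h4

private theorem AbB_mixed (h : Cfg η J J' U τ κ d w1 w2) (y : Module.End K (V4 K))
    (hy : ∀ x x', bq η (y x) (y x') = bq η x x')
    (hT : y * (J * J' + J' * J) = -((J * J' + J' * J) * y)) : False := by
  have hT1 : (J * J' + J' * J) w1 = (τ + κ * d) • w1 := by
    rw [h.T_eq, LinearMap.add_apply, LinearMap.smul_apply, LinearMap.smul_apply,
      Module.End.one_apply, h.Uw1, smul_smul, add_smul]
  have hz : y w1 ≠ 0 := fun h0 => h.w1_ne (AbB_inj h hy h0)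
  have h1 : (τ + κ * d) • y w1 = -(τ • y w1 + κ • U (y w1)) := by
    have h0 := LinearMap.congr_fun hT w1
    rw [Module.End.mul_apply, hT1, map_smul, LinearMap.neg_apply, Module.End.mul_apply, h.T_eq,
      LinearMap.add_apply, LinearMap.smul_apply, LinearMap.smul_apply, Module.End.one_apply] at h0
    exact h0
  have hUU : U (U (y w1)) = (d ^ 2) • y w1 := by
    have h0 := LinearMap.congr_fun h.U_sq (y w1)
    rwa [Module.End.mul_apply, LinearMap.smul_apply, Module.End.one_apply] at h0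
  have h2 : (τ + κ * d) • U (y w1) = -(τ • U (y w1) + (κ * d ^ 2) • y w1) := by
    have h0 := congrArg U h1
    rw [map_smul, map_neg, map_add, map_smul, map_smul, hUU, smul_smul] at h0
    exact h0
  have h3 : (4 * τ * (τ + κ * d)) • y w1 = 0 := by
    linear_combination (norm := module) (2 * τ + κ * d) • h1 - κ • h2
  have h4 : (4 : K) ≠ 0 := by
    have : (4 : K) = 2 * 2 := by norm_num
    rw [this]
    exact mul_ne_zero h.two_ne h.two_ne
  rcases smul_eq_zero.1 h3 with h5 | h5
  · rcases mul_eq_zero.1 h5 with h6 | h6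
    · exact mul_ne_zero h4 h.τ_ne h6
    · refine h.ns1 ⟨2, ?_⟩
      rw [h6]
      norm_num
  · exact hz h5

theorem cases (h : Cfg η J J' U τ κ d w1 w2) (y : Module.End K (V4 K)) (hy : ∀ x x', bq η (y x) (y x') = bq η x x')
    (h1 : y * J = J * y ∨ y * J = -(J * y)) (h2 : y * J' = J' * y ∨ y * J' = -(J' * y)) :
    (∀ x, y x = x) ∨ (∀ x, y x = -x) ∨ (∀ x, y x = d⁻¹ • U x) ∨ (∀ x, y x = -(d⁻¹ • U x)) := by
  rcases h1 with h1 | h1 <;> rcases h2 with h2 | h2
  · exact AbB_comm h y hy h1 h2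
  · refine (AbB_mixed h y hy ?_).elim
    have p1 : ∀ x, y (J x) = J (y x) := fun x => LinearMap.congr_fun h1 x
    have p2 : ∀ x, y (J' x) = -J' (y x) := fun x => LinearMap.congr_fun h2 x
    refine LinearMap.ext fun x => ?_
    simp only [Module.End.mul_apply, LinearMap.add_apply, LinearMap.neg_apply, map_add, p1, p2,
      map_neg, neg_add]
  · refine (AbB_mixed h y hy ?_).elim
    have p1 : ∀ x, y (J x) = -J (y x) := fun x => LinearMap.congr_fun h1 x
    have p2 : ∀ x, y (J' x) = J' (y x) := fun x => LinearMap.congr_fun h2 x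
    refine LinearMap.ext fun x => ?_
    simp only [Module.End.mul_apply, LinearMap.add_apply, LinearMap.neg_apply, map_add, p1, p2,
      map_neg, neg_add]
  · exact (AbB_anti h y hy h1 h2).elim

end Cfg

end Pool.Agent.H42.PL
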