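import Pool.Agent.H42.PL.Pln

/-!
# PL.Cfx : the configuration exists

PROOF. `α = aq η t i k x 0`, `β = aq η t i k x' 0`, `f = fq η t i k x`, `f' = fq η t i k x'`, `N`, `N'`, `A = Nn η i * Nn η k` (nonzero). `f`, `f'` are not squares, so `f f'` is a nonzero square `d²` (finite field: `FiniteField.isSquare_iff..`, `quadraticChar` is multiplicative; lemma `mul_nonsq`). `κ₀² N N' = 1`.
`τ = 2 α β κ₀² / A`, `κ = -2 κ₀² / A` (`TU`). `nsq`: `A² N² N'² (4 - (τ ± κ d)²) / 4 = A² N² N'² - (α β ∓ d)² = -f β² - f' α² ± 2 α β d` (use `α² = f + A N²`, `β² = f' + A N'²`, `d² = f f'`), and `f` times this is `-(f β ∓ α d)²`. `-1 = i²`, so `4 - (τ ± κ d)²` is `f⁻¹` times a square; it is not `0`: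
`f β = ± α d` would give `f² β² = α² f f'`, `f β² = α² f'`, `(α² - A N²) β² = α² (β² - A N'²)`, `α² N'² = β² N²`, excluded by `hne`. So `4 - (τ ± κ d)²` is not a square (a nonzero square times the inverse of the nonsquare `f`). The other fields: `J_sq`: `Jd_Jd`; `J'_sq`: `g² = 1` (`Mx_sq`, `hκ`) and `Jd_Jd`;
`J_adj`: `Jd_adj`; `J'_adj`: `bq (g x) y = bq x (g y)` (`bq_adj_left`, `bq_adj_right`, `cj_pure`, `vv_pure`: two signs) and `Jd_adj`; `U_sq`: `Uq_sq`; `U_adj`: `Uq_adj`; `w1`, `w2`: `exists_w`.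
-/

set_option autoImplicit false

namespace Pool.Agent.H42.PL

variable {K : Type} [Field K] [Finite K]

theorem mul_nonsq {a b : K} (ha : ¬ IsSquare a) (hb : ¬ IsSquare b) : ∃ d : K, d ≠ 0 ∧ d ^ 2 = a * b := by
  classical
  have := Fintype.ofFinite K
  have ha0 : a ≠ 0 := fun h => ha (h ▸ IsSquare.zero)
  have hb0 : b ≠ 0 := fun h => hb (h ▸ IsSquare.zero)
  have h1 : quadraticChar K a = -1 := quadraticChar_neg_one_iff_not_isSquare.2 ha
  have h2 : quadraticChar K b = -1 := quadraticChar_neg_one_iff_not_isSquare.2 hb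
  have h3 : quadraticChar K (a * b) = 1 := by
    rw [map_mul, h1, h2]; norm_num
  obtain ⟨d, hd⟩ := (quadraticChar_one_iff_isSquare (mul_ne_zero ha0 hb0)).1 h3
  refine ⟨d, ?_, ?_⟩
  · intro h0
    rw [h0, mul_zero] at hd
    exact mul_ne_zero ha0 hb0 hd
  · rw [hd, pow_two]

omit [Finite K] in
private theorem Cfx_id (α β A N N' d q s f f' : K) (hq : q * (A * N * N') = 1)
    (hs : 4 - (2 * α * β * q + -2 * q * d) ^ 2 = s * s)
    (hf : f = α ^ 2 - A * N ^ 2) (hf' : f' = β ^ 2 - A * N' ^ 2) (hd : d ^ 2 = f * f') :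
    f * (s * s) * (A * N * N') ^ 2 = -(2 * (f * β - α * d)) ^ 2 := by
  have h1 : (q * (A * N * N')) ^ 2 = 1 := by rw [hq, one_pow]
  have e1 : f * (s * s) * (A * N * N') ^ 2 = 4 * f * ((A * N * N') ^ 2 - (α * β - d) ^ 2) := by
    rw [← hs]
    linear_combination (-4 * f * (α * β - d) ^ 2) * h1
  have e2 : (A * N * N') ^ 2 = (α ^ 2 - f) * (β ^ 2 - f') := by
    rw [hf, hf']; ring
  rw [e1, e2]
  linear_combination (-4 * f + 4 * α ^ 2) * hd

omit [Finite K] in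
theorem nsq_aux (i₀ α β f f' A N N' κ₀ d : K) (h2 : (2 : K) ≠ 0) (hi : i₀ ^ 2 = -1) (hA : A ≠ 0)
    (hκ : κ₀ ^ 2 * (N * N') = 1) (hf : f = α ^ 2 - A * N ^ 2) (hf' : f' = β ^ 2 - A * N' ^ 2) (hns : ¬ IsSquare f)
    (hd : d ^ 2 = f * f') (hne : α ^ 2 * N' ^ 2 ≠ β ^ 2 * N ^ 2) :
    ¬ IsSquare (4 - (2 * α * β * (κ₀ ^ 2 / A) + -2 * (κ₀ ^ 2 / A) * d) ^ 2) := by
  rintro ⟨s, hs⟩
  have hf0 : f ≠ 0 := fun h => hns (h ▸ IsSquare.zero)
  have hq : κ₀ ^ 2 / A * (A * N * N') = 1 := by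
    rw [← hκ]; field_simp
  have key := Cfx_id α β A N N' d (κ₀ ^ 2 / A) s f f' hq hs hf hf' hd
  have hP : A * N * N' ≠ 0 := by
    intro h0
    rw [h0, mul_zero] at hq
    exact zero_ne_one hq
  by_cases hs0 : s = 0
  · rw [hs0] at key
    have h3 : (2 * (f * β - α * d)) ^ 2 = 0 := by linear_combination key
    have h4 : f * β - α * d = 0 := (mul_eq_zero.1 (pow_eq_zero_iff (two_ne_zero) |>.1 h3)).resolve_left h2
    have h5 : f * (f * β ^ 2 - α ^ 2 * f') = 0 := by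
      linear_combination (f * β + α * d) * h4 + α ^ 2 * hd
    have h6 : f * β ^ 2 - α ^ 2 * f' = 0 := (mul_eq_zero.1 h5).resolve_left hf0
    have h7 : A * (α ^ 2 * N' ^ 2 - β ^ 2 * N ^ 2) = 0 := by
      rw [hf, hf'] at h6
      linear_combination h6
    exact hne (sub_eq_zero.1 ((mul_eq_zero.1 h7).resolve_left hA))
  · apply hns
    refine ⟨i₀ * (2 * (f * β - α * d)) / (s * (A * N * N')), ?_⟩
    have hsP : s * (A * N * N') ≠ 0 := mul_ne_zero hs0 hP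
    rw [div_mul_div_comm, eq_div_iff (mul_ne_zero hsP hsP)]
    linear_combination key - (2 * (f * β - α * d)) ^ 2 * hi

omit [Finite K] in
private theorem Cfx_gg (η t x x' κ : K) (hκ : κ ^ 2 * (NN η t x * NN η t x') = 1) :
    gL η t x x' κ * gL η t x x' κ = 1 := by
  refine LinearMap.ext fun y => ?_
  rw [Module.End.mul_apply, gL_apply, gL_apply, Matrix.mulVec_smul, Mx_sq, smul_smul, smul_smul,
    Module.End.one_apply, ← pow_two, hκ, one_smul]

omit [Finite K] in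
private theorem Cfx_adj (η t x x' κ : K) (y z : V4 K) :
    bq η (gL η t x x' κ y) z = bq η y (gL η t x x' κ z) := by
  rw [gL_apply, gL_apply, bq_smul_left, bq_smul_right, Mx_mulVec, Mx_mulVec, bq_adj_left, bq_adj_right,
    cj_pure (vv_pure t x), cj_pure (vv_pure t x')]
  simp only [qm_neg_left, qm_neg_right, neg_neg, qm_assoc]

theorem exists_cfg (η i₀ t x x' κ₀ : K) (h2 : (2 : K) ≠ 0) (hη : ¬ IsSquare η) (hi : i₀ ^ 2 = -1)
    (hx : GdP η t x) (hx' : GdP η t x') (hκ : κ₀ ^ 2 * (NN η t x * NN η t x') = 1) (i k : Fin 3)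
    (hne : (aq η t i k x 0) ^ 2 * NN η t x' ^ 2 ≠ (aq η t i k x' 0) ^ 2 * NN η t x ^ 2) :
    ∃ (U : Module.End K (V4 K)) (τ κ d : K) (w1 w2 : V4 K),
      Cfg η (JL i) (gL η t x x' κ₀ * JL k * gL η t x x' κ₀) U τ κ d w1 w2 := by
  have hη0 : η ≠ 0 := fun h => hη (h ▸ IsSquare.zero)
  have hN : ∀ j : Fin 3, Nn η j ≠ 0 := by
    intro j
    fin_cases j
    · exact hη0
    · exact one_ne_zero
    · exact hη0
  have hA : Nn η i * Nn η k ≠ 0 := mul_ne_zero (hN i) (hN k)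
  have hκ0 : κ₀ ≠ 0 := by
    intro h0
    rw [h0] at hκ
    norm_num at hκ
  obtain ⟨d, hd0, hd⟩ := mul_nonsq (hx.nsq i k) (hx'.nsq i k)
  obtain ⟨w1, w2, hw1, hw2, hJ1, hJ2, hU1, hU2, hsp⟩ := exists_w h2 η t x x' d i k hη0 hd0 hd
  have hgg := Cfx_gg η t x x' κ₀ hκ
  have hJJ : ∀ j : Fin 3, JL j * JL j = (1 : Module.End K (V4 K)) := fun j =>
    LinearMap.ext fun y => Jd_Jd j y
  have hqA : κ₀ ^ 2 / (Nn η i * Nn η k) ≠ 0 := div_ne_zero (pow_ne_zero 2 hκ0) hA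
  refine ⟨UL η t x x' i k, 2 * aq η t i k x 0 * aq η t i k x' 0 * (κ₀ ^ 2 / (Nn η i * Nn η k)),
    -2 * (κ₀ ^ 2 / (Nn η i * Nn η k)), d, w1, w2, ?_⟩
  refine
    { two_ne := h2
      η_ne := hη0
      J_sq := hJJ i
      J'_sq := ?_
      J_adj := fun y z => Jd_adj η i y z
      J'_adj := ?_
      T_eq := TU η t x x' κ₀ i k hη0 hκ
      U_sq := ?_
      U_adj := fun y z => Uq_adj η t x x' i k y z
      d_ne := hd0
      κ_ne := mul_ne_zero (neg_ne_zero.2 h2) hqA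
      τ_ne := mul_ne_zero (mul_ne_zero (mul_ne_zero h2 (hx.al_ne i k)) (hx'.al_ne i k)) hqA
      ns1 := ?_
      ns2 := ?_
      w1_ne := hw1
      w2_ne := hw2
      Jw1 := hJ1
      Jw2 := hJ2
      Uw1 := hU1
      Uw2 := hU2
      span := hsp }
  · calc gL η t x x' κ₀ * JL k * gL η t x x' κ₀ * (gL η t x x' κ₀ * JL k * gL η t x x' κ₀)
        = gL η t x x' κ₀ * JL k * (gL η t x x' κ₀ * gL η t x x' κ₀) * JL k * gL η t x x' κ₀ := by
          simp only [mul_assoc]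
      _ = gL η t x x' κ₀ * (JL k * JL k) * gL η t x x' κ₀ := by
          rw [hgg, mul_one, mul_assoc (gL η t x x' κ₀) (JL k) (JL k)]
      _ = 1 := by rw [hJJ k, mul_one, hgg]
  · intro y z
    rw [Module.End.mul_apply, Module.End.mul_apply, Module.End.mul_apply, Module.End.mul_apply,
      Cfx_adj, JL_apply, JL_apply, Jd_adj, Cfx_adj]
  · refine LinearMap.ext fun y => ?_
    rw [Module.End.mul_apply, UL_apply, UL_apply, Uq_sq, hd, LinearMap.smul_apply, Module.End.one_apply]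
  · exact nsq_aux i₀ _ _ _ _ _ _ _ κ₀ d h2 hi hA hκ rfl rfl (hx.nsq i k) hd hne
  · have h := nsq_aux i₀ _ _ _ _ _ _ _ κ₀ (-d) h2 hi hA hκ rfl rfl (hx.nsq i k)
      (by rw [neg_sq]; exact hd) hne
    have e : ∀ a b : K, a - b * d = a + b * -d := fun a b => by ring
    rwa [e]

end Pool.Agent.H42.PL
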