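import Pool.Agent.H42.PL.KIs

/-!
# PL.Cmm : `y ↦ p y` and `y ↦ y p` are commutators

PROOF. Let `r ^ 2 = 2`, `a = r⁻¹ (1 - p)` and `abar = r⁻¹ (1 + p)`, where `1 = ![1, 0, 0, 0]`. `qm_pure`: `p (p y) = -y`, so `a (abar y) = abar (a y) = y` and `abar (abar y) = p y` (`2 / r ^ 2 = 1`). For `z` as in the hypotheses let `C y = (bq z z)⁻¹ z (y (cj z))`; `z` and `p` anticommute (`qm_anti`), so `C (a y) = abar (C y)`, `C (y a) = (C y) abar`
(`cj z = -z`, `qm_assoc`, `qm_pure`). `C` and `L y = a y` are `F`-linear equivalences (the inverse of `C` is `C`: `qm_pure`, `qm_pure_right`; the inverse of `L` is `y ↦ abar y`) and preserve `bq` (`bq_qm_left`, `bq_qm_right`, `bq_cj`, norm of `a` is `(1 + 1) / 2 = 1`), so they are in `OG` (`OG_of_bq`).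
`[C, L] = C L C⁻¹ L⁻¹ : y ↦ C (a (C⁻¹ (abar y))) = abar (abar y) = p y`. The same for the right multiplications. Suggestion: a general lemma: for `F`-linear maps `f f' : V4 K → V4 K` inverse to each other which preserve `bq` there is an element of `OG` with underlying map `f`.
`exists_gel`: `p = c⁻¹ • vv t x`, `z = ![0, t, 0, -1]`, `bq z z = η (1 + t ^ 2)`, `bq z (vv t x) = 0`, `Mx_mulVec`; the product of the two elements.
-/

set_option autoImplicit false

namespace Pool.Agent.H42.PL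

open Module Pool.Agent.H32.UD

variable (F : Type) {K : Type} [Field F] [Field K] [Algebra F K] [Finite F] [Finite K]

private theorem cmm_mk (η : K) (f f' : V4 K → V4 K) (hadd : ∀ x y, f (x + y) = f x + f y)
    (hsmul : ∀ (c : K) (x : V4 K), f (c • x) = c • f x) (h1 : ∀ x, f (f' x) = x)
    (h2 : ∀ x, f' (f x) = x) (hb : ∀ x x', bq η (f x) (f x') = bq η x x') :
    ∃ g ∈ OG F η, (∀ y, g y = f y) ∧ ∀ y, g⁻¹ y = f' y := by
  let g : V4 K ≃ₗ[F] V4 K :=
    { toFun := f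
      map_add' := hadd
      map_smul' := fun c x => by
        rw [RingHom.id_apply, ← algebraMap_smul K c x, hsmul, algebraMap_smul]
      invFun := f'
      left_inv := h2
      right_inv := h1 }
  exact ⟨g, OG_of_bq F η g hb, fun _ => rfl, fun _ => rfl⟩

private theorem cmm_core (h2 : (2 : K) ≠ 0) (η r : K) (hr : r ^ 2 = 2) (P C : V4 K → V4 K)
    (hPa : ∀ x y, P (x + y) = P x + P y) (hPs : ∀ (c : K) (x : V4 K), P (c • x) = c • P x)
    (hPP : ∀ y, P (P y) = -y) (hPb : ∀ x y, bq η (P x) (P y) = bq η x y)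
    (hPadj : ∀ x y, bq η (P x) y = -bq η x (P y))
    (hCa : ∀ x y, C (x + y) = C x + C y) (hCs : ∀ (c : K) (x : V4 K), C (c • x) = c • C x)
    (hCC : ∀ y, C (C y) = y) (hCb : ∀ x y, bq η (C x) (C y) = bq η x y)
    (hCP : ∀ y, C (P y) = -P (C y)) :
    ∃ g ∈ ⁅OG F η, OG F η⁆, ∀ y, g y = P y := by
  have hr0 : r ≠ 0 := by
    rintro rfl
    apply h2
    rw [← hr]
    ring
  have hrr : r⁻¹ * r⁻¹ * 2 = 1 := by
    rw [← hr]
    field_simp
  have hneg : ∀ x, P (-x) = -P x := fun x => by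
    have := hPs (-1) x
    rwa [neg_one_smul, neg_one_smul] at this
  have hCneg : ∀ x, C (-x) = -C x := fun x => by
    have := hCs (-1) x
    rwa [neg_one_smul, neg_one_smul] at this
  -- the element `a` and its inverse
  have hL1 : ∀ y, r⁻¹ • ((r⁻¹ • (y + P y)) + -P (r⁻¹ • (y + P y))) = y := by
    intro y
    rw [hPs, hPa, hPP, ← smul_neg, ← smul_add, smul_smul]
    have : y + P y + -(P y + -y) = (2 : K) • y := by
      rw [two_smul]; abel
    rw [this, smul_smul, hrr, one_smul]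
  have hL2 : ∀ y, r⁻¹ • ((r⁻¹ • (y + -P y)) + P (r⁻¹ • (y + -P y))) = y := by
    intro y
    rw [hPs, hPa, hneg, hPP, ← smul_add, smul_smul]
    have : y + -P y + (P y + - -y) = (2 : K) • y := by
      rw [two_smul]; abel
    rw [this, smul_smul, hrr, one_smul]
  have hLL : ∀ y, r⁻¹ • ((r⁻¹ • (y + P y)) + P (r⁻¹ • (y + P y))) = P y := by
    intro y
    rw [hPs, hPa, hPP, ← smul_add, smul_smul]
    have : y + P y + (P y + -y) = (2 : K) • P y := by
      rw [two_smul]; abel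
    rw [this, smul_smul, hrr, one_smul]
  have hLb : ∀ x x', bq η (r⁻¹ • (x + -P x)) (r⁻¹ • (x' + -P x')) = bq η x x' := by
    intro x x'
    rw [bq_smul_left, bq_smul_right, bq_add_left, bq_add_right, bq_add_right, bq_neg_left,
      bq_neg_left, bq_neg_right, bq_neg_right, hPb, hPadj]
    linear_combination (bq η x x') * hrr
  obtain ⟨L, hL, hLf, hLi⟩ := cmm_mk F η (fun y => r⁻¹ • (y + -P y)) (fun y => r⁻¹ • (y + P y))
    (fun x y => by
      rw [hPa, neg_add, ← smul_add]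
      congr 1
      abel)
    (fun c x => by
      rw [hPs, ← smul_neg, ← smul_add, smul_comm])
    hL1 hL2 hLb
  obtain ⟨D, hD, hDf, hDi⟩ := cmm_mk F η C C hCa hCs hCC hCC hCb
  refine ⟨D * L * D⁻¹ * L⁻¹, Subgroup.commutator_mem_commutator hD hL, fun y => ?_⟩
  rw [LinearEquiv.mul_apply, LinearEquiv.mul_apply, LinearEquiv.mul_apply, hLi, hDi, hLf, hDf]
  have hCL : ∀ y, C (r⁻¹ • (y + -P y)) = r⁻¹ • (C y + P (C y)) := by
    intro y
    rw [hCs, hCa, hCneg, hCP, neg_neg]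
  rw [hCL, hCC]
  exact hLL y

omit [Finite K] in
private theorem cmm_bqC (η : K) (z : V4 K) (hzN : bq η z z ≠ 0) (x y : V4 K) :
    bq η (-(bq η z z)⁻¹ • qm η z (qm η x z)) (-(bq η z z)⁻¹ • qm η z (qm η y z)) = bq η x y := by
  rw [bq_smul_left, bq_smul_right, bq_qm_left, bq_qm_right]
  field_simp

omit [Finite K] in
private theorem cmm_CC (η : K) (z : V4 K) (hz : z 0 = 0) (hzN : bq η z z ≠ 0) (y : V4 K) :
    -(bq η z z)⁻¹ • qm η z (qm η (-(bq η z z)⁻¹ • qm η z (qm η y z)) z) = y := by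
  rw [qm_smul_left, qm_smul_right, smul_smul, qm_assoc η z (qm η y z) z, qm_pure η hz,
    qm_pure_right η hz, smul_smul, smul_smul]
  have : -(bq η z z)⁻¹ * -(bq η z z)⁻¹ * (-(bq η z z) * -(bq η z z)) = 1 := by
    field_simp
  rw [← mul_assoc] at this
  rw [this, one_smul]

theorem exists_left (h2 : (2 : K) ≠ 0) (η r : K) (hr : r ^ 2 = 2) (p z : V4 K) (hp : p 0 = 0) (hpN : bq η p p = 1)
    (hz : z 0 = 0) (hzp : bq η z p = 0) (hzN : bq η z z ≠ 0) :
    ∃ g ∈ ⁅OG F η, OG F η⁆, ∀ y, g y = qm η p y := by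
  have hanti := qm_anti η hz hp hzp
  refine cmm_core F h2 η r hr (fun y => qm η p y) (fun y => -(bq η z z)⁻¹ • qm η z (qm η y z))
    (fun x y => qm_add_right η p x y) (fun c x => qm_smul_right η c p x) (fun y => ?_)
    (fun x y => ?_) (fun x y => ?_) (fun x y => ?_) (fun c x => ?_)
    (cmm_CC η z hz hzN) (cmm_bqC η z hzN) (fun y => ?_)
  · rw [qm_pure η hp, hpN, neg_one_smul]
  · rw [bq_qm_left, hpN, one_mul]
  · rw [bq_adj_left, cj_pure hp, qm_neg_left, bq_neg_right]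
  · rw [qm_add_left, qm_add_right, smul_add]
  · rw [qm_smul_left, qm_smul_right, smul_comm]
  · rw [qm_assoc, ← qm_assoc η z p, hanti, qm_neg_left, qm_assoc, smul_neg, qm_smul_right]

theorem exists_right (h2 : (2 : K) ≠ 0) (η r : K) (hr : r ^ 2 = 2) (p z : V4 K) (hp : p 0 = 0) (hpN : bq η p p = 1)
    (hz : z 0 = 0) (hzp : bq η z p = 0) (hzN : bq η z z ≠ 0) :
    ∃ g ∈ ⁅OG F η, OG F η⁆, ∀ y, g y = qm η y p := by
  have hanti := qm_anti η hz hp hzp
  refine cmm_core F h2 η r hr (fun y => qm η y p) (fun y => -(bq η z z)⁻¹ • qm η z (qm η y z))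
    (fun x y => qm_add_left η x y p) (fun c x => qm_smul_left η c x p) (fun y => ?_)
    (fun x y => ?_) (fun x y => ?_) (fun x y => ?_) (fun c x => ?_)
    (cmm_CC η z hz hzN) (cmm_bqC η z hzN) (fun y => ?_)
  · rw [qm_pure_right η hp, hpN, neg_one_smul]
  · rw [bq_qm_right, hpN, one_mul]
  · rw [bq_adj_right, cj_pure hp, qm_neg_right, bq_neg_right]
  · rw [qm_add_left, qm_add_right, smul_add]
  · rw [qm_smul_left, qm_smul_right, smul_comm]
  · have hpz : qm η p z = -qm η z p := by rw [hanti, neg_neg]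
    rw [qm_assoc η y p z, hpz, qm_neg_right, qm_neg_right, smul_neg, qm_smul_left,
      qm_assoc η z, qm_assoc η y]

theorem exists_gel (h2 : (2 : K) ≠ 0) (η t r x x' c c' : K) (hr : r ^ 2 = 2) (hη : η ≠ 0) (ht : 1 + t ^ 2 ≠ 0)
    (hc : c ≠ 0) (hc2 : c ^ 2 = NN η t x) (hc' : c' ≠ 0) (hc2' : c' ^ 2 = NN η t x') :
    ∃ g ∈ ⁅OG F η, OG F η⁆, ∀ y, g y = (c * c')⁻¹ • (Mx η t x x').mulVec y := by
  have hz0 : (![0, t, 0, -1] : V4 K) 0 = 0 := rfl
  have hzN : bq η (![0, t, 0, -1] : V4 K) ![0, t, 0, -1] ≠ 0 := by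
    have : bq η (![0, t, 0, -1] : V4 K) ![0, t, 0, -1] = η * (1 + t ^ 2) := by
      simp [bq]; ring
    rw [this]
    exact mul_ne_zero hη ht
  have hort : ∀ (d y : K), bq η (![0, t, 0, -1] : V4 K) (d⁻¹ • vv t y) = 0 := by
    intro d y
    rw [bq_smul_right]
    have : bq η (![0, t, 0, -1] : V4 K) (vv t y) = 0 := by
      simp [bq, vv]; ring
    rw [this, mul_zero]
  have hnorm : ∀ (d y : K), d ≠ 0 → d ^ 2 = NN η t y → bq η (d⁻¹ • vv t y) (d⁻¹ • vv t y) = 1 := by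
    intro d y hd hd2
    rw [bq_smul_left, bq_smul_right, bq_vv, ← hd2]
    field_simp
  have hp0 : ∀ (d y : K), (d⁻¹ • vv t y) 0 = 0 := by
    intro d y
    rw [Pi.smul_apply, vv_pure, smul_zero]
  obtain ⟨g, hg, hgf⟩ := exists_left F h2 η r hr (c⁻¹ • vv t x) _ (hp0 c x) (hnorm c x hc hc2)
    hz0 (hort c x) hzN
  obtain ⟨g', hg', hgf'⟩ := exists_right F h2 η r hr (c'⁻¹ • vv t x') _ (hp0 c' x')
    (hnorm c' x' hc' hc2') hz0 (hort c' x') hzN
  refine ⟨g * g', mul_mem hg hg', fun y => ?_⟩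
  rw [LinearEquiv.mul_apply, hgf, hgf', Mx_mulVec, qm_smul_left, qm_smul_right, qm_smul_right,
    smul_smul, mul_inv]

end Pool.Agent.H42.PL
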