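import Pool.Agent.H42.PL.Defs

/-!
# PL.KIs : a `K`-linear isometry of the trace form is an isometry of `bq`

PROOF. For `k ∈ K`: `Tr (k (bq (A x) (A x') - bq x x')) = Bf (y (k x)) (y x') - Bf (k x) x' = 0` (`bq_smul_left`, `Matrix.mulVec_smul`). The trace form of a finite field is non-degenerate: if `Tr (k z) = 0` for all `k` then `z = 0` (`Algebra.trace_surjective F K`: take `k = k₀ z⁻¹`, `Tr k₀ = 1`; see `B_nondeg` in `Pool/Agent/H32/UD/Bas.lean`).
`Bf_smul`, `Bf_nondeg` are the same. `Bf` is bilinear and symmetric (`bq_comm`, `bq_add_left`, ..., `map_add`; for `c : F`: `bq (c • x) y = c • bq x y`, `map_smul`).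
-/

set_option autoImplicit false

namespace Pool.Agent.H42.PL

open Module Pool.Agent.H32.UD

variable (F : Type) {K : Type} [Field F] [Field K] [Algebra F K] [Finite F] [Finite K]

theorem trace_eq_zero {z : K} (h : ∀ k : K, Algebra.trace F K (k * z) = 0) : z = 0 := by
  by_contra hz
  obtain ⟨t, ht⟩ := Algebra.trace_surjective F K 1
  have h1 := h (t * z⁻¹)
  rw [mul_assoc, inv_mul_cancel₀ hz, mul_one, ht] at h1
  exact one_ne_zero h1

theorem bq_of_OG (η : K) (y : V4 K ≃ₗ[F] V4 K) (hy : y ∈ OG F η) (A : Matrix (Fin 4) (Fin 4) K)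
    (hA : ∀ x, y x = A.mulVec x) (x x' : V4 K) : bq η (A.mulVec x) (A.mulVec x') = bq η x x' := by
  have key : ∀ k : K, Algebra.trace F K
      (k * (bq η (A.mulVec x) (A.mulVec x') - bq η x x')) = 0 := by
    intro k
    have h1 := (mem_OG F).1 hy (k • x) x'
    rw [hA, hA, Matrix.mulVec_smul] at h1
    unfold Bf at h1
    rw [bq_smul_left, bq_smul_left] at h1
    rw [mul_sub, map_sub, h1, sub_self]
  exact sub_eq_zero.1 (trace_eq_zero F key)

omit [Finite F] [Finite K] in
theorem Bf_comm (η : K) (x y : V4 K) : Bf F η x y = Bf F η y x := by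
  unfold Bf
  rw [bq_comm]

omit [Finite F] [Finite K] in
theorem Bf_add_left (η : K) (x y z : V4 K) : Bf F η (x + y) z = Bf F η x z + Bf F η y z := by
  unfold Bf
  rw [bq_add_left, map_add]

omit [Finite F] [Finite K] in
theorem Bf_add_right (η : K) (x y z : V4 K) : Bf F η x (y + z) = Bf F η x y + Bf F η x z := by
  unfold Bf
  rw [bq_add_right, map_add]

omit [Finite F] [Finite K] in
theorem Bf_neg_left (η : K) (x y : V4 K) : Bf F η (-x) y = -Bf F η x y := by
  unfold Bf
  rw [bq_neg_left, map_neg]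

omit [Finite F] [Finite K] in
theorem Bf_neg_right (η : K) (x y : V4 K) : Bf F η x (-y) = -Bf F η x y := by
  unfold Bf
  rw [bq_neg_right, map_neg]

/-- an `F`-linear equivalence which preserves `bq` preserves `Bf` -/
theorem OG_of_bq (η : K) (y : V4 K ≃ₗ[F] V4 K) (h : ∀ x x', bq η (y x) (y x') = bq η x x') :
    y ∈ OG F η := by
  rw [mem_OG]
  intro x x'
  unfold Bf
  rw [h]

end Pool.Agent.H42.PL
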