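import Pool.Agent.H42.PL.Mv2
import Pool.Agent.H42.PL.KIs

/-!
# PL.Omg : `ω` is not in the commutator subgroup

PROOF. `lam = 1`. The set `{v | Bf v v = lam ∧ ω v ≠ v}` is the disjoint union of `X1 = {.. ∧ ω v ≠ -v}` and `X2 = {.. ∧ ω v = -v}` (`v ≠ 0` as `lam ≠ 0`, so `ω v = -v` implies `ω v ≠ v`, `2 ≠ 0` in `K`, so `-v ≠ v`). On `X1` the maps `v ↦ -v` and `v ↦ ω v` are commuting involutions as in `four_dvd` (`Bf (-v) (-v) = Bf v v`, `hω`): `4 ∣ |X1|`.
`X2`: by `hm` the map `(a, b) ↦ a • w + b • w'` is a bijection from `{(a, b) | Tr (c a² + c' b²) = lam}`, `c = bq w w`, `c' = bq w' w'`, onto `X2`: `bq v v = a² c + b² c'` (`h0`, `bq_comm`); injective: `bq v w = a c`, `c ≠ 0`, `bq v w' = b c'`, `c' ≠ 0` (`c c'` is not a square, so not `0`). `card_two`. `not_mem_comm`.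
-/

set_option autoImplicit false

namespace Pool.Agent.H42.PL

open Module Pool.Agent.H32.UD

variable (F : Type) {K : Type} [Field F] [Field K] [Algebra F K] [Finite F] [Finite K]

private theorem omg_split {α : Type} [Finite α] (P Q : α → Prop) :
    Nat.card {z // P z} = Nat.card {z // P z ∧ Q z} + Nat.card {z // P z ∧ ¬ Q z} := by
  classical
  rw [← Nat.card_sum]
  exact Nat.card_congr ((Equiv.sumCompl (fun z : {z // P z} => Q z.1)).symm.trans
    (Equiv.sumCongr (Equiv.subtypeSubtypeEquivSubtypeInter P Q)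
      (Equiv.subtypeSubtypeEquivSubtypeInter P (fun z => ¬ Q z))))

private theorem omg_neg (hodd : Odd (Nat.card F)) (η : K) {v : V4 K} (hv : Bf F η v v = 1) : -v ≠ v := by
  intro h
  have h2 : (2 : K) ≠ 0 := two_ne_K F K hodd
  have h0 : v = 0 := by
    funext i
    have h3 := congrFun h i
    rw [Pi.neg_apply] at h3
    have h4 : (2 : K) * v i = 0 := by linear_combination -h3
    rcases mul_eq_zero.1 h4 with h5 | h5
    · exact absurd h5 h2
    · exact h5
  rw [h0] at hv
  unfold Bf at hv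
  rw [bq_zero_left, map_zero] at hv
  exact zero_ne_one hv

theorem omega_not (hodd : Odd (Nat.card F)) (η : K) (ω : V4 K ≃ₗ[F] V4 K) (hω : ω ∈ OG F η)
    (hinv : ∀ v, ω (ω v) = v) (w w' : V4 K) (hm : ∀ v, ω v = -v ↔ ∃ a b : K, v = a • w + b • w')
    (h0 : bq η w w' = 0) (hns : ¬ IsSquare (bq η w w * bq η w' w')) : ω ∉ ⁅OG F η, OG F η⁆ := by
  refine not_mem_comm F η ω hω hinv 1 ?_
  have hc : bq η w w ≠ 0 := by
    intro h
    apply hns
    rw [h, zero_mul]
    exact IsSquare.zero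
  have hc' : bq η w' w' ≠ 0 := by
    intro h
    apply hns
    rw [h, mul_zero]
    exact IsSquare.zero
  have hb : ∀ a b : K, bq η (a • w + b • w') (a • w + b • w') = bq η w w * a ^ 2 + bq η w' w' * b ^ 2 := by
    intro a b
    have h0' : bq η w' w = 0 := by rw [bq_comm, h0]
    rw [bq_add_left, bq_add_right, bq_add_right]
    simp only [bq_smul_left, bq_smul_right, h0, h0']
    ring
  have h1 := omg_split (fun v : V4 K => Bf F η v v = 1 ∧ ω v ≠ v) (fun v => ω v ≠ -v)
  have h4 : 4 ∣ Nat.card {v : V4 K // (Bf F η v v = 1 ∧ ω v ≠ v) ∧ ω v ≠ -v} := by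
    refine four_dvd (fun v => ⟨-v.1, ⟨?_, ?_⟩, ?_⟩) (fun v => ⟨ω v.1, ⟨?_, ?_⟩, ?_⟩)
      ?_ ?_ ?_ ?_ ?_ ?_
    · rw [Bf_neg_left, Bf_neg_right, neg_neg]
      exact v.2.1.1
    · rw [map_neg]
      exact fun h => v.2.1.2 (neg_injective h)
    · rw [map_neg]
      exact fun h => v.2.2 (neg_injective h)
    · rw [(mem_OG F).1 hω]
      exact v.2.1.1
    · rw [hinv]
      exact fun h => v.2.1.2 h.symm
    · rw [hinv]
      intro h
      apply v.2.2
      rw [h, neg_neg]
      exact congrArg ω h.symm |>.symm ▸ rfl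
    · intro v
      exact Subtype.ext (neg_neg _)
    · intro v
      exact Subtype.ext (hinv _)
    · intro v
      exact Subtype.ext (map_neg ω v.1).symm
    · intro v h
      exact omg_neg F hodd η v.2.1.1 (congrArg Subtype.val h)
    · intro v h
      exact v.2.1.2 (congrArg Subtype.val h)
    · intro v h
      exact v.2.2 (congrArg Subtype.val h).symm
  have h5 : Nat.card {v : V4 K // (Bf F η v v = 1 ∧ ω v ≠ v) ∧ ¬ ω v ≠ -v} =
      Nat.card {z : K × K // Algebra.trace F K (bq η w w * z.1 ^ 2 + bq η w' w' * z.2 ^ 2) = 1} := by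
    symm
    have hB : ∀ a b : K, Bf F η (a • w + b • w') (a • w + b • w') =
        Algebra.trace F K (bq η w w * a ^ 2 + bq η w' w' * b ^ 2) := by
      intro a b
      unfold Bf
      rw [hb]
    refine Nat.card_congr (Equiv.ofBijective (fun z => ⟨z.1.1 • w + z.1.2 • w', ⟨?_, ?_⟩, ?_⟩) ⟨?_, ?_⟩)
    · rw [hB]
      exact z.2
    · rw [(hm _).2 ⟨z.1.1, z.1.2, rfl⟩]
      exact omg_neg F hodd η (by rw [hB]; exact z.2)
    · rw [not_not]
      exact (hm _).2 ⟨z.1.1, z.1.2, rfl⟩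
    · rintro ⟨⟨a, b⟩, h6⟩ ⟨⟨a', b'⟩, h7⟩ h
      have h8 : a • w + b • w' = a' • w + b' • w' := congrArg Subtype.val h
      have h9 := congrArg (fun v => bq η v w) h8
      have h10 := congrArg (fun v => bq η v w') h8
      have h0' : bq η w' w = 0 := by rw [bq_comm, h0]
      simp only [bq_add_left, bq_smul_left, h0, h0', mul_zero, add_zero, zero_add] at h9 h10
      have h11 : a = a' := mul_right_cancel₀ hc h9
      have h12 : b = b' := mul_right_cancel₀ hc' h10
      subst h11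
      subst h12
      rfl
    · rintro ⟨v, ⟨h6, h7⟩, h8⟩
      rw [not_not] at h8
      obtain ⟨a, b, rfl⟩ := (hm v).1 h8
      refine ⟨⟨(a, b), ?_⟩, rfl⟩
      rw [hB] at h6
      exact h6
  have h6 := card_two F hodd (bq η w w) (bq η w' w') hns 1 one_ne_zero
  rw [← h5] at h6
  obtain ⟨k, hk⟩ := h4
  rw [h1]
  omega

end Pool.Agent.H42.PL
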