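import Pool.Agent.H42.PL.Defs

/-!
# PL.Nin : the nine nonsquares

PROOF. `fq_formula`: `fin_cases i <;> fin_cases k <;> simp [fq, aq, qm, nn, cj, vv, NN, Nn] <;> ring`. With `s = 1 + t ^ 2`, `N = NN η t x = 1 + η s x ^ 2`:
`f 0 0 = -4 η³ x² (1 + η t² x²)`, `f 1 1 = -4 η s x²`, `f 2 2 = -4 η³ t² x² (1 + η x²)`, `f 0 1 = f 1 0 = -η (N² - 4 η x²)`, `f 1 2 = f 2 1 = -η (N² - 4 η t² x²)`, `f 0 2 = f 2 0 = -η² (N² - 4 η² t² x⁴)`.
`al_formula`: the scalar part of `aq i k` is `-(2 v_i v_k N_i N_k - δ_ik N_k N)`, `v = (x, 1, x t)`. `GdP_of`: `-1 = i ^ 2` is a square, `η` times a nonzero square is not a square (`η = (a / b) ^ 2`), `η² * (not a square)` is not a square. The scalar parts: `i ≠ k`: `x, t, η, 2 ≠ 0` (`t ≠ 0` as `aj i t 1 = t ^ 2 ≠ 0`);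
`i = k`: `N_k (N - 2 v_k² N_k)`: `N - 2 η x² = 1 + η (t² - 1) x²`, `2 - N = 1 - η s x²`, `N - 2 η t² x² = 1 + η (1 - t²) x²`.
-/

set_option autoImplicit false
set_option linter.unusedSimpArgs false

namespace Pool.Agent.H42.PL

theorem fq_formula {R : Type} [CommRing R] (η t x : R) :
    fq η t 0 0 x = -(4 * η ^ 3 * x ^ 2 * (1 + η * t ^ 2 * x ^ 2)) ∧
    fq η t 1 1 x = -(4 * η * (1 + t ^ 2) * x ^ 2) ∧
    fq η t 2 2 x = -(4 * η ^ 3 * t ^ 2 * x ^ 2 * (1 + η * x ^ 2)) ∧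
    fq η t 0 1 x = -(η * (NN η t x ^ 2 - 4 * η * x ^ 2)) ∧
    fq η t 1 0 x = -(η * (NN η t x ^ 2 - 4 * η * x ^ 2)) ∧
    fq η t 1 2 x = -(η * (NN η t x ^ 2 - 4 * η * t ^ 2 * x ^ 2)) ∧
    fq η t 2 1 x = -(η * (NN η t x ^ 2 - 4 * η * t ^ 2 * x ^ 2)) ∧
    fq η t 0 2 x = -(η ^ 2 * (NN η t x ^ 2 - 4 * η ^ 2 * t ^ 2 * x ^ 4)) ∧
    fq η t 2 0 x = -(η ^ 2 * (NN η t x ^ 2 - 4 * η ^ 2 * t ^ 2 * x ^ 4)) := by
  refine ⟨?_, ?_, ?_, ?_, ?_, ?_, ?_, ?_, ?_⟩ <;>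
    simp [fq, aq, qm, nn, cj, vv, NN, Nn] <;> ring

theorem al_formula {R : Type} [CommRing R] (η t x : R) :
    aq η t 0 0 x 0 = η * (1 + η * (t ^ 2 - 1) * x ^ 2) ∧
    aq η t 1 1 x 0 = -(1 - η * (1 + t ^ 2) * x ^ 2) ∧
    aq η t 2 2 x 0 = η * (1 + η * (1 - t ^ 2) * x ^ 2) ∧
    aq η t 0 1 x 0 = -(2 * η * x) ∧ aq η t 1 0 x 0 = -(2 * η * x) ∧
    aq η t 1 2 x 0 = -(2 * η * t * x) ∧ aq η t 2 1 x 0 = -(2 * η * t * x) ∧
    aq η t 0 2 x 0 = -(2 * η ^ 2 * t * x ^ 2) ∧ aq η t 2 0 x 0 = -(2 * η ^ 2 * t * x ^ 2) := by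
  refine ⟨?_, ?_, ?_, ?_, ?_, ?_, ?_, ?_, ?_⟩ <;>
    simp [aq, qm, nn, cj, vv] <;> ring

variable {K : Type} [Field K]

/-- a nonsquare times a nonzero square -/
private theorem Nin_mul {a b c : K} (ha : ¬ IsSquare a) (hc : c ≠ 0) (h : b = a * c ^ 2) :
    ¬ IsSquare b := by
  rintro ⟨r, hr⟩
  apply ha
  refine ⟨r / c, ?_⟩
  rw [div_mul_div_comm, ← hr, h]
  field_simp

theorem GdP_of (η i t x : K) (hη : ¬ IsSquare η) (hi : i ^ 2 = -1) (h2 : (2 : K) ≠ 0) (ht : GdT i t) (hx : x ≠ 0)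
    (h1 : IsSquare (1 + η * x ^ 2)) (h1' : 1 + η * x ^ 2 ≠ 0)
    (h3 : IsSquare (1 + η * t ^ 2 * x ^ 2)) (h3' : 1 + η * t ^ 2 * x ^ 2 ≠ 0)
    (hN : IsSquare (NN η t x)) (hN' : NN η t x ≠ 0)
    (h4 : IsSquare (NN η t x ^ 2 - 4 * η * x ^ 2)) (h4' : NN η t x ^ 2 - 4 * η * x ^ 2 ≠ 0)
    (h5 : IsSquare (NN η t x ^ 2 - 4 * η * t ^ 2 * x ^ 2)) (h5' : NN η t x ^ 2 - 4 * η * t ^ 2 * x ^ 2 ≠ 0)
    (h6 : ¬ IsSquare (NN η t x ^ 2 - 4 * η ^ 2 * t ^ 2 * x ^ 4))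
    (e1 : 1 + η * (t ^ 2 - 1) * x ^ 2 ≠ 0) (e2 : 1 - η * (1 + t ^ 2) * x ^ 2 ≠ 0)
    (e3 : 1 + η * (1 - t ^ 2) * x ^ 2 ≠ 0) : GdP η t x := by
  have hη0 : η ≠ 0 := by
    rintro rfl
    exact hη ⟨0, by ring⟩
  have ht0 : t ≠ 0 := by
    rintro rfl
    apply ht.ne 1
    simp [aj]
  have hi0 : i ≠ 0 := by
    rintro rfl
    simp at hi
  have hs0 : 1 + t ^ 2 ≠ 0 := by
    have := ht.ne 2
    simpa [aj] using this
  obtain ⟨c1, hc1⟩ := h1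
  obtain ⟨c3, hc3⟩ := h3
  obtain ⟨c4, hc4⟩ := h4
  obtain ⟨c5, hc5⟩ := h5
  obtain ⟨s, hs⟩ := ht.sq
  obtain ⟨c, hc⟩ := hN
  have hc0 : c ≠ 0 := by
    rintro rfl
    exact hN' (by rw [hc]; ring)
  have hc10 : c1 ≠ 0 := by
    rintro rfl
    exact h1' (by rw [hc1]; ring)
  have hc30 : c3 ≠ 0 := by
    rintro rfl
    exact h3' (by rw [hc3]; ring)
  have hc40 : c4 ≠ 0 := by
    rintro rfl
    exact h4' (by rw [hc4]; ring)
  have hc50 : c5 ≠ 0 := by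
    rintro rfl
    exact h5' (by rw [hc5]; ring)
  have hs'0 : s ≠ 0 := by
    rintro rfl
    exact hs0 (by rw [hs]; ring)
  obtain ⟨f00, f11, f22, f01, f10, f12, f21, f02, f20⟩ := fq_formula η t x
  obtain ⟨a00, a11, a22, a01, a10, a12, a21, a02, a20⟩ := al_formula η t x
  have n00 : ¬ IsSquare (fq η t 0 0 x) := by
    refine Nin_mul (c := i * 2 * η * x * c3) hη (by simp [hη0, ht0, hi0, hx, h2, hc10, hc30, hc40, hc50, hs'0]) ?_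
    rw [f00, hc3]
    linear_combination (-(4 * η ^ 3 * x ^ 2 * c3 ^ 2)) * hi
  have n11 : ¬ IsSquare (fq η t 1 1 x) := by
    refine Nin_mul (c := i * 2 * s * x) hη (by simp [hη0, ht0, hi0, hx, h2, hc10, hc30, hc40, hc50, hs'0]) ?_
    rw [f11, hs]
    linear_combination (-(4 * η * s ^ 2 * x ^ 2)) * hi
  have n22 : ¬ IsSquare (fq η t 2 2 x) := by
    refine Nin_mul (c := i * 2 * η * t * x * c1) hη (by simp [hη0, ht0, hi0, hx, h2, hc10, hc30, hc40, hc50, hs'0]) ?_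
    rw [f22, hc1]
    linear_combination (-(4 * η ^ 3 * t ^ 2 * x ^ 2 * c1 ^ 2)) * hi
  have n01 : ¬ IsSquare (fq η t 0 1 x) := by
    refine Nin_mul (c := i * c4) hη (by simp [hη0, ht0, hi0, hx, h2, hc10, hc30, hc40, hc50, hs'0]) ?_
    rw [f01, hc4]
    linear_combination (-(η * c4 ^ 2)) * hi
  have n12 : ¬ IsSquare (fq η t 1 2 x) := by
    refine Nin_mul (c := i * c5) hη (by simp [hη0, ht0, hi0, hx, h2, hc10, hc30, hc40, hc50, hs'0]) ?_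
    rw [f12, hc5]
    linear_combination (-(η * c5 ^ 2)) * hi
  have n02 : ¬ IsSquare (fq η t 0 2 x) := by
    refine Nin_mul (c := i * η) h6 (by simp [hη0, ht0, hi0, hx, h2, hc10, hc30, hc40, hc50, hs'0]) ?_
    rw [f02]
    linear_combination (-(η ^ 2 * (NN η t x ^ 2 - 4 * η ^ 2 * t ^ 2 * x ^ 4))) * hi
  refine ⟨⟨c, hc0, by rw [hc]; ring⟩, hx, ?_, ?_⟩
  · intro j k
    fin_cases j <;> fin_cases k
    · exact n00
    · exact n01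
    · exact n02
    · show ¬ IsSquare (fq η t 1 0 x)
      rw [f10, ← f01]
      exact n01
    · exact n11
    · exact n12
    · show ¬ IsSquare (fq η t 2 0 x)
      rw [f20, ← f02]
      exact n02
    · show ¬ IsSquare (fq η t 2 1 x)
      rw [f21, ← f12]
      exact n12
    · exact n22
  · have m1 : -(2 * η * x) ≠ 0 := by simp [hη0, ht0, hx, h2]
    have m2 : -(2 * η * t * x) ≠ 0 := by simp [hη0, ht0, hx, h2]
    have m3 : -(2 * η ^ 2 * t * x ^ 2) ≠ 0 := by simp [hη0, ht0, hx, h2]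
    intro j k
    fin_cases j <;> fin_cases k
    · show aq η t 0 0 x 0 ≠ 0
      rw [a00]
      exact mul_ne_zero hη0 e1
    · show aq η t 0 1 x 0 ≠ 0
      rw [a01]
      exact m1
    · show aq η t 0 2 x 0 ≠ 0
      rw [a02]
      exact m3
    · show aq η t 1 0 x 0 ≠ 0
      rw [a10]
      exact m1
    · show aq η t 1 1 x 0 ≠ 0
      rw [a11]
      exact neg_ne_zero.2 e2
    · show aq η t 1 2 x 0 ≠ 0
      rw [a12]
      exact m2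
    · show aq η t 2 0 x 0 ≠ 0
      rw [a20]
      exact m3
    · show aq η t 2 1 x 0 ≠ 0
      rw [a21]
      exact m2
    · show aq η t 2 2 x 0 ≠ 0
      rw [a22]
      exact mul_ne_zero hη0 e3

end Pool.Agent.H42.PL
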