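import Pool.Agent.H42.PL.Defs

/-!
# PL.Sqf : the polynomials `∏ (1 + η a_j X ^ 2)` are squarefree

PROOF. `1 + η a X ^ 2` is separable for `a ≠ 0`: its derivative is `2 η a X` and `(1 + η a X ^ 2) - (X / 2) (2 η a X) = 1`. For `a ≠ b`: `b (1 + η a X ^ 2) - a (1 + η b X ^ 2) = b - a` is a unit: coprime. So the product over a set of different `a_j` is separable (`Polynomial.separable_prod'` or `Finset` induction with `Polynomial.Separable.mul`),
`Polynomial.Separable.squarefree`. Degree: `natDegree = 2 |B|` (`Polynomial.natDegree_prod_of_...`, each factor has degree two, or `natDegree_prod`). `fp` are the six products over the disjoint sets `{0}, {1}, {2}, {7, 8}, {5, 6}, {3, 4}`; the product of the `fp b`, `b ∈ A`, is the product over the union (`Finset.prod_biUnion`), which is nonempty and has at most `9` elements.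
`fp_eval`: `(1 + η a x ^ 2) (1 + η b x ^ 2) = 1 + η (a + b) x ^ 2 + η ^ 2 a b x ^ 4` with `s = 1 + t ^ 2`: for `-(1 ± i t) ^ 2`: `a + b = 2 s - 4`, `a b = s ^ 2`; for `(1 ± i t) ^ 2`: `a + b = 2 s - 4 t ^ 2`, `a b = s ^ 2`; for `(1 ∓ t) ^ 2`: `(1 + η s x ^ 2) ^ 2 - (2 η t x ^ 2) ^ 2` (use `i ^ 2 = -1`).
-/

set_option autoImplicit false

namespace Pool.Agent.H42.PL

open Polynomial

variable {K : Type} [Field K]

/-- the factor `1 + η a X ^ 2` -/
noncomputable def pj (η a : K) : K[X] := 1 + C (η * a) * X ^ 2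

/-- the sets of indices -/
def Bs (b : Fin 6) : Finset (Fin 9) :=
  match b with
  | 0 => {0}
  | 1 => {1}
  | 2 => {2}
  | 3 => {7, 8}
  | 4 => {5, 6}
  | 5 => {3, 4}

/-- the six polynomials -/
noncomputable def fp (η i t : K) (b : Fin 6) : K[X] := ∏ j ∈ Bs b, pj η (aj i t j)

private theorem sqf_C2 (h2 : (2 : K) ≠ 0) : (C (2 : K)⁻¹ : K[X]) * 2 = 1 := by
  have h : (2 : K[X]) = C (2 : K) := (map_ofNat C 2).symm
  rw [h, ← C_mul, inv_mul_cancel₀ h2, C_1]

private theorem sqf_sep (h2 : (2 : K) ≠ 0) (η a : K) : (pj η a).Separable := by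
  have hd : derivative (pj η a) = C (η * a) * (2 * X) := by
    unfold pj
    rw [derivative_add, derivative_one, zero_add, derivative_C_mul, derivative_X_pow]
    have h : (C ((2 : ℕ) : K) : K[X]) = 2 := by
      rw [Nat.cast_ofNat]
      exact map_ofNat C 2
    rw [h, pow_one]
  refine ⟨1, -(C (2 : K)⁻¹ * X), ?_⟩
  rw [hd]
  unfold pj
  have h := sqf_C2 h2
  linear_combination (-(C (η * a) * X ^ 2)) * h

private theorem sqf_cop (η : K) {a b : K} (hab : a ≠ b) : IsCoprime (pj η a) (pj η b) := by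
  have h : b - a ≠ 0 := sub_ne_zero.2 (Ne.symm hab)
  refine ⟨C (b * (b - a)⁻¹), C (-(a * (b - a)⁻¹)), ?_⟩
  unfold pj
  have h1 : (C (b * (b - a)⁻¹) : K[X]) - C (a * (b - a)⁻¹) = 1 := by
    rw [← C_sub, ← sub_mul, mul_inv_cancel₀ h, C_1]
  have h3 : (C (b * (b - a)⁻¹) * C (η * a) : K[X]) = C (a * (b - a)⁻¹) * C (η * b) := by
    rw [← C_mul, ← C_mul]
    congr 1
    ring
  rw [C_neg]
  linear_combination h1 + X ^ 2 * h3

private theorem sqf_deg {η a : K} (h : η * a ≠ 0) : (pj η a).natDegree = 2 := by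
  unfold pj
  rw [natDegree_add_eq_right_of_natDegree_lt]
  · exact natDegree_C_mul_X_pow 2 _ h
  · rw [natDegree_one, natDegree_C_mul_X_pow 2 _ h]
    norm_num

theorem fp_squarefree (η i t : K) (hη : η ≠ 0) (h2 : (2 : K) ≠ 0) (ht : GdT i t) (A : Finset (Fin 6)) (hA : A.Nonempty) :
    Squarefree (∏ b ∈ A, fp η i t b) ∧ 1 ≤ (∏ b ∈ A, fp η i t b).natDegree ∧
      (∏ b ∈ A, fp η i t b).natDegree ≤ 18 := by
  have hdis : ∀ b b' : Fin 6, b ≠ b' → Disjoint (Bs b) (Bs b') := by decide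
  have hne : ∀ b : Fin 6, (Bs b).Nonempty := by decide
  have hU : ∏ b ∈ A, fp η i t b = ∏ j ∈ A.biUnion Bs, pj η (aj i t j) := by
    rw [Finset.prod_biUnion]
    · rfl
    · intro b _ b' _ hb
      exact hdis b b' hb
  have hdeg : ∀ j, (pj η (aj i t j)).natDegree = 2 := fun j =>
    sqf_deg (mul_ne_zero hη (ht.ne j))
  have hnz : ∀ j, pj η (aj i t j) ≠ 0 := by
    intro j h
    have h1 := hdeg j
    rw [h, natDegree_zero] at h1
    omega
  have hsep : (∏ j ∈ A.biUnion Bs, pj η (aj i t j)).Separable :=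
    separable_prod' (fun x _ y _ hxy => sqf_cop η (fun h => hxy (ht.inj h)))
      (fun x _ => sqf_sep h2 η _)
  have hnd : (∏ j ∈ A.biUnion Bs, pj η (aj i t j)).natDegree = 2 * (A.biUnion Bs).card := by
    rw [natDegree_prod _ _ (fun j _ => hnz j), Finset.sum_congr rfl (fun j _ => hdeg j),
      Finset.sum_const, smul_eq_mul, mul_comm]
  have hcard : 1 ≤ (A.biUnion Bs).card := by
    obtain ⟨b, hb⟩ := hA
    obtain ⟨j, hj⟩ := hne b
    exact Finset.card_pos.2 ⟨j, Finset.mem_biUnion.2 ⟨b, hb, hj⟩⟩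
  have hcard' : (A.biUnion Bs).card ≤ 9 := by
    have := Finset.card_le_univ (A.biUnion Bs)
    simpa using this
  rw [hU, hnd]
  exact ⟨hsep.squarefree, by omega, by omega⟩

private theorem sqf_ev (η a x : K) : (pj η a).eval x = 1 + η * a * x ^ 2 := by
  unfold pj
  simp

theorem fp_eval (η i t x : K) (hi : i ^ 2 = -1) :
    (fp η i t 0).eval x = 1 + η * x ^ 2 ∧ (fp η i t 1).eval x = 1 + η * t ^ 2 * x ^ 2 ∧
    (fp η i t 2).eval x = NN η t x ∧ (fp η i t 3).eval x = NN η t x ^ 2 - 4 * η * x ^ 2 ∧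
    (fp η i t 4).eval x = NN η t x ^ 2 - 4 * η * t ^ 2 * x ^ 2 ∧
    (fp η i t 5).eval x = NN η t x ^ 2 - 4 * η ^ 2 * t ^ 2 * x ^ 4 := by
  have a0 : aj i t 0 = 1 := rfl
  have a1 : aj i t 1 = t ^ 2 := rfl
  have a2 : aj i t 2 = 1 + t ^ 2 := rfl
  have a3 : aj i t 3 = (1 - t) ^ 2 := rfl
  have a4 : aj i t 4 = (1 + t) ^ 2 := rfl
  have a5 : aj i t 5 = (1 + i * t) ^ 2 := rfl
  have a6 : aj i t 6 = (1 - i * t) ^ 2 := rfl
  have a7 : aj i t 7 = -(1 + i * t) ^ 2 := rfl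
  have a8 : aj i t 8 = -(1 - i * t) ^ 2 := rfl
  have b0 : fp η i t 0 = pj η (aj i t 0) := Finset.prod_singleton _ _
  have b1 : fp η i t 1 = pj η (aj i t 1) := Finset.prod_singleton _ _
  have b2 : fp η i t 2 = pj η (aj i t 2) := Finset.prod_singleton _ _
  have b3 : fp η i t 3 = pj η (aj i t 7) * pj η (aj i t 8) := Finset.prod_pair (by decide)
  have b4 : fp η i t 4 = pj η (aj i t 5) * pj η (aj i t 6) := Finset.prod_pair (by decide)
  have b5 : fp η i t 5 = pj η (aj i t 3) * pj η (aj i t 4) := Finset.prod_pair (by decide)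
  refine ⟨?_, ?_, ?_, ?_, ?_, ?_⟩
  · rw [b0, sqf_ev, a0]
    ring
  · rw [b1, sqf_ev, a1]
  · rw [b2, sqf_ev, a2]
    rfl
  · rw [b3, eval_mul, sqf_ev, sqf_ev, a7, a8]
    unfold NN
    linear_combination (-2 * t ^ 2 * η * x ^ 2
      - t ^ 2 * η ^ 2 * x ^ 4 * (2 + t ^ 2 - i ^ 2 * t ^ 2)) * hi
  · rw [b4, eval_mul, sqf_ev, sqf_ev, a5, a6]
    unfold NN
    linear_combination (2 * t ^ 2 * η * x ^ 2
      - t ^ 2 * η ^ 2 * x ^ 4 * (2 + t ^ 2 - i ^ 2 * t ^ 2)) * hi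
  · rw [b5, eval_mul, sqf_ev, sqf_ev, a3, a4]
    unfold NN
    ring

end Pool.Agent.H42.PL
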