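import Pool.Agent.H42.PL.Defs

/-!
# PL.Tex : the parameter `t`

PROOF. The numbers `aj i t j` are `c0 j + c1 j t + c2 j t ^ 2` with the coefficient vectors `(1,0,0), (0,0,1), (1,0,1), (1,-2,1), (1,2,1), (1,2i,-1), (1,-2i,-1), (-1,-2i,1), (-1,2i,1)` (`i ^ 2 = -1`). These nine vectors are different from each other and from `0` (`2 ≠ 0`, so `4 ≠ 0`, `i ≠ 0`, `2 i ≠ -2 i`).
So for each pair `j < j'` there are at most two `t` with `aj i t j = aj i t j'` (roots of a nonzero polynomial of degree at most two), and for each `j` at most two `t` with `aj i t j = 0`: at most `2 (36 + 9) = 90` bad `t`.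
For `m ≠ ± 1` let `t = 2 m / (1 - m ^ 2)`: `1 + t ^ 2 = ((1 + m ^ 2) / (1 - m ^ 2)) ^ 2` is a square. Every `t` has at most two preimages `m` (`t m ^ 2 + 2 m - t = 0`, not the zero polynomial as `2 ≠ 0`). So the bad `m` are at most `2 * 90 + 2 = 182 < 200`.
(A general lemma: if `(a, b, c) ≠ 0` then `{x | a + b x + c x ^ 2 = 0}` has at most two elements: `Polynomial.card_roots'`.)
-/

set_option autoImplicit false

namespace Pool.Agent.H42.PL

variable {K : Type} [Field K] [Finite K]

/-- a nonzero polynomial of degree at most two has at most two roots -/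
theorem card_quad (a b c : K) (h : ¬ (a = 0 ∧ b = 0 ∧ c = 0)) :
    Nat.card {x : K // a + b * x + c * x ^ 2 = 0} ≤ 2 := by
  classical
  set P : Polynomial K := Polynomial.C a + Polynomial.C b * Polynomial.X +
    Polynomial.C c * Polynomial.X ^ 2 with hP
  have hP0 : P ≠ 0 := by
    intro h0
    apply h
    refine ⟨?_, ?_, ?_⟩
    · have h1 := congrArg (fun Q => Polynomial.coeff Q 0) h0
      simpa [hP] using h1
    · have h1 := congrArg (fun Q => Polynomial.coeff Q 1) h0
      simpa [hP, Polynomial.coeff_X_pow, Polynomial.coeff_C] using h1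
    · have h1 := congrArg (fun Q => Polynomial.coeff Q 2) h0
      simpa [hP, Polynomial.coeff_X, Polynomial.coeff_C] using h1
  have hd : P.natDegree ≤ 2 := by
    rw [hP]
    compute_degree
  have h1 : {x : K | a + b * x + c * x ^ 2 = 0} ⊆ (P.roots.toFinset : Set K) := by
    intro x hx
    have hx' : a + b * x + c * x ^ 2 = 0 := hx
    rw [Finset.mem_coe, Multiset.mem_toFinset, Polynomial.mem_roots hP0, Polynomial.IsRoot.def]
    simp [hP, hx']
  calc Nat.card {x : K // a + b * x + c * x ^ 2 = 0}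
      = {x : K | a + b * x + c * x ^ 2 = 0}.ncard := Nat.card_coe_set_eq _
    _ ≤ (P.roots.toFinset : Set K).ncard := Set.ncard_le_ncard h1 (Finset.finite_toSet _)
    _ = P.roots.toFinset.card := Set.ncard_coe_finset _
    _ ≤ P.roots.card := Multiset.toFinset_card_le _
    _ ≤ P.natDegree := Polynomial.card_roots' P
    _ ≤ 2 := hd

private def Tex_c0 : Fin 9 → K := ![1, 0, 1, 1, 1, 1, 1, -1, -1]

private def Tex_c1 (i : K) : Fin 9 → K := ![0, 0, 0, -2, 2, 2 * i, -(2 * i), -(2 * i), 2 * i]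

private def Tex_c2 : Fin 9 → K := ![0, 1, 1, 1, 1, -1, -1, 1, 1]

omit [Finite K] in
private lemma Tex_aj (i t : K) (hi : i ^ 2 = -1) (j : Fin 9) :
    aj i t j = Tex_c0 j + Tex_c1 i j * t + Tex_c2 j * t ^ 2 := by
  fin_cases j
  · simp [aj, Tex_c0, Tex_c1, Tex_c2]
  · simp [aj, Tex_c0, Tex_c1, Tex_c2]
  · simp [aj, Tex_c0, Tex_c1, Tex_c2]
  · simp [aj, Tex_c0, Tex_c1, Tex_c2]; ring
  · simp [aj, Tex_c0, Tex_c1, Tex_c2]; ring
  · simp [aj, Tex_c0, Tex_c1, Tex_c2]; linear_combination t ^ 2 * hi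
  · simp [aj, Tex_c0, Tex_c1, Tex_c2]; linear_combination t ^ 2 * hi
  · simp [aj, Tex_c0, Tex_c1, Tex_c2]; linear_combination (-t ^ 2) * hi
  · simp [aj, Tex_c0, Tex_c1, Tex_c2]; linear_combination (-t ^ 2) * hi

omit [Finite K] in
private lemma Tex_nz (i : K) (j : Fin 9) :
    ¬ ((Tex_c0 j : K) = 0 ∧ Tex_c1 i j = 0 ∧ (Tex_c2 j : K) = 0) := by
  rintro ⟨e0, e1, e2⟩
  fin_cases j <;> simp [Tex_c0, Tex_c1, Tex_c2] at e0 e1 e2

omit [Finite K] in
private lemma Tex_df (i : K) (hi : i ^ 2 = -1) (h2 : (2 : K) ≠ 0) (j j' : Fin 9) (hj : j < j') :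
    ¬ ((Tex_c0 j : K) - Tex_c0 j' = 0 ∧ Tex_c1 i j - Tex_c1 i j' = 0 ∧
      (Tex_c2 j : K) - Tex_c2 j' = 0) := by
  have hi0 : i ≠ 0 := by
    rintro rfl
    norm_num at hi
  have h4 : (2 : K) * 2 ≠ 0 := mul_ne_zero h2 h2
  have h4i : (2 : K) * 2 * i ≠ 0 := mul_ne_zero h4 hi0
  have h1 : (1 : K) ≠ 0 := one_ne_zero
  rintro ⟨e0, e1, e2⟩
  fin_cases j <;> fin_cases j' <;>
    first
    | (exfalso; revert hj; decide)
    | (simp only [Tex_c0, Tex_c1, Tex_c2, Matrix.cons_val, Fin.isValue, Fin.mk_zero, Fin.mk_one,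
        Fin.reduceFinMk] at e0 e1 e2
       first
       | exact h1 (by linear_combination e0)
       | exact h1 (by linear_combination -e0)
       | exact h1 (by linear_combination e2)
       | exact h1 (by linear_combination -e2)
       | exact h2 (by linear_combination e0)
       | exact h2 (by linear_combination -e0)
       | exact h2 (by linear_combination e1)
       | exact h2 (by linear_combination -e1)
       | exact h2 (by linear_combination e2)
       | exact h2 (by linear_combination -e2)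
       | exact h4 (by linear_combination e1)
       | exact h4 (by linear_combination -e1)
       | exact h4i (by linear_combination e1)
       | exact h4i (by linear_combination -e1))

theorem exists_t (i : K) (hi : i ^ 2 = -1) (h2 : (2 : K) ≠ 0) (hQ : 200 ≤ Nat.card K) : ∃ t, GdT i t := by
  classical
  let _ := Fintype.ofFinite K
  let Q : K → K → K → Finset K := fun a b c => Finset.univ.filter fun x => a + b * x + c * x ^ 2 = 0
  have hQc : ∀ a b c : K, ¬ (a = 0 ∧ b = 0 ∧ c = 0) → (Q a b c).card ≤ 2 := by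
    intro a b c h
    have h1 := card_quad a b c h
    rwa [Nat.card_eq_fintype_card, Fintype.card_subtype] at h1
  let P : Finset (Fin 9 × Fin 9) := Finset.univ.filter fun p => p.1 < p.2
  have hP : P.card = 36 := by decide
  let T1 : Finset K := P.biUnion fun p =>
    Q (Tex_c0 p.1 - Tex_c0 p.2) (Tex_c1 i p.1 - Tex_c1 i p.2) (Tex_c2 p.1 - Tex_c2 p.2)
  let T2 : Finset K := (Finset.univ : Finset (Fin 9)).biUnion fun j =>
    Q (Tex_c0 j) (Tex_c1 i j) (Tex_c2 j)
  have hT1 : T1.card ≤ 36 * 2 := by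
    rw [← hP]
    refine Finset.card_biUnion_le_card_mul _ _ _ fun p hp => ?_
    exact hQc _ _ _ (Tex_df i hi h2 p.1 p.2 (Finset.mem_filter.1 hp).2)
  have hT2 : T2.card ≤ 9 * 2 := by
    refine (Finset.card_biUnion_le_card_mul _ _ 2 fun j _ => hQc _ _ _ (Tex_nz i j)).trans ?_
    simp
  let B : Finset K := Q 1 0 (-1) ∪ (T1 ∪ T2).biUnion fun t => Q (-t) 2 t
  have hB : B.card ≤ 182 := by
    have h3 : ((T1 ∪ T2).biUnion fun t => Q (-t) 2 t).card ≤ (T1 ∪ T2).card * 2 := by
      refine Finset.card_biUnion_le_card_mul _ _ _ fun t _ => hQc _ _ _ ?_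
      rintro ⟨_, h, _⟩
      exact h2 h
    have h4 : (Q 1 0 (-1)).card ≤ 2 := hQc _ _ _ (by rintro ⟨h, _, _⟩; exact one_ne_zero h)
    have h5 := Finset.card_union_le T1 T2
    have h6 := Finset.card_union_le (Q 1 0 (-1)) ((T1 ∪ T2).biUnion fun t => Q (-t) 2 t)
    show (Q 1 0 (-1) ∪ (T1 ∪ T2).biUnion fun t => Q (-t) 2 t).card ≤ 182
    omega
  have hex : ∃ m : K, m ∉ B := by
    by_contra hcon
    push Not at hcon
    have h3 : (Finset.univ : Finset K) ⊆ B := fun x _ => hcon x
    have h4 := Finset.card_le_card h3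
    rw [Finset.card_univ, ← Nat.card_eq_fintype_card] at h4
    omega
  obtain ⟨m, hm⟩ := hex
  have hm' : m ∉ Q 1 0 (-1) ∧ m ∉ (T1 ∪ T2).biUnion fun t => Q (-t) 2 t := by
    have h3 : m ∉ Q 1 0 (-1) ∪ (T1 ∪ T2).biUnion fun t => Q (-t) 2 t := hm
    rw [Finset.mem_union, not_or] at h3
    exact h3
  obtain ⟨hm1, hm2⟩ := hm'
  have hd : 1 - m ^ 2 ≠ 0 := by
    intro h3
    apply hm1
    simp only [Q, Finset.mem_filter, Finset.mem_univ, true_and]
    linear_combination h3
  set t : K := 2 * m / (1 - m ^ 2) with ht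
  have htT : t ∉ T1 ∪ T2 := by
    intro h3
    apply hm2
    rw [Finset.mem_biUnion]
    refine ⟨t, h3, ?_⟩
    simp only [Q, Finset.mem_filter, Finset.mem_univ, true_and]
    rw [ht]
    field_simp
    ring
  rw [Finset.mem_union, not_or] at htT
  obtain ⟨ht1, ht2⟩ := htT
  have hlt : ∀ j j' : Fin 9, j < j' → aj i t j ≠ aj i t j' := by
    intro j j' hj h3
    apply ht1
    simp only [T1, Finset.mem_biUnion]
    refine ⟨(j, j'), ?_, ?_⟩
    · simp only [P, Finset.mem_filter, Finset.mem_univ, true_and]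
      exact hj
    · simp only [Q, Finset.mem_filter, Finset.mem_univ, true_and]
      rw [Tex_aj i t hi, Tex_aj i t hi] at h3
      linear_combination h3
  refine ⟨t, ⟨(1 + m ^ 2) / (1 - m ^ 2), ?_⟩, ?_, ?_⟩
  · rw [ht]
    field_simp
    ring
  · intro j j' h3
    by_contra hne
    rcases lt_or_gt_of_ne hne with h4 | h4
    · exact hlt j j' h4 h3
    · exact hlt j' j h4 h3.symm
  · intro j h3
    apply ht2
    simp only [T2, Finset.mem_biUnion]
    refine ⟨j, Finset.mem_univ _, ?_⟩
    simp only [Q, Finset.mem_filter, Finset.mem_univ, true_and]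
    rw [Tex_aj i t hi] at h3
    exact h3

end Pool.Agent.H42.PL
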