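import Pool.Agent.H42.PL.ChA
import Pool.Agent.H42.PL.Sqf
import Pool.Agent.H42.PL.Nin
import Pool.Agent.H42.PL.Tex

/-!
# PL.ChB : there are at least `|K| / 256` good `x`

PROOF. `count_chi` for `fp η i t` and `e = (1, 1, 1, 1, 1, -1)` gives `Q ≤ 128 N`, where `N` counts the `x` with `χ = 1` (nonzero squares, `quadraticChar_one_iff_isSquare`) for the first five polynomials and `χ = -1` (`quadraticChar_neg_one_iff_not_isSquare`) for the last (`fp_eval`). Those of them with `x ≠ 0` and `1 + η (t² - 1) x² ≠ 0`,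
`1 - η (1 + t²) x² ≠ 0`, `1 + η (1 - t²) x² ≠ 0` (`card_quad`: at most six exceptions) satisfy `GdP` (`GdP_of`; `η ≠ 0` as it is not a square). So `Q ≤ 128 (|GdP| + 7)` and `128 * 7 ≤ Q / 2`. (`ringChar K ≠ 2`: `2 ≠ 0`; `Fintype.ofFinite`, `Nat.card_eq_fintype_card`.)
-/

set_option autoImplicit false

namespace Pool.Agent.H42.PL

private theorem ChB_quad {K : Type} [Field K] [Fintype K] [DecidableEq K] (a : K) :
    (Finset.univ.filter fun x : K => 1 + a * x ^ 2 = 0).card ≤ 2 := by
  have h := card_quad (1 : K) 0 a (fun h => one_ne_zero h.1)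
  rw [Nat.card_eq_fintype_card, Fintype.card_subtype] at h
  refine le_trans (le_of_eq ?_) h
  congr 1
  ext x
  simp

theorem card_GdP {K : Type} [Field K] [Finite K] (η i t : K) (hη : ¬ IsSquare η) (hi : i ^ 2 = -1) (h2 : (2 : K) ≠ 0)
    (ht : GdT i t) (hQ : 2 ^ 30 ≤ Nat.card K) : Nat.card K ≤ 256 * Nat.card {x : K // GdP η t x} := by
  classical
  have : Fintype K := Fintype.ofFinite K
  have hη0 : η ≠ 0 := by
    rintro rfl
    exact hη ⟨0, by ring⟩
  have hodd : ringChar K ≠ 2 := by
    intro h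
    apply h2
    have h3 := ringChar.Nat.cast_ringChar (R := K)
    rw [h] at h3
    exact_mod_cast h3
  rw [Nat.card_eq_fintype_card] at hQ ⊢
  rw [Nat.card_eq_fintype_card, Fintype.card_subtype]
  obtain ⟨e, he⟩ : ∃ e : Fin 6 → ℤ, e = ![1, 1, 1, 1, 1, -1] := ⟨_, rfl⟩
  have he1 : ∀ b, e b = 1 ∨ e b = -1 := by
    intro b
    rw [he]
    fin_cases b <;> simp
  have h3 := count_chi hodd (fp η i t) e he1 (fun A hA => fp_squarefree η i t hη0 h2 ht A hA) hQ
  -- the exceptions
  obtain ⟨B, hB⟩ : ∃ B : Finset K, B = {0} ∪ ((Finset.univ.filter fun x : K =>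
      1 + η * (t ^ 2 - 1) * x ^ 2 = 0) ∪ ((Finset.univ.filter fun x : K =>
      1 + (-(η * (1 + t ^ 2))) * x ^ 2 = 0) ∪ (Finset.univ.filter fun x : K =>
      1 + η * (1 - t ^ 2) * x ^ 2 = 0))) := ⟨_, rfl⟩
  have hBc : B.card ≤ 7 := by
    rw [hB]
    refine (Finset.card_union_le _ _).trans ?_
    have h4 := Finset.card_union_le (Finset.univ.filter fun x : K =>
      1 + η * (t ^ 2 - 1) * x ^ 2 = 0) ((Finset.univ.filter fun x : K =>
      1 + (-(η * (1 + t ^ 2))) * x ^ 2 = 0) ∪ (Finset.univ.filter fun x : K =>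
      1 + η * (1 - t ^ 2) * x ^ 2 = 0))
    have h5 := Finset.card_union_le (Finset.univ.filter fun x : K =>
      1 + (-(η * (1 + t ^ 2))) * x ^ 2 = 0) (Finset.univ.filter fun x : K =>
      1 + η * (1 - t ^ 2) * x ^ 2 = 0)
    have h6 := ChB_quad (η * (t ^ 2 - 1))
    have h7 := ChB_quad (-(η * (1 + t ^ 2)))
    have h8 := ChB_quad (η * (1 - t ^ 2))
    rw [Finset.card_singleton]
    omega
  have h4 : (Finset.univ.filter fun x => ∀ b, quadraticChar K ((fp η i t b).eval x) = e b) ⊆
      (Finset.univ.filter fun x => GdP η t x) ∪ B := by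
    intro x hx
    have hx' := (Finset.mem_filter.1 hx).2
    by_cases hxB : x ∈ B
    · exact Finset.mem_union_right _ hxB
    · refine Finset.mem_union_left _ (Finset.mem_filter.2 ⟨Finset.mem_univ _, ?_⟩)
      rw [hB, Finset.mem_union, Finset.mem_union, Finset.mem_union, Finset.mem_singleton,
        Finset.mem_filter, Finset.mem_filter, Finset.mem_filter] at hxB
      push Not at hxB
      obtain ⟨hx0, g1, g2, g3⟩ := hxB
      have g1' := g1 (Finset.mem_univ _)
      have g2' := g2 (Finset.mem_univ _)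
      have g3' := g3 (Finset.mem_univ _)
      obtain ⟨v0, v1, v2, v3, v4, v5⟩ := fp_eval η i t x hi
      have sq : ∀ b : Fin 6, e b = 1 → IsSquare ((fp η i t b).eval x) ∧ (fp η i t b).eval x ≠ 0 := by
        intro b hb
        have h5 := hx' b
        rw [hb] at h5
        have h6 : (fp η i t b).eval x ≠ 0 := by
          intro h7
          rw [h7, quadraticChar_zero] at h5
          exact zero_ne_one h5
        exact ⟨(quadraticChar_one_iff_isSquare h6).1 h5, h6⟩
      have s0 := sq 0 (by rw [he]; rfl)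
      have s1 := sq 1 (by rw [he]; rfl)
      have s2 := sq 2 (by rw [he]; rfl)
      have s3 := sq 3 (by rw [he]; rfl)
      have s4 := sq 4 (by rw [he]; rfl)
      have s5 : ¬ IsSquare ((fp η i t 5).eval x) := by
        have h5 := hx' 5
        have h6 : e 5 = -1 := by rw [he]; rfl
        rw [h6] at h5
        exact quadraticChar_neg_one_iff_not_isSquare.1 h5
      rw [v0] at s0
      rw [v1] at s1
      rw [v2] at s2
      rw [v3] at s3
      rw [v4] at s4
      rw [v5] at s5
      refine GdP_of η i t x hη hi h2 ht hx0 s0.1 s0.2 s1.1 s1.2 s2.1 s2.2 s3.1 s3.2 s4.1 s4.2 s5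
        g1' ?_ g3'
      intro h5
      apply g2'
      rw [← h5]
      ring
  have h5 := Finset.card_le_card h4
  have h6 := Finset.card_union_le (Finset.univ.filter fun x => GdP η t x) B
  omega

end Pool.Agent.H42.PL
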