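import Pool.Agent.H42.PL.Defs

/-!
# PL.Sqr : elements of `F` are squares in `K`

PROOF. `Q = |K| = q ^ n` (`Module.natCard_eq_pow_finrank` or `Module.card_eq_pow_finrank`), `n` even. `a ∈ F*`: `a ^ ((Q - 1) / 2) = (a ^ (q - 1)) ^ (e / 2) = 1`, `e = (Q - 1) / (q - 1) = 1 + q + ... + q ^ (n - 1)` even (`n` even, `q` odd); `FiniteField.isSquare_iff` (`ringChar K ≠ 2`). Or: `F` has
an element `b` which is not a square in `F`; `K` contains the field with `q ^ 2` elements; ... The first way is elementary: `Q - 1 = (q ^ 2 - 1) * k` (`n = 2 m`), `(Q - 1) / 2 = (q - 1) * ((q + 1) / 2 * k)`.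
`two_ne`: `|F|` odd, so `2 ≠ 0` in `F` (otherwise `x ↦ x + 1` is an involution without fixed points; `FiniteField.even_card_of_char_two`, `ringChar`).
-/

set_option autoImplicit false

namespace Pool.Agent.H42.PL

open Module Pool.Agent.H32.UD

variable (F : Type) (K : Type) [Field F] [Field K] [Algebra F K] [Finite F] [Finite K]

omit [Field K] [Algebra F K] [Finite K] in
theorem two_ne_F (hodd : Odd (Nat.card F)) : (2 : F) ≠ 0 := by
  intro h
  haveI : Fintype F := Fintype.ofFinite F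
  have h1 : ringChar F = 2 := CharP.ringChar_of_prime_eq_zero Nat.prime_two (by exact_mod_cast h)
  have h2 := FiniteField.even_card_of_char_two h1
  rw [Nat.card_eq_fintype_card] at hodd
  rw [Nat.odd_iff] at hodd
  omega

theorem two_ne_K (hodd : Odd (Nat.card F)) : (2 : K) ≠ 0 := by
  intro h
  apply two_ne_F F hodd
  apply (algebraMap F K).injective
  rw [map_ofNat, map_zero]
  exact h

theorem exists_sqrt (hodd : Odd (Nat.card F)) (hn : Even (finrank F K)) (a : F) :
    ∃ r : K, r ^ 2 = algebraMap F K a := by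
  rcases eq_or_ne a 0 with ha | ha
  · exact ⟨0, by rw [ha]; simp⟩
  haveI : Fintype F := Fintype.ofFinite F
  haveI : Fintype K := Fintype.ofFinite K
  have h2K := two_ne_K F K hodd
  have hc : ringChar K ≠ 2 := by
    intro h
    apply h2K
    have := ringChar.Nat.cast_ringChar (R := K)
    rw [h] at this
    exact_mod_cast this
  have haK : algebraMap F K a ≠ 0 := by
    intro h
    exact ha ((map_eq_zero _).mp h)
  have hcard : Fintype.card K = Nat.card F ^ finrank F K := by
    rw [← Nat.card_eq_fintype_card, Module.natCard_eq_pow_finrank (K := F)]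
  obtain ⟨m, hm⟩ := hn
  obtain ⟨s, hs⟩ := hodd
  have hdvd : (Nat.card F ^ 2 - 1) ∣ (Nat.card F ^ 2) ^ m - 1 := by
    have := Nat.sub_dvd_pow_sub_pow (Nat.card F ^ 2) 1 m
    rwa [one_pow] at this
  obtain ⟨t, ht⟩ := hdvd
  have h1 : Fintype.card K / 2 = (Nat.card F - 1) * ((s + 1) * t) := by
    rw [hcard, hm, ← two_mul, pow_mul]
    have hpos : 1 ≤ (Nat.card F ^ 2) ^ m := Nat.one_le_pow _ _ (by rw [hs]; positivity)
    have h3 : (Nat.card F ^ 2) ^ m = (Nat.card F ^ 2 - 1) * t + 1 := by omega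
    have h4 : Nat.card F ^ 2 - 1 = 2 * (2 * s * (s + 1)) := by
      rw [hs]
      have : (2 * s + 1) ^ 2 = 2 * (2 * s * (s + 1)) + 1 := by ring
      omega
    rw [h3, h4]
    have h5 : 2 * (2 * s * (s + 1)) * t + 1 = 2 * (2 * s * (s + 1) * t) + 1 := by ring
    rw [h5]
    have h6 : (2 * (2 * s * (s + 1) * t) + 1) / 2 = 2 * s * (s + 1) * t := by omega
    rw [h6, hs]
    have h7 : 2 * s + 1 - 1 = 2 * s := by omega
    rw [h7]
    ring
  have h8 : a ^ (Nat.card F - 1) = 1 := by
    rw [Nat.card_eq_fintype_card]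
    exact FiniteField.pow_card_sub_one_eq_one a ha
  have h9 : IsSquare (algebraMap F K a) := by
    rw [FiniteField.isSquare_iff hc haK, h1, pow_mul, ← map_pow, h8, map_one, one_pow]
  obtain ⟨r, hr⟩ := h9
  exact ⟨r, by rw [hr, pow_two]⟩

theorem exists_i (hodd : Odd (Nat.card F)) (hn : Even (finrank F K)) : ∃ i : K, i ^ 2 = -1 := by
  obtain ⟨r, hr⟩ := exists_sqrt F K hodd hn (-1)
  exact ⟨r, by rw [hr]; simp⟩

theorem exists_r (hodd : Odd (Nat.card F)) (hn : Even (finrank F K)) : ∃ r : K, r ^ 2 = 2 := by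
  obtain ⟨r, hr⟩ := exists_sqrt F K hodd hn 2
  exact ⟨r, by rw [hr, map_ofNat]⟩

theorem card_K : Nat.card K = Nat.card F ^ finrank F K := by
  exact Module.natCard_eq_pow_finrank (K := F)

end Pool.Agent.H42.PL
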