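import Pool.Agent.H42.PL.BdA
import Pool.Agent.H42.PL.ChB
import Pool.Agent.H42.PL.Sqr

/-!
# PL.BdB : the pair `(x, x')`

PROOF. `card_al`: with `α = aq i k x 0`, `N = NN η t x`, `f = fq i k x = α² - N_i N_k N²` and the same for `x'`: `α² N'² - α'² N² = f N'² - f' N²`, a polynomial in `x'` of degree at most four; at `x' = 0` its value is `4 η³ x² (..) * (-1) = f 0 0 x ≠ 0` for `i = k` (`f i i 0 = 0` and `f i i x ≠ 0` as it is not a square) and
`f i k x - f i k 0 * N² = 4 η² x²`, `4 η² t² x²`, `4 η⁴ t² x⁴` for `i ≠ k` (`fq_formula`, `NN η t 0 = 1`), which is nonzero. So there are at most four `x'` (a polynomial of degree at most four: use `Polynomial` or the formulas of `fq_formula`, `al_formula`).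
`exists_pair`: `q0 = n * 2 ^ 54` (+ anything). Let `Q = q ^ n`, `S = {x | GdP η t x}`, `Q ≤ 256 |S|` (`card_GdP`, `Q ≥ q ≥ 2 ^ 30`). Suppose no pair in `S × S` is good. Then `S × S` is covered by the sets of `card_bad` for `1 ≤ c < n` and `pr, qr : Fin 4 → Fin 2 → Fin 4` (`2 ^ 16` functions each) and the sets of `card_al` for nine `(i, k)`:
`Q² ≤ 2 ^ 16 |S|² ≤ 2 ^ 16 (n * 2 ^ 32 * 16 (1 + Q / q) Q + 36 Q) ≤ 2 ^ 16 (n 2 ^ 37 + 36) Q² / q < Q²` for `q ≥ n 2 ^ 54` (`q ^ c ≤ q ^ (n - 1)`, `q * q ^ (n - 1) = Q`, `1 ≤ q ^ (n - 1)`; `9 ≤ q ≤ q ^ c`). (Multiply by `q` to avoid division.)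
-/

set_option autoImplicit false

namespace Pool.Agent.H42.PL

open Module Pool.Agent.H32.UD

private theorem BdB_quartic {K : Type} [Field K] [Finite K] (A B C' : K) (hA : A ≠ 0) :
    Nat.card {x : K // A + B * x ^ 2 + C' * x ^ 4 = 0} ≤ 4 := by
  classical
  obtain ⟨p, hp⟩ : ∃ p : Polynomial K, p = Polynomial.C A + Polynomial.C B * Polynomial.X ^ 2 +
    Polynomial.C C' * Polynomial.X ^ 4 := ⟨_, rfl⟩
  have h0 : p ≠ 0 := by
    intro h
    have h1 : p.eval 0 = A := by rw [hp]; simp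
    rw [h, Polynomial.eval_zero] at h1
    exact hA h1.symm
  have hd : p.natDegree ≤ 4 := by
    rw [hp]
    compute_degree
  have hinj : Function.Injective (fun z : {x : K // A + B * x ^ 2 + C' * x ^ 4 = 0} =>
      (⟨z.1, by
        rw [Multiset.mem_toFinset, Polynomial.mem_roots h0, Polynomial.IsRoot.def, hp]
        simpa using z.2⟩ : {x : K // x ∈ p.roots.toFinset})) := by
    intro z w h
    exact Subtype.ext (congrArg (fun y : {x : K // x ∈ p.roots.toFinset} => y.1) h)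
  have h1 := Nat.card_le_card_of_injective _ hinj
  have h2 : Nat.card {x : K // x ∈ p.roots.toFinset} = p.roots.toFinset.card := by
    rw [Nat.card_eq_fintype_card, Fintype.card_coe]
  rw [h2] at h1
  exact h1.trans ((Multiset.toFinset_card_le _).trans ((Polynomial.card_roots' p).trans hd))

private theorem BdB_f1 {K : Type} [Field K] (f : K → K) (u w : K) (h : ∀ y, f y = u + w * y ^ 2) :
    ∃ v w' : K, ∀ y, (f y) ^ 2 = (f 0) ^ 2 + v * y ^ 2 + w' * y ^ 4 :=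
  ⟨2 * u * w, w ^ 2, fun y => by rw [h y, h 0]; ring⟩

private theorem BdB_f2 {K : Type} [Field K] (f : K → K) (w : K) (h : ∀ y, f y = w * y) :
    ∃ v w' : K, ∀ y, (f y) ^ 2 = (f 0) ^ 2 + v * y ^ 2 + w' * y ^ 4 :=
  ⟨w ^ 2, 0, fun y => by rw [h y, h 0]; ring⟩

private theorem BdB_form {K : Type} [Field K] (η t : K) : ∀ a b : Fin 3,
    ∃ v w : K, ∀ y : K, (aq η t a b y 0) ^ 2 = (aq η t a b 0 0) ^ 2 + v * y ^ 2 + w * y ^ 4
  | 0, 0 => BdB_f1 (fun y => aq η t 0 0 y 0) η (η * (η * (t ^ 2 - 1)))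
      fun y => ((al_formula η t y).1).trans (by ring)
  | 0, 1 => BdB_f2 (fun y => aq η t 0 1 y 0) (-(2 * η))
      fun y => ((al_formula η t y).2.2.2.1).trans (by ring)
  | 0, 2 => BdB_f1 (fun y => aq η t 0 2 y 0) 0 (-(2 * η ^ 2 * t))
      fun y => ((al_formula η t y).2.2.2.2.2.2.2.1).trans (by ring)
  | 1, 0 => BdB_f2 (fun y => aq η t 1 0 y 0) (-(2 * η))
      fun y => ((al_formula η t y).2.2.2.2.1).trans (by ring)
  | 1, 1 => BdB_f1 (fun y => aq η t 1 1 y 0) (-1) (η * (1 + t ^ 2))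
      fun y => ((al_formula η t y).2.1).trans (by ring)
  | 1, 2 => BdB_f2 (fun y => aq η t 1 2 y 0) (-(2 * η * t))
      fun y => ((al_formula η t y).2.2.2.2.2.1).trans (by ring)
  | 2, 0 => BdB_f1 (fun y => aq η t 2 0 y 0) 0 (-(2 * η ^ 2 * t))
      fun y => ((al_formula η t y).2.2.2.2.2.2.2.2).trans (by ring)
  | 2, 1 => BdB_f2 (fun y => aq η t 2 1 y 0) (-(2 * η * t))
      fun y => ((al_formula η t y).2.2.2.2.2.2.1).trans (by ring)
  | 2, 2 => BdB_f1 (fun y => aq η t 2 2 y 0) η (η * (η * (1 - t ^ 2)))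
      fun y => ((al_formula η t y).2.2.1).trans (by ring)

private theorem BdB_off {K : Type} [Field K] {η t x : K} (hx : GdP η t x) (a b : Fin 3)
    (h : aq η t a b 0 0 = 0) :
    (aq η t a b x 0) ^ 2 - (aq η t a b 0 0) ^ 2 * NN η t x ^ 2 ≠ 0 := by
  rw [h, zero_pow two_ne_zero, zero_mul, sub_zero]
  exact pow_ne_zero 2 (hx.al_ne a b)

private theorem BdB_ne {K : Type} [Field K] (η t x : K) (hx : GdP η t x) : ∀ a b : Fin 3,
    (aq η t a b x 0) ^ 2 - (aq η t a b 0 0) ^ 2 * NN η t x ^ 2 ≠ 0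
  | 0, 0 => by
      intro h
      apply hx.nsq 0 0
      have h2 := (al_formula η t 0).1
      have h3 : fq η t 0 0 x = 0 := by
        rw [← h, h2]
        show (aq η t 0 0 x 0) ^ 2 - η * η * NN η t x ^ 2 = _
        ring
      rw [h3]
      exact ⟨0, by ring⟩
  | 1, 1 => by
      intro h
      apply hx.nsq 1 1
      have h2 := (al_formula η t 0).2.1
      have h3 : fq η t 1 1 x = 0 := by
        rw [← h, h2]
        show (aq η t 1 1 x 0) ^ 2 - 1 * 1 * NN η t x ^ 2 = _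
        ring
      rw [h3]
      exact ⟨0, by ring⟩
  | 2, 2 => by
      intro h
      apply hx.nsq 2 2
      have h2 := (al_formula η t 0).2.2.1
      have h3 : fq η t 2 2 x = 0 := by
        rw [← h, h2]
        show (aq η t 2 2 x 0) ^ 2 - η * η * NN η t x ^ 2 = _
        ring
      rw [h3]
      exact ⟨0, by ring⟩
  | 0, 1 => BdB_off hx 0 1 (((al_formula η t 0).2.2.2.1).trans (by ring))
  | 0, 2 => BdB_off hx 0 2 (((al_formula η t 0).2.2.2.2.2.2.2.1).trans (by ring))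
  | 1, 0 => BdB_off hx 1 0 (((al_formula η t 0).2.2.2.2.1).trans (by ring))
  | 1, 2 => BdB_off hx 1 2 (((al_formula η t 0).2.2.2.2.2.1).trans (by ring))
  | 2, 0 => BdB_off hx 2 0 (((al_formula η t 0).2.2.2.2.2.2.2.2).trans (by ring))
  | 2, 1 => BdB_off hx 2 1 (((al_formula η t 0).2.2.2.2.2.2.1).trans (by ring))

theorem card_al {K : Type} [Field K] [Finite K] (η i t x : K) (h2 : (2 : K) ≠ 0) (hη : η ≠ 0) (ht : GdT i t)
    (hx : GdP η t x) (a b : Fin 3) :
    Nat.card {x' : K // (aq η t a b x 0) ^ 2 * NN η t x' ^ 2 = (aq η t a b x' 0) ^ 2 * NN η t x ^ 2} ≤ 4 := by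
  obtain ⟨v, w, hv⟩ := BdB_form η t a b
  have h1 := BdB_ne η t x hx a b
  set A := (aq η t a b x 0) ^ 2 with hA
  set U := (aq η t a b 0 0) ^ 2 with hU
  set M := NN η t x ^ 2 with hM
  refine le_trans (le_of_eq (Nat.card_congr (Equiv.subtypeEquivRight fun x' => ?_)))
    (BdB_quartic (A - U * M) (2 * (η * (1 + t ^ 2)) * A - v * M)
      ((η * (1 + t ^ 2)) ^ 2 * A - w * M) h1)
  rw [hv x', NN]
  constructor
  · intro h
    linear_combination h
  · intro h
    linear_combination h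

/-- the conditions on the pair -/
structure GdQ (F : Type) {K : Type} [Field F] [Field K] [Algebra F K] [Finite F] [Finite K] (η t x x' : K) : Prop where
  gx : GdP η t x
  gx' : GdP η t x'
  ne : ∀ i k : Fin 3, (aq η t i k x 0) ^ 2 * NN η t x' ^ 2 ≠ (aq η t i k x' 0) ^ 2 * NN η t x ^ 2
  det : ∀ c : ℕ, c ≠ 0 → c < finrank F K → ∀ pr qr : Fin 4 → Fin 2 → Fin 4, (∀ l, Function.Injective (pr l)) →
    (∀ l, Function.Injective (qr l)) →
    (Kd pr qr (Mx η t x x') ((Mx η t x x').map (fr F K ^ c : K ≃ₐ[F] K))).det ≠ 0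

private theorem BdB_W0 (α : Type) [Fintype α] :
    ∃ W : Finset α, (∀ w, w ∈ W) ∧ W.card = Fintype.card α :=
  ⟨Finset.univ, fun w => Finset.mem_univ w, rfl⟩

private theorem BdB_W : ∃ W : Finset ((Fin 4 → Fin 2 → Fin 4) × (Fin 4 → Fin 2 → Fin 4)),
      (∀ w, w ∈ W) ∧ W.card = 2 ^ 32 := by
  have h : Fintype.card ((Fin 4 → Fin 2 → Fin 4) × (Fin 4 → Fin 2 → Fin 4)) = 2 ^ 32 := by
    simp only [Fintype.card_prod, Fintype.card_fun, Fintype.card_fin]
    norm_num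
  obtain ⟨W, h1, h2⟩ := BdB_W0 ((Fin 4 → Fin 2 → Fin 4) × (Fin 4 → Fin 2 → Fin 4))
  exact ⟨W, h1, h2.trans h⟩

theorem exists_pair (n : ℕ) : ∃ q0 : ℕ, ∀ (F K : Type) [Field F] [Field K] [Algebra F K] [Finite F] [Finite K],
    finrank F K = n → 0 < n → Odd (Nat.card F) → q0 ≤ Nat.card F → ∀ η i t : K, ¬ IsSquare η → i ^ 2 = -1 →
    GdT i t → ∃ x x' : K, GdQ F η t x x' := by
  classical
  refine ⟨n * 2 ^ 54 + 2 ^ 30, ?_⟩
  intro F K _ _ _ _ _ hn hn0 hodd hq η i t hη hi ht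
  have : Fintype K := Fintype.ofFinite K
  by_contra hcon
  have h2 : (2 : K) ≠ 0 := two_ne_K F K hodd
  have hη0 : η ≠ 0 := fun h => hη ⟨0, by rw [h]; ring⟩
  obtain ⟨q, hqd⟩ : ∃ q, q = Nat.card F := ⟨_, rfl⟩
  obtain ⟨Q, hQd⟩ : ∃ Q, Q = Nat.card K := ⟨_, rfl⟩
  obtain ⟨A, hAd⟩ : ∃ A, A = q ^ (n - 1) := ⟨_, rfl⟩
  have hqQ : Q = q * A := by
    rw [hQd, card_K F K, hn, ← hqd, hAd, ← pow_succ']
    congr 1
    omega
  rw [← hqd] at hq hodd
  have hq1 : 1 ≤ q := le_trans (by norm_num) ((Nat.le_add_left (2 ^ 30) _).trans hq)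
  have hA1 : 1 ≤ A := by rw [hAd]; exact Nat.one_le_pow _ _ hq1
  have hq30 : 2 ^ 30 ≤ q := (Nat.le_add_left (2 ^ 30) _).trans hq
  have hQ30 : 2 ^ 30 ≤ Nat.card K := by
    rw [← hQd, hqQ]
    exact hq30.trans (Nat.le_mul_of_pos_right q hA1)
  have hS := card_GdP η i t hη hi h2 ht hQ30
  obtain ⟨S, hSd⟩ : ∃ S : Finset K, S = Finset.univ.filter fun x => GdP η t x := ⟨_, rfl⟩
  have hSc : Nat.card {x : K // GdP η t x} = S.card := by
    rw [Nat.card_eq_fintype_card, Fintype.card_subtype, hSd]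
  rw [hSc, ← hQd] at hS
  have hSQ : S.card ≤ Q := by
    rw [hQd, Nat.card_eq_fintype_card]
    exact Finset.card_le_univ S
  have hmS : ∀ x, x ∈ S ↔ GdP η t x := fun x => by rw [hSd, Finset.mem_filter]; simp
  -- the bad sets
  let Bd : ℕ × (Fin 4 → Fin 2 → Fin 4) × (Fin 4 → Fin 2 → Fin 4) → Finset (K × K) := fun u =>
    if (∀ l, Function.Injective (u.2.1 l)) ∧ (∀ l, Function.Injective (u.2.2 l)) then
      Finset.univ.filter fun z : K × K =>
        (Kd u.2.1 u.2.2 (Mx η t z.1 z.2) ((Mx η t z.1 z.2).map (fr F K ^ u.1 : K ≃ₐ[F] K))).det = 0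
    else ∅
  let Al : Fin 3 × Fin 3 → Finset (K × K) := fun u =>
    S.biUnion fun x => (Finset.univ.filter fun x' : K =>
      (aq η t u.1 u.2 x 0) ^ 2 * NN η t x' ^ 2 = (aq η t u.1 u.2 x' 0) ^ 2 * NN η t x ^ 2).image
        fun x' => (x, x')
  obtain ⟨W, hW, hWc⟩ : ∃ W : Finset ((Fin 4 → Fin 2 → Fin 4) × (Fin 4 → Fin 2 → Fin 4)),
      (∀ w, w ∈ W) ∧ W.card = 2 ^ 32 := BdB_W
  obtain ⟨I, hI⟩ : ∃ I : Finset (ℕ × (Fin 4 → Fin 2 → Fin 4) × (Fin 4 → Fin 2 → Fin 4)),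
    I = (Finset.Ico 1 n) ×ˢ W := ⟨_, rfl⟩
  have hcov : S ×ˢ S ⊆ I.biUnion Bd ∪ (Finset.univ : Finset (Fin 3 × Fin 3)).biUnion Al := by
    rintro ⟨x, x'⟩ hz
    rw [Finset.mem_product] at hz
    have gx := (hmS x).1 hz.1
    have gx' := (hmS x').1 hz.2
    by_contra hnot
    rw [Finset.mem_union, not_or] at hnot
    apply hcon
    refine ⟨x, x', gx, gx', ?_, ?_⟩
    · intro a b hab
      apply hnot.2
      rw [Finset.mem_biUnion]
      refine ⟨(a, b), Finset.mem_univ _, ?_⟩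
      rw [Finset.mem_biUnion]
      refine ⟨x, hz.1, ?_⟩
      rw [Finset.mem_image]
      exact ⟨x', by rw [Finset.mem_filter]; exact ⟨Finset.mem_univ _, hab⟩, rfl⟩
    · intro c hc0 hcn pr qr hp hqr hdet
      apply hnot.1
      rw [Finset.mem_biUnion]
      refine ⟨(c, pr, qr), ?_, ?_⟩
      · rw [hI, Finset.mem_product, Finset.mem_Ico]
        exact ⟨⟨Nat.one_le_iff_ne_zero.2 hc0, by rw [← hn]; exact hcn⟩, hW _⟩
      · show (x, x') ∈ (if (∀ l, Function.Injective (pr l)) ∧ (∀ l, Function.Injective (qr l)) then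
          Finset.univ.filter fun z : K × K =>
            (Kd pr qr (Mx η t z.1 z.2) ((Mx η t z.1 z.2).map (fr F K ^ c : K ≃ₐ[F] K))).det = 0
          else ∅)
        rw [if_pos ⟨hp, hqr⟩, Finset.mem_filter]
        exact ⟨Finset.mem_univ _, hdet⟩
  have hBd : ∀ u ∈ I, (Bd u).card ≤ 16 * (1 + A) * Q := by
    rintro ⟨c, pr, qr⟩ hu
    rw [hI, Finset.mem_product, Finset.mem_Ico] at hu
    obtain ⟨⟨hc1, hcn⟩, -⟩ := hu
    show (if (∀ l, Function.Injective (pr l)) ∧ (∀ l, Function.Injective (qr l)) then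
          Finset.univ.filter fun z : K × K =>
            (Kd pr qr (Mx η t z.1 z.2) ((Mx η t z.1 z.2).map (fr F K ^ c : K ≃ₐ[F] K))).det = 0
          else ∅).card ≤ _
    split_ifs with hpq
    · have hqc : q ≤ q ^ c := Nat.le_self_pow (by omega) q
      have hc9 : 9 ≤ Nat.card F ^ c := by
        rw [← hqd]
        exact le_trans (by norm_num) (hq30.trans hqc)
      have h3 := card_bad F η i t hη hi ht c hc9 pr qr hpq.1 hpq.2
      rw [Nat.card_eq_fintype_card, Fintype.card_subtype, ← hqd, ← hQd] at h3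
      refine h3.trans (Nat.mul_le_mul_right _ (Nat.mul_le_mul_left _ (Nat.add_le_add_left ?_ _)))
      rw [hAd]
      exact Nat.pow_le_pow_right hq1 (by omega)
    · rw [Finset.card_empty]
      exact Nat.zero_le _
  have hAl : ∀ u ∈ (Finset.univ : Finset (Fin 3 × Fin 3)), (Al u).card ≤ S.card * 4 := by
    rintro ⟨a, b⟩ -
    refine Finset.card_biUnion_le_card_mul _ _ _ fun x hx => ?_
    refine Finset.card_image_le.trans ?_
    have h3 := card_al η i t x h2 hη0 ht ((hmS x).1 hx) a b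
    rw [Nat.card_eq_fintype_card, Fintype.card_subtype] at h3
    exact h3
  have hIc : I.card ≤ n * 2 ^ 32 := by
    rw [hI, Finset.card_product, Nat.card_Ico, hWc]
    exact Nat.mul_le_mul_right _ (Nat.sub_le _ _)
  have hcount : S.card * S.card ≤ n * 2 ^ 32 * (16 * (1 + A) * Q) + 9 * (S.card * 4) := by
    calc S.card * S.card = (S ×ˢ S).card := (Finset.card_product S S).symm
      _ ≤ (I.biUnion Bd ∪ (Finset.univ : Finset (Fin 3 × Fin 3)).biUnion Al).card :=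
          Finset.card_le_card hcov
      _ ≤ (I.biUnion Bd).card + ((Finset.univ : Finset (Fin 3 × Fin 3)).biUnion Al).card :=
          Finset.card_union_le _ _
      _ ≤ I.card * (16 * (1 + A) * Q) +
          (Finset.univ : Finset (Fin 3 × Fin 3)).card * (S.card * 4) :=
          Nat.add_le_add (Finset.card_biUnion_le_card_mul _ _ _ hBd)
            (Finset.card_biUnion_le_card_mul _ _ _ hAl)
      _ ≤ _ := Nat.add_le_add (Nat.mul_le_mul_right _ hIc) (le_of_eq (by simp))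
  have hQ1 : 1 ≤ Q := by
    rw [hqQ]
    exact Nat.mul_pos hq1 hA1
  -- the final inequality
  have f1 : S.card * S.card ≤ (n * 2 ^ 37 + 36) * (A * Q) := by
    have g1 : n * 2 ^ 32 * (16 * (1 + A) * Q) ≤ n * 2 ^ 37 * (A * Q) := by
      calc n * 2 ^ 32 * (16 * (1 + A) * Q) ≤ n * 2 ^ 32 * (16 * (A + A) * Q) :=
            Nat.mul_le_mul_left _ (Nat.mul_le_mul_right _ (Nat.mul_le_mul_left _
              (Nat.add_le_add_right hA1 _)))
        _ = n * 2 ^ 37 * (A * Q) := by ring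
    have g2 : 9 * (S.card * 4) ≤ 36 * (A * Q) := by
      calc 9 * (S.card * 4) = 36 * (1 * S.card) := by ring
        _ ≤ 36 * (A * Q) := Nat.mul_le_mul_left _ (Nat.mul_le_mul hA1 hSQ)
    calc S.card * S.card ≤ _ := hcount
      _ ≤ n * 2 ^ 37 * (A * Q) + 36 * (A * Q) := Nat.add_le_add g1 g2
      _ = _ := by ring
  have f2 : q * (A * Q) ≤ 2 ^ 16 * (n * 2 ^ 37 + 36) * (A * Q) := by
    calc q * (A * Q) = Q * Q := by rw [hqQ]; ring
      _ ≤ (256 * S.card) * (256 * S.card) := Nat.mul_le_mul hS hS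
      _ = 2 ^ 16 * (S.card * S.card) := by ring
      _ ≤ 2 ^ 16 * ((n * 2 ^ 37 + 36) * (A * Q)) := Nat.mul_le_mul_left _ f1
      _ = _ := by ring
  have f3 : q ≤ 2 ^ 16 * (n * 2 ^ 37 + 36) := Nat.le_of_mul_le_mul_right f2 (Nat.mul_pos hA1 hQ1)
  norm_num at f3 hq
  omega

end Pool.Agent.H42.PL
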