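import Pool.Agent.H42.PL.SupK
import Pool.Agent.H42.PL.BdB

/-!
# PL.Van : the coefficients at `c ≠ 0` vanish

PROOF. `g` is an involution: `g (g y) = κ² N N' y` (`Mx_sq`) and `κ² N N' = 1` by `hκ`, so `g⁻¹ = g` (`inv_eq_of_mul_eq_one_left`), and with `G = κ • Mx η t x x'`: `(g⁻¹ * y * g) v = G.mulVec (ev F a (G.mulVec v)) = ev F (fun c => G * a c * G.map (fr ^ c)) v` (`ev_left`, `ev_right`).
Let `c ≠ 0`, `z = a c`. `Nrm_two` for `y`: injective `pr l` with `z m l ≠ 0 → m = pr l 0 ∨ m = pr l 1`. `Nrm_two'` for `g⁻¹ y g`: injective `qr l` with `(G * z * G.map φ) (qr l i) l = 0`, `φ = fr ^ c`; `G.map φ = φ κ • (Mx ..).map φ`, `κ ≠ 0`, `φ κ ≠ 0`, so `(M * z * M.map φ) (qr l i) l = 0` for `M = Mx η t x x'`.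
Let `w (b, i) = z (pr b i) b`: then `(Kd pr qr M (M.map φ)).mulVec w (l, i) = ∑_{b, j} M (qr l i) (pr b j) * (M.map φ) b l * z (pr b j) b = (M * z * M.map φ) (qr l i) l = 0` (the sum over all rows `a` of `z a b` reduces to the two rows `pr b 0 ≠ pr b 1`). As the determinant is not zero `w = 0` (`Matrix.eq_zero_of_mulVec_eq_zero`), so `z = 0`.
-/

set_option autoImplicit false

namespace Pool.Agent.H42.PL

open Module Pool.Agent.H32.UD

theorem mat_zero {K : Type} [Field K] (pr qr : Fin 4 → Fin 2 → Fin 4) (hp : ∀ l, Function.Injective (pr l))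
    (M M' z : Matrix (Fin 4) (Fin 4) K) (hdet : (Kd pr qr M M').det ≠ 0)
    (hz : ∀ m l, z m l ≠ 0 → m = pr l 0 ∨ m = pr l 1) (hz' : ∀ l i, (M * z * M') (qr l i) l = 0) : z = 0 := by
  have hs : ∀ (b : Fin 4) (f : Fin 4 → K), (∀ m, z m b = 0 → f m = 0) → ∑ m, f m = ∑ j, f (pr b j) := by
    intro b f hf
    rw [← Finset.sum_image (f := f) (s := Finset.univ) (g := pr b) (fun x _ y _ h => hp b h)]
    symm
    apply Finset.sum_subset (Finset.subset_univ _)
    intro m _ hm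
    apply hf
    by_contra h
    apply hm
    rcases hz m b h with h1 | h1
    · exact Finset.mem_image.2 ⟨0, Finset.mem_univ _, h1.symm⟩
    · exact Finset.mem_image.2 ⟨1, Finset.mem_univ _, h1.symm⟩
  have hw : (fun s : Fin 4 × Fin 2 => z (pr s.1 s.2) s.1) = 0 := by
    apply Matrix.eq_zero_of_mulVec_eq_zero hdet
    funext r
    obtain ⟨l, i⟩ := r
    have h1 := hz' l i
    simp only [Matrix.mul_apply] at h1
    change ∑ s : Fin 4 × Fin 2, Kd pr qr M M' (l, i) s * z (pr s.1 s.2) s.1 = 0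
    rw [Fintype.sum_prod_type, ← h1]
    refine Finset.sum_congr rfl fun b _ => ?_
    rw [hs b (fun m => M (qr l i) m * z m b) (fun m hm => by rw [hm, mul_zero]), Finset.sum_mul]
    refine Finset.sum_congr rfl fun j _ => ?_
    change M (qr l i) (pr b j) * M' b l * z (pr b j) b = M (qr l i) (pr b j) * z (pr b j) b * M' b l
    ring
  ext m b
  by_contra h
  have h' : z m b ≠ 0 := h
  apply h'
  rcases hz m b h' with h1 | h1
  · rw [h1]
    exact congrFun hw (b, 0)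
  · rw [h1]
    exact congrFun hw (b, 1)

variable (F : Type) {K : Type} [Field F] [Field K] [Algebra F K] [Finite F] [Finite K]

theorem coef_zero (h2 : (2 : K) ≠ 0) (η t x x' κ : K) (hκ : κ ^ 2 * (NN η t x * NN η t x') = 1)
    (hq : GdQ F η t x x') (g y : V4 K ≃ₗ[F] V4 K) (hg : ∀ v, g v = κ • (Mx η t x x').mulVec v)
    (hy : Nrm F y) (hy' : Nrm F (g⁻¹ * y * g)) (a : ℕ → Matrix (Fin 4) (Fin 4) K)
    (ha : ∀ v, y v = ev F a v) : ∀ c < finrank F K, c ≠ 0 → a c = 0 := by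
  intro c hc hc0
  have hκ0 : κ ≠ 0 := by
    intro h
    rw [h] at hκ
    simp at hκ
  have hgg : g * g = 1 := by
    ext1 v
    rw [LinearEquiv.mul_apply, hg, hg, Matrix.mulVec_smul, Mx_sq, smul_smul, smul_smul]
    have h1 : κ * κ * (NN η t x * NN η t x') = 1 := by
      linear_combination hκ
    rw [h1, one_smul]
    rfl
  have hinv : g⁻¹ = g := inv_eq_of_mul_eq_one_left hgg
  have hG : ∀ v, g v = (κ • Mx η t x x').mulVec v := by
    intro v
    rw [hg, Matrix.smul_mulVec]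
  have hb : ∀ v, (g⁻¹ * y * g) v = ev F (fun c => (κ • Mx η t x x') *
      (a c * (κ • Mx η t x x').map (fr F K ^ c : K ≃ₐ[F] K))) v := by
    intro v
    rw [hinv, LinearEquiv.mul_apply, LinearEquiv.mul_apply, hG, ha, hG v, ev_right, ev_left]
  obtain ⟨pr, hp, hz⟩ := Nrm_two F h2 y a ha hy c hc
  obtain ⟨qr, hqi, hz'⟩ := Nrm_two' F h2 (g⁻¹ * y * g) _ hb hy' c hc
  refine mat_zero pr qr hp (Mx η t x x') ((Mx η t x x').map (fr F K ^ c : K ≃ₐ[F] K)) (a c)
    (hq.det c hc0 hc pr qr hp hqi) hz ?_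
  intro l i
  have h1 := hz' l i
  have hmap : (κ • Mx η t x x').map (fr F K ^ c : K ≃ₐ[F] K) =
      ((fr F K ^ c) κ) • (Mx η t x x').map (fr F K ^ c : K ≃ₐ[F] K) := by
    ext m n
    rw [Matrix.map_apply, Matrix.smul_apply, Matrix.smul_apply, Matrix.map_apply, smul_eq_mul, smul_eq_mul,
      map_mul]
  have h3 : (κ • Mx η t x x') * (a c * (κ • Mx η t x x').map (fr F K ^ c : K ≃ₐ[F] K)) =
      (κ * (fr F K ^ c) κ) • (Mx η t x x' * a c * (Mx η t x x').map (fr F K ^ c : K ≃ₐ[F] K)) := by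
    rw [hmap, Matrix.mul_smul, Matrix.mul_smul, Matrix.smul_mul, smul_smul, Matrix.mul_assoc,
      mul_comm ((fr F K ^ c) κ)]
  have h4 : ((κ • Mx η t x x') * (a c * (κ • Mx η t x x').map (fr F K ^ c : K ≃ₐ[F] K))) (qr l i) l = 0 := h1
  rw [h3, Matrix.smul_apply, smul_eq_mul] at h4
  have h5 : κ * (fr F K ^ c) κ ≠ 0 := by
    refine mul_ne_zero hκ0 ?_
    intro h
    exact hκ0 ((map_eq_zero _).1 h)
  exact (mul_eq_zero.1 h4).resolve_left h5

end Pool.Agent.H42.PL
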