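import Pool.Agent.H42.PL.Jnc
import Pool.Agent.H42.PL.Cmm
import Pool.Agent.H42.PL.Van
import Pool.Agent.H42.PL.AbB
import Pool.Agent.H42.PL.Cfx
import Pool.Agent.H42.PL.Omg

/-!
# PL.Fin : the element `g`

PROOF. `i`, `r` from PL.Sqr, `t` from `exists_t`, `x`, `x'` from `exists_pair`, `c`, `c'` from `GdP.sq`, `κ = (c c')⁻¹`, `g` from `exists_gel`. Let `y ∈ ⁅OG, OG⁆` with `Nrm F y`, `Nrm F (g⁻¹ * y * g)`. `exists_cof`, `coef_zero`, `ev_zero`: `y v = A.mulVec v`. `bq_of_OG`: `A` preserves `bq`. `Nrm_Jd` for `y` gives `i`,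
and for `g⁻¹ * y * g` (`g⁻¹ = g`, matrix `G A G`, `G = κ • Mx η t x x'`) gives `k`: `A` commutes up to sign with `JL i` and with `gL * JL k * gL` (`gL * gL = 1`). `exists_cfg`, `Cfg.cases`: `y = ± 1`, or `y = ± d⁻¹ U`. The second is excluded by `omega_not` with `w2`, `D w2` (`eig_neg`, `orth2`, `nrm2`, `ne2`, `ns2`) for `+`, and `w1`, `D w1` for `-`.
-/

set_option autoImplicit false

namespace Pool.Agent.H42.PL

open Module Pool.Agent.H32.UD

/-- from the second case: `± d⁻¹ U` is not in the commutator subgroup -/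
private theorem fin_not (F : Type) {K : Type} [Field F] [Field K] [Algebra F K] [Finite F] [Finite K]
    (hodd : Odd (Nat.card F)) (η : K) {J J' U : Module.End K (V4 K)} {τ κ d : K} {w1 w2 : V4 K}
    (h : Cfg η J J' U τ κ d w1 w2) (y : V4 K ≃ₗ[F] V4 K) (hy : y ∈ OG F η)
    (hyU : (∀ v, y v = d⁻¹ • U v) ∨ (∀ v, y v = -(d⁻¹ • U v))) : y ∉ ⁅OG F η, OG F η⁆ := by
  have hd := h.d_ne
  have hUU : ∀ v, U (U v) = (d ^ 2) • v := fun v => by
    have := LinearMap.congr_fun h.U_sq v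
    simpa using this
  have hinv0 : ∀ v, d⁻¹ • U (d⁻¹ • U v) = v := fun v => by
    rw [map_smul, hUU, smul_smul, smul_smul]
    have : d⁻¹ * d⁻¹ * d ^ 2 = 1 := by field_simp
    rw [this, one_smul]
  have hsq : ∀ c s : K, c ≠ 0 → ¬ IsSquare s → ¬ IsSquare (c * (s * c)) := by
    intro c s hc hs ⟨e, he⟩
    apply hs
    refine ⟨e / c, ?_⟩
    field_simp
    linear_combination he
  rcases hyU with hyU | hyU
  · have hinv : ∀ v, y (y v) = v := fun v => by
      rw [hyU, hyU v]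
      exact hinv0 v
    refine omega_not F hodd η y hy hinv w2 ((J * J' - J' * J) w2) ?_ h.orth2 ?_
    · intro v
      rw [← h.eig_neg, hyU]
      constructor
      · intro hv
        have h1 : d • (d⁻¹ • U v) = d • (-v) := by rw [hv]
        rw [smul_smul, mul_inv_cancel₀ hd, one_smul, smul_neg] at h1
        exact h1
      · intro hv
        rw [hv, smul_neg, smul_smul, inv_mul_cancel₀ hd, one_smul]
    · rw [h.nrm2]
      exact hsq _ _ h.ne2 h.ns2
  · have hinv : ∀ v, y (y v) = v := fun v => by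
      rw [hyU, hyU v, map_neg, smul_neg, neg_neg]
      exact hinv0 v
    refine omega_not F hodd η y hy hinv w1 ((J * J' - J' * J) w1) ?_ h.orth1 ?_
    · intro v
      rw [← h.eig_pos, hyU, neg_inj]
      constructor
      · intro hv
        have h1 : d • (d⁻¹ • U v) = d • v := by rw [hv]
        rw [smul_smul, mul_inv_cancel₀ hd, one_smul] at h1
        exact h1
      · intro hv
        rw [hv, smul_smul, inv_mul_cancel₀ hd, one_smul]
    · rw [h.nrm1]
      exact hsq _ _ h.ne1 h.ns1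

theorem exists_g (n : ℕ) : ∃ q0 : ℕ, ∀ (F K : Type) [Field F] [Field K] [Algebra F K] [Finite F] [Finite K],
    finrank F K = n → Even n → 0 < n → Odd (Nat.card F) → q0 ≤ Nat.card F → ∀ η : K, ¬ IsSquare η →
    ∃ g ∈ ⁅OG F η, OG F η⁆, ∀ y ∈ ⁅OG F η, OG F η⁆, Nrm F y → Nrm F (g⁻¹ * y * g) →
      (∀ v, y v = v) ∨ (∀ v, y v = -v) := by
  obtain ⟨q0, hq0⟩ := exists_pair n
  refine ⟨max q0 200, ?_⟩
  intro F K _ _ _ _ _ hfin hn hn0 hodd hq η hη
  have h2F : (2 : F) ≠ 0 := two_ne_F F hodd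
  have h2 : (2 : K) ≠ 0 := two_ne_K F K hodd
  have hη0 : η ≠ 0 := by
    rintro rfl
    exact hη IsSquare.zero
  obtain ⟨i₀, hi₀⟩ := exists_i F K hodd (by rw [hfin]; exact hn)
  obtain ⟨r, hr⟩ := exists_r F K hodd (by rw [hfin]; exact hn)
  have hQ : 200 ≤ Nat.card K := by
    rw [card_K F K, hfin]
    exact ((le_max_right _ _).trans hq).trans (Nat.le_self_pow hn0.ne' _)
  obtain ⟨t, ht⟩ := exists_t i₀ hi₀ h2 hQ
  obtain ⟨x, x', hxx⟩ := hq0 F K hfin hn0 hodd ((le_max_left _ _).trans hq) η i₀ t hη hi₀ ht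
  obtain ⟨c, hc, hc2⟩ := hxx.gx.sq
  obtain ⟨c', hc', hc2'⟩ := hxx.gx'.sq
  have hs0 : 1 + t ^ 2 ≠ 0 := ht.ne 2
  obtain ⟨g, hg, hgv⟩ := exists_gel F h2 η t r x x' c c' hr hη0 hs0 hc hc2 hc' hc2'
  set κ : K := (c * c')⁻¹ with hκdef
  have hκ : κ ^ 2 * (NN η t x * NN η t x') = 1 := by
    rw [← hc2, ← hc2', hκdef]
    field_simp
  have hle : (⁅OG F η, OG F η⁆ : Subgroup (V4 K ≃ₗ[F] V4 K)) ≤ OG F η := Subgroup.commutator_le_self _
  have hn1 : 0 < finrank F K := by rw [hfin]; exact hn0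
  -- g is an involution
  have hgg : ∀ v, g (g v) = v := by
    intro v
    rw [hgv, hgv, Matrix.mulVec_smul, Mx_sq, smul_smul, smul_smul]
    have : κ * κ * (NN η t x * NN η t x') = 1 := by linear_combination hκ
    rw [this, one_smul]
  have hginv : ∀ v, (g⁻¹ : V4 K ≃ₗ[F] V4 K) v = g v := by
    intro v
    have h1 : (g⁻¹ : V4 K ≃ₗ[F] V4 K) (g (g v)) = g v := by
      rw [← LinearEquiv.mul_apply, inv_mul_cancel]
      rfl
    rwa [hgg] at h1
  refine ⟨g, hg, ?_⟩
  intro y hy hy1 hy2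
  obtain ⟨a, ha⟩ := exists_cof F (y : V4 K →ₗ[F] V4 K)
  have ha' : ∀ v, y v = ev F a v := ha
  have hc0 := coef_zero F h2 η t x x' κ hκ hxx g y hgv hy1 hy2 a ha'
  have hA : ∀ v, y v = (a 0).mulVec v := fun v => by
    rw [ha', ev_zero F (fun c hc h0 => hc0 c hc h0)]
  set A : Matrix (Fin 4) (Fin 4) K := a 0 with hAdef
  have hyO : y ∈ OG F η := hle hy
  have hbq := bq_of_OG F η y hyO A hA
  obtain ⟨i, hi⟩ := Nrm_Jd F y A hA hy1
  set G : Matrix (Fin 4) (Fin 4) K := κ • Mx η t x x' with hG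
  have hGv : ∀ v, G.mulVec v = g v := fun v => by
    rw [hG, Matrix.smul_mulVec, hgv]
  have hA2 : ∀ v, (g⁻¹ * y * g : V4 K ≃ₗ[F] V4 K) v = (G * A * G).mulVec v := fun v => by
    rw [← Matrix.mulVec_mulVec, ← Matrix.mulVec_mulVec, hGv, hGv, ← hA]
    show (g⁻¹ : V4 K ≃ₗ[F] V4 K) (y (g v)) = _
    rw [hginv]
  obtain ⟨k, hk⟩ := Nrm_Jd F _ (G * A * G) hA2 hy2
  have hgL : ∀ v, gL η t x x' κ v = g v := fun v => by rw [gL_apply, hgv]
  have hgLgL : gL η t x x' κ * gL η t x x' κ = 1 := by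
    refine LinearMap.ext fun v => ?_
    show gL η t x x' κ (gL η t x x' κ v) = v
    rw [hgL, hgL, hgg]
  set Y : Module.End K (V4 K) := A.mulVecLin with hY
  have hYv : ∀ v, Y v = y v := fun v => by rw [hY, Matrix.mulVecLin_apply, hA]
  obtain ⟨U, τ, κ', d, w1, w2, hcfg⟩ := exists_cfg η i₀ t x x' κ h2 hη hi₀ hxx.gx hxx.gx' hκ i k (hxx.ne i k)
  have h1 : Y * JL i = JL i * Y ∨ Y * JL i = -(JL i * Y) := by
    rcases hi with hi | hi
    · left
      refine LinearMap.ext fun v => ?_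
      exact hi v
    · right
      refine LinearMap.ext fun v => ?_
      exact hi v
  have hGAG : gL η t x x' κ * Y * gL η t x x' κ = (G * A * G).mulVecLin := by
    refine LinearMap.ext fun v => ?_
    show gL η t x x' κ (Y (gL η t x x' κ v)) = (G * A * G).mulVec v
    rw [← hA2, hgL, hgL, hYv]
    show g (y (g v)) = (g⁻¹ : V4 K ≃ₗ[F] V4 K) (y (g v))
    rw [hginv]
  have h3 : (gL η t x x' κ * Y * gL η t x x' κ) * JL k = JL k * (gL η t x x' κ * Y * gL η t x x' κ) ∨
      (gL η t x x' κ * Y * gL η t x x' κ) * JL k = -(JL k * (gL η t x x' κ * Y * gL η t x x' κ)) := by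
    rw [hGAG]
    rcases hk with hk | hk
    · left
      refine LinearMap.ext fun v => ?_
      exact hk v
    · right
      refine LinearMap.ext fun v => ?_
      exact hk v
  have e1 : ∀ X : Module.End K (V4 K), gL η t x x' κ * (gL η t x x' κ * X) = X := fun X => by
    rw [← mul_assoc, hgLgL, one_mul]
  have e2 : ∀ X : Module.End K (V4 K), X * gL η t x x' κ * gL η t x x' κ = X := fun X => by
    rw [mul_assoc, hgLgL, mul_one]
  have h4 : Y * (gL η t x x' κ * JL k * gL η t x x' κ) = (gL η t x x' κ * JL k * gL η t x x' κ) * Y ∨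
      Y * (gL η t x x' κ * JL k * gL η t x x' κ) = -((gL η t x x' κ * JL k * gL η t x x' κ) * Y) := by
    rcases h3 with h3 | h3
    · left
      have h5 := congrArg (fun X => gL η t x x' κ * X * gL η t x x' κ) h3
      simp only [mul_assoc] at h5
      rw [e1, hgLgL, mul_one] at h5
      simp only [mul_assoc]
      exact h5
    · right
      have h5 : gL η t x x' κ * (gL η t x x' κ * Y * gL η t x x' κ * JL k) * gL η t x x' κ =
          -(gL η t x x' κ * (JL k * (gL η t x x' κ * Y * gL η t x x' κ)) * gL η t x x' κ) := by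
        rw [h3]
        refine LinearMap.ext fun v => ?_
        show gL η t x x' κ (-((JL k * (gL η t x x' κ * Y * gL η t x x' κ) : Module.End K (V4 K))
          (gL η t x x' κ v))) = _
        rw [map_neg]
        rfl
      simp only [mul_assoc] at h5
      rw [e1, hgLgL, mul_one] at h5
      simp only [mul_assoc]
      exact h5
  rcases hcfg.cases Y (fun v v' => by rw [hY]; exact hbq v v') h1 h4 with h | h | h | h
  · left
    intro v
    rw [← hYv, h]
  · right
    intro v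
    rw [← hYv, h]
  · exact absurd hy (fin_not F hodd η hcfg y hyO (Or.inl fun v => by rw [← hYv, h]))
  · exact absurd hy (fin_not F hodd η hcfg y hyO (Or.inr fun v => by rw [← hYv, h]))

end Pool.Agent.H42.PL
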