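import Pool.Agent.H32.UD.Defs

/-!
# PL.Defs : the plus type, the model and the notation

`K` is a finite extension of `F` of even degree `n`, `|F| = q` odd, `V4 K = Fin 4 → K` are the quaternions `x 0 + x 1 n1 + x 2 n2 + x 3 n3` with `n1 ^ 2 = -η`, `n2 ^ 2 = -1`, `n3 = n1 n2`, `n3 ^ 2 = -η`, `η` not a square in `K`. `qm` is the product, `cj` the conjugation, `bq` the bilinear form
(`bq x x` is the norm), `Bf` its trace to `F`, `OG` the group of the `F`-linear isometries of `Bf` (type `O⁺` in dimension `4 n`). `fr F K` is `x ↦ x ^ q`.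
The algebras: `J1 = Jd 0` and `dg F j k = diag (k, fr k, fr ^ j k, fr ^ (j + 1) k)`, `k` in the subfield with `q ^ p` elements, `p` a prime divisor of `n`. `Nrm F y` : `y` normalises one of them. The aim (PL.Fin): there is `g ∈ ⁅OG, OG⁆` such that `y ∈ ⁅OG, OG⁆`, `Nrm F y` and `Nrm F (g⁻¹ * y * g)` imply `y = ± 1`.
`v (x) = n2 + x (n1 + t n3)` (`vv t x`) has norm `NN η t x`; `g y = (c c')⁻¹ v (x) y v (x')` with `c ^ 2 = NN η t x`, `c' ^ 2 = NN η t x'`.
-/

set_option autoImplicit false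

namespace Pool.Agent.H42.PL

open Module Pool.Agent.H32.UD

/-- the space of quaternions -/
abbrev V4 (R : Type) : Type := Fin 4 → R

section quat

variable {R : Type} [CommRing R]

/-- the product of quaternions -/
def qm (η : R) (x y : V4 R) : V4 R :=
  ![x 0 * y 0 - η * x 1 * y 1 - x 2 * y 2 - η * x 3 * y 3,
    x 0 * y 1 + x 1 * y 0 + x 2 * y 3 - x 3 * y 2,
    x 0 * y 2 + x 2 * y 0 - η * x 1 * y 3 + η * x 3 * y 1,
    x 0 * y 3 + x 3 * y 0 + x 1 * y 2 - x 2 * y 1]

/-- conjugation -/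
def cj (x : V4 R) : V4 R := ![x 0, -x 1, -x 2, -x 3]

/-- the bilinear form -/
def bq (η : R) (x y : V4 R) : R := x 0 * y 0 + η * x 1 * y 1 + x 2 * y 2 + η * x 3 * y 3

/-- the matrix of the left multiplication by `v` -/
def Lm (η : R) (v : V4 R) : Matrix (Fin 4) (Fin 4) R :=
  !![v 0, -(η * v 1), -v 2, -(η * v 3); v 1, v 0, -v 3, v 2;
    v 2, η * v 3, v 0, -(η * v 1); v 3, -v 2, v 1, v 0]

/-- the matrix of the right multiplication by `v` -/
def Rm (η : R) (v : V4 R) : Matrix (Fin 4) (Fin 4) R :=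
  !![v 0, -(η * v 1), -v 2, -(η * v 3); v 1, v 0, v 3, -v 2;
    v 2, -(η * v 3), v 0, η * v 1; v 3, v 2, -v 1, v 0]

/-- `v (x) = n2 + x (n1 + t n3)` -/
def vv (t x : R) : V4 R := ![0, x, 1, x * t]

/-- the norm of `v (x)` -/
def NN (η t x : R) : R := 1 + η * (1 + t ^ 2) * x ^ 2

/-- the basis vectors `n1`, `n2`, `n3` -/
def nn (i : Fin 3) : V4 R :=
  match i with
  | 0 => ![0, 1, 0, 0]
  | 1 => ![0, 0, 1, 0]
  | 2 => ![0, 0, 0, 1]

/-- the norms of `n1`, `n2`, `n3` -/
def Nn (η : R) (i : Fin 3) : R :=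
  match i with
  | 0 => η
  | 1 => 1
  | 2 => η

/-- the signs of the involution `x ↦ n_i x n_i⁻¹` -/
def Jh (i : Fin 3) : Fin 4 → ℤ :=
  match i with
  | 0 => ![1, 1, -1, -1]
  | 1 => ![1, -1, 1, -1]
  | 2 => ![1, -1, -1, 1]

/-- the involution `x ↦ n_i x n_i⁻¹` -/
def Jd (i : Fin 3) (x : V4 R) : V4 R := fun m => (Jh i m : R) * x m

/-- the quaternion `n_i v (x) n_k (cj (v (x)))` -/
def aq (η t : R) (i k : Fin 3) (x : R) : V4 R :=
  qm η (nn i) (qm η (vv t x) (qm η (nn k) (cj (vv t x))))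

/-- the square of the pure part of `aq` -/
def fq (η t : R) (i k : Fin 3) (x : R) : R :=
  (aq η t i k x 0) ^ 2 - Nn η i * Nn η k * NN η t x ^ 2

/-- the pure part of a quaternion -/
def pu (x : V4 R) : V4 R := ![0, x 1, x 2, x 3]

/-- the matrix of `y ↦ v (x) y v (x')` -/
def Mx (η t x x' : R) : Matrix (Fin 4) (Fin 4) R := Lm η (vv t x) * Rm η (vv t x')

/-- the matrix of the linear system of Step 4: `pr b` are the two rows allowed in column `b`, `qr l` the two rows in which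
column `l` of `A z B` vanishes -/
def Kd (pr qr : Fin 4 → Fin 2 → Fin 4) (A B : Matrix (Fin 4) (Fin 4) R) :
    Matrix (Fin 4 × Fin 2) (Fin 4 × Fin 2) R :=
  fun r s => A (qr r.1 r.2) (pr s.1 s.2) * B s.1 r.1

end quat

section model

variable (F : Type) {K : Type} [Field F] [Field K] [Algebra F K]

/-- the form over `F` -/
noncomputable def Bf (η : K) (x y : V4 K) : F := Algebra.trace F K (bq η x y)

/-- the isometry group -/
noncomputable def OG (η : K) : Subgroup (V4 K ≃ₗ[F] V4 K) where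
  carrier := {g | ∀ x y, Bf F η (g x) (g y) = Bf F η x y}
  mul_mem' := by
    intro a b ha hb x y
    rw [LinearEquiv.mul_apply, LinearEquiv.mul_apply, ha, hb]
  one_mem' := by
    intro x y
    rfl
  inv_mem' := by
    intro a ha x y
    have h := ha (a⁻¹ x) (a⁻¹ y)
    rw [← h, ← LinearEquiv.mul_apply, ← LinearEquiv.mul_apply, mul_inv_cancel]
    rfl

theorem mem_OG {η : K} {g : V4 K ≃ₗ[F] V4 K} :
    g ∈ OG F η ↔ ∀ x y, Bf F η (g x) (g y) = Bf F η x y := Iff.rfl

variable [Finite F] [Finite K]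

/-- the operator `diag (k, fr k, fr ^ j k, fr ^ (j + 1) k)` -/
noncomputable def dg (j : ℕ) (k : K) (x : V4 K) : V4 K :=
  ![k * x 0, fr F K k * x 1, (fr F K ^ j) k * x 2, (fr F K ^ (j + 1)) k * x 3]

/-- `y` normalises the field `{dg F j k}`, `k` in the subfield with `q ^ p` elements -/
def NorK (p j : ℕ) (y : V4 K ≃ₗ[F] V4 K) : Prop :=
  ∀ k : K, (fr F K ^ p) k = k → ∃ k' : K, (fr F K ^ p) k' = k' ∧ ∀ x, y (dg F j k x) = dg F j k' (y x)

omit [Finite F] [Finite K] in
/-- `y` normalises the algebra generated by `Jd 0` -/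
def NJ (y : V4 K ≃ₗ[F] V4 K) : Prop :=
  (∀ x, y (Jd 0 x) = Jd 0 (y x)) ∨ (∀ x, y (Jd 0 x) = -Jd 0 (y x))

/-- `y` normalises one of the algebras -/
def Nrm (y : V4 K ≃ₗ[F] V4 K) : Prop :=
  NJ F y ∨ ∃ p j : ℕ, p.Prime ∧ p ∣ finrank F K ∧ NorK F p j y

/-- the map with the matrices `a c` as coefficients -/
noncomputable def ev (a : ℕ → Matrix (Fin 4) (Fin 4) K) (x : V4 K) : V4 K :=
  ∑ c ∈ Finset.range (finrank F K), (a c).mulVec (fun l => (fr F K ^ c) (x l))

end model

section gd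

variable {K : Type} [Field K]

/-- the nine numbers `a_j`, `i ^ 2 = -1` -/
def aj (i t : K) : Fin 9 → K :=
  ![1, t ^ 2, 1 + t ^ 2, (1 - t) ^ 2, (1 + t) ^ 2, (1 + i * t) ^ 2, (1 - i * t) ^ 2,
    -(1 + i * t) ^ 2, -(1 - i * t) ^ 2]

/-- the conditions on `t` -/
structure GdT (i t : K) : Prop where
  sq : IsSquare (1 + t ^ 2)
  inj : Function.Injective (aj i t)
  ne : ∀ j, aj i t j ≠ 0

/-- the conditions on `x` -/
structure GdP (η t x : K) : Prop where
  sq : ∃ c : K, c ≠ 0 ∧ c ^ 2 = NN η t x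
  x_ne : x ≠ 0
  nsq : ∀ i k, ¬ IsSquare (fq η t i k x)
  al_ne : ∀ i k, aq η t i k x 0 ≠ 0

/-- `(f x y)` is a polynomial of degree at most eight in each variable -/
def IsBi (f : K → K → K) : Prop :=
  ∃ a : ℕ → ℕ → K, ∀ x y, f x y = ∑ i ∈ Finset.range 9, ∑ j ∈ Finset.range 9, a i j * x ^ i * y ^ j

end gd

section quat

variable {R : Type} [CommRing R]

theorem qm_assoc (η : R) (x y z : V4 R) : qm η (qm η x y) z = qm η x (qm η y z) := by
  ext i; fin_cases i <;> simp [qm] <;> ring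

theorem qm_add_left (η : R) (x y z : V4 R) : qm η (x + y) z = qm η x z + qm η y z := by
  ext i; fin_cases i <;> simp [qm] <;> ring

theorem qm_add_right (η : R) (x y z : V4 R) : qm η x (y + z) = qm η x y + qm η x z := by
  ext i; fin_cases i <;> simp [qm] <;> ring

theorem qm_smul_left (η c : R) (x y : V4 R) : qm η (c • x) y = c • qm η x y := by
  ext i; fin_cases i <;> simp [qm] <;> ring

theorem qm_smul_right (η c : R) (x y : V4 R) : qm η x (c • y) = c • qm η x y := by
  ext i; fin_cases i <;> simp [qm] <;> ring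

theorem qm_neg_left (η : R) (x y : V4 R) : qm η (-x) y = -qm η x y := by
  ext i; fin_cases i <;> simp [qm] <;> ring

theorem qm_neg_right (η : R) (x y : V4 R) : qm η x (-y) = -qm η x y := by
  ext i; fin_cases i <;> simp [qm] <;> ring

theorem cj_cj (x : V4 R) : cj (cj x) = x := by
  ext i; fin_cases i <;> simp [cj]

theorem cj_qm (η : R) (x y : V4 R) : cj (qm η x y) = qm η (cj y) (cj x) := by
  ext i; fin_cases i <;> simp [qm, cj] <;> ring

theorem qm_cj (η : R) (x y : V4 R) : qm η x (qm η (cj x) y) = bq η x x • y := by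
  ext i; fin_cases i <;> simp [qm, cj, bq] <;> ring

theorem cj_qm_self (η : R) (x y : V4 R) : qm η (cj x) (qm η x y) = bq η x x • y := by
  ext i; fin_cases i <;> simp [qm, cj, bq] <;> ring

theorem qm_qm_cj (η : R) (x y : V4 R) : qm η (qm η y x) (cj x) = bq η x x • y := by
  ext i; fin_cases i <;> simp [qm, cj, bq] <;> ring

theorem qm_cj_qm (η : R) (x y : V4 R) : qm η (qm η y (cj x)) x = bq η x x • y := by
  ext i; fin_cases i <;> simp [qm, cj, bq] <;> ring

theorem bq_comm (η : R) (x y : V4 R) : bq η x y = bq η y x := by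
  simp only [bq]; ring

theorem bq_add_left (η : R) (x y z : V4 R) : bq η (x + y) z = bq η x z + bq η y z := by
  simp only [bq, Pi.add_apply]; ring

theorem bq_add_right (η : R) (x y z : V4 R) : bq η x (y + z) = bq η x y + bq η x z := by
  simp only [bq, Pi.add_apply]; ring

theorem bq_smul_left (η c : R) (x y : V4 R) : bq η (c • x) y = c * bq η x y := by
  simp only [bq, Pi.smul_apply, smul_eq_mul]; ring

theorem bq_smul_right (η c : R) (x y : V4 R) : bq η x (c • y) = c * bq η x y := by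
  simp only [bq, Pi.smul_apply, smul_eq_mul]; ring

theorem bq_neg_left (η : R) (x y : V4 R) : bq η (-x) y = -bq η x y := by
  simp only [bq, Pi.neg_apply]; ring

theorem bq_neg_right (η : R) (x y : V4 R) : bq η x (-y) = -bq η x y := by
  simp only [bq, Pi.neg_apply]; ring

theorem bq_zero_left (η : R) (y : V4 R) : bq η 0 y = 0 := by
  simp [bq]

theorem bq_zero_right (η : R) (y : V4 R) : bq η y 0 = 0 := by
  simp [bq]

theorem bq_qm_left (η : R) (v x y : V4 R) : bq η (qm η v x) (qm η v y) = bq η v v * bq η x y := by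
  simp [bq, qm]; ring

theorem bq_qm_right (η : R) (v x y : V4 R) : bq η (qm η x v) (qm η y v) = bq η v v * bq η x y := by
  simp [bq, qm]; ring

theorem bq_adj_left (η : R) (v x y : V4 R) : bq η (qm η v x) y = bq η x (qm η (cj v) y) := by
  simp [bq, qm, cj]; ring

theorem bq_adj_right (η : R) (v x y : V4 R) : bq η (qm η x v) y = bq η x (qm η y (cj v)) := by
  simp [bq, qm, cj]; ring

theorem bq_cj (η : R) (x y : V4 R) : bq η (cj x) (cj y) = bq η x y := by
  simp [bq, cj]

theorem cj_pure {x : V4 R} (h : x 0 = 0) : cj x = -x := by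
  ext i; fin_cases i <;> simp [cj, h]

theorem qm_pure (η : R) {x : V4 R} (h : x 0 = 0) (y : V4 R) : qm η x (qm η x y) = -(bq η x x) • y := by
  ext i; fin_cases i <;> simp [qm, bq, h] <;> ring

theorem qm_pure_right (η : R) {x : V4 R} (h : x 0 = 0) (y : V4 R) :
    qm η (qm η y x) x = -(bq η x x) • y := by
  ext i; fin_cases i <;> simp [qm, bq, h] <;> ring

/-- orthogonal pure quaternions anticommute -/
theorem qm_anti (η : R) {x y : V4 R} (hx : x 0 = 0) (hy : y 0 = 0) (h : bq η x y = 0) :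
    qm η x y = -qm η y x := by
  have h' : η * x 1 * y 1 + x 2 * y 2 + η * x 3 * y 3 = 0 := by
    rw [bq, hx] at h
    linear_combination h
  ext i; fin_cases i
  · simp [qm, hx, hy]
    linear_combination (-2 : R) * h'
  · simp [qm, hx, hy]; ring
  · simp [qm, hx, hy]; ring
  · simp [qm, hx, hy]; ring

theorem Lm_mulVec (η : R) (v x : V4 R) : (Lm η v).mulVec x = qm η v x := by
  ext i; fin_cases i <;> simp [Lm, qm, Matrix.mulVec, dotProduct, Fin.sum_univ_four] <;> ring

theorem Rm_mulVec (η : R) (v x : V4 R) : (Rm η v).mulVec x = qm η x v := by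
  ext i; fin_cases i <;> simp [Rm, qm, Matrix.mulVec, dotProduct, Fin.sum_univ_four] <;> ring

theorem Mx_mulVec (η t x x' : R) (y : V4 R) :
    (Mx η t x x').mulVec y = qm η (vv t x) (qm η y (vv t x')) := by
  rw [Mx, ← Matrix.mulVec_mulVec, Rm_mulVec, Lm_mulVec]

theorem vv_pure (t x : R) : (vv t x) 0 = 0 := rfl

theorem bq_vv (η t x : R) : bq η (vv t x) (vv t x) = NN η t x := by
  simp [bq, vv, NN]; ring

theorem nn_pure (i : Fin 3) : (nn i : V4 R) 0 = 0 := by
  fin_cases i <;> rfl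

theorem bq_nn (η : R) (i : Fin 3) : bq η (nn i) (nn i) = Nn η i := by
  fin_cases i <;> simp [bq, nn, Nn]

/-- `n_i x (cj n_i) = N (n_i) Jd i x` -/
theorem nn_conj (η : R) (i : Fin 3) (x : V4 R) :
    qm η (nn i) (qm η x (cj (nn i))) = Nn η i • Jd i x := by
  fin_cases i <;> (ext m; fin_cases m <;> simp [qm, nn, cj, Nn, Jd, Jh])

theorem Jd_Jd (i : Fin 3) (x : V4 R) : Jd i (Jd i x) = x := by
  fin_cases i <;> (ext m; fin_cases m <;> simp [Jd, Jh])

theorem Jd_add (i : Fin 3) (x y : V4 R) : Jd i (x + y) = Jd i x + Jd i y := by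
  ext m; simp [Jd, mul_add]

theorem Jd_smul (i : Fin 3) (c : R) (x : V4 R) : Jd i (c • x) = c • Jd i x := by
  ext m; simp [Jd]; ring

theorem Jd_adj (η : R) (i : Fin 3) (x y : V4 R) : bq η (Jd i x) y = bq η x (Jd i y) := by
  fin_cases i <;> simp [bq, Jd, Jh]

/-- the square of `y ↦ v (x) y v (x')` -/
theorem Mx_sq (η t x x' : R) (y : V4 R) : (Mx η t x x').mulVec ((Mx η t x x').mulVec y) =
    (NN η t x * NN η t x') • y := by
  rw [Mx_mulVec, Mx_mulVec, qm_assoc η (vv t x), qm_assoc η y, ← qm_assoc η (vv t x) (vv t x),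
    ← qm_assoc]
  ext m; fin_cases m <;> simp [qm, vv, NN] <;> ring

/-- `aq = α + ν`, `ν ^ 2 = fq` -/
theorem pu_sq (η t : R) (i k : Fin 3) (x : R) : bq η (pu (aq η t i k x)) (pu (aq η t i k x)) = -fq η t i k x := by
  have h : bq η (aq η t i k x) (aq η t i k x) = Nn η i * Nn η k * NN η t x ^ 2 := by
    rw [aq, bq_qm_left, bq_qm_left, bq_qm_left, bq_cj, bq_nn, bq_nn, bq_vv]; ring
  have h2 : bq η (aq η t i k x) (aq η t i k x) =
      (aq η t i k x 0) ^ 2 + bq η (pu (aq η t i k x)) (pu (aq η t i k x)) := by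
    simp [bq, pu]; ring
  rw [fq]
  linear_combination h - h2

end quat

end Pool.Agent.H42.PL
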