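import Pool.Agent.H42.PL.Defs

/-!
# PL.AbA : two involutions, the four lines

PROOF. `D = J J' - J' J`. Then `D J = -J D`, `D J' = -J' D`, `D² = T² - 4` for `T = J J' + J' J = τ + κ U` (`D² = J J' J J' + J' J J' J - 2`, `T² = .. + 2`, from `J² = J'² = 1`), `T`, so `U` (`κ ≠ 0`), commutes with `J`, `J'`, `D`; `bq (D x) y = -bq x (D y)`.
`T w1 = τ1 w1`, `τ1 = τ + κ d`, `T w2 = τ2 w2`, `τ2 = τ - κ d`; `4 - τ1²`, `4 - τ2²` are not squares, so they are not `0`.
`span4`: `x = x₊ + x₋`, `x± = (x ± J x) / 2`, `J x± = ± x±`. `x₊ = a w1 + a' w2` (`span`). `J (D x₋) = -D J x₋ = D x₋`, so `D x₋ = b w1 + b' w2`. Now `(T² - 4) x₋ = D (D x₋) = b D w1 + b' D w2`, and `T² - 4` is a polynomial in `U`, invertible: let `x₋ = u + v`, `u = (x₋ + d⁻¹ U x₋) / 2`, `v = (x₋ - d⁻¹ U x₋) / 2` (`U u = d u`, `U v = -d v`, `U² = d²`);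
`D u = b w1`-part: apply the projections `(1 ± d⁻¹ U) / 2` to `D x₋ = b w1 + b' w2`: `D u = b w1`, `D v = b' w2`, so `(τ1² - 4) u = D D u = b D w1` and `(τ2² - 4) v = b' D w2`.
`ne1`: if `bq w1 w1 = 0` then `bq w1 x = 0` for all `x` by `span4` and: `bq w1 w2 = 0` (`U_adj`, `d ≠ -d`), `bq w1 (D w1) = 0`, `bq w1 (D w2) = 0` (`J_adj`, `J w1 = w1`, `J D w = -D w`); then `w1 = 0` (`bq_nondeg`, from the basis vectors, `η ≠ 0`). `ne2` the same.
`orth1`: `bq w1 (D w1) = 0` as above. `nrm1`: `bq (D w1) (D w1) = -bq w1 (D² w1) = (4 - τ1²) bq w1 w1`. `eig_neg`: `→` write `x` as in `span4`; `U x = -d x` and `U (D w) = D (U w)` give `2 d (a w1 + b D w1) = 0`, `x = a' w2 + b' D w2`.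
-/

set_option autoImplicit false

namespace Pool.Agent.H42.PL

variable {K : Type} [Field K]

/-- the configuration: two self-adjoint involutions `J`, `J'` with `J J' + J' J = τ + κ U`, `U² = d²` -/
structure Cfg (η : K) (J J' U : Module.End K (V4 K)) (τ κ d : K) (w1 w2 : V4 K) : Prop where
  two_ne : (2 : K) ≠ 0
  η_ne : η ≠ 0
  J_sq : J * J = 1
  J'_sq : J' * J' = 1
  J_adj : ∀ x y, bq η (J x) y = bq η x (J y)
  J'_adj : ∀ x y, bq η (J' x) y = bq η x (J' y)
  T_eq : J * J' + J' * J = τ • (1 : Module.End K (V4 K)) + κ • U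
  U_sq : U * U = (d ^ 2) • (1 : Module.End K (V4 K))
  U_adj : ∀ x y, bq η (U x) y = bq η x (U y)
  d_ne : d ≠ 0
  κ_ne : κ ≠ 0
  τ_ne : τ ≠ 0
  ns1 : ¬ IsSquare (4 - (τ + κ * d) ^ 2)
  ns2 : ¬ IsSquare (4 - (τ - κ * d) ^ 2)
  w1_ne : w1 ≠ 0
  w2_ne : w2 ≠ 0
  Jw1 : J w1 = w1
  Jw2 : J w2 = w2
  Uw1 : U w1 = d • w1
  Uw2 : U w2 = -(d • w2)
  span : ∀ x, J x = x → ∃ a b : K, x = a • w1 + b • w2

private theorem AbA_r1 {R : Type*} [Ring R] (a b : R) : (a * b - b * a) * (a * b - b * a) =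
    (a * b + b * a) * (a * b + b * a) -
      (a * (b * b) * a + a * (b * b) * a + b * (a * a) * b + b * (a * a) * b) := by
  simp only [mul_sub, sub_mul, mul_add, add_mul, mul_assoc]
  abel

private theorem AbA_r2 {R : Type*} [Ring R] (a b : R) :
    (a * b - b * a) * a + a * (a * b - b * a) = (a * a) * b - b * (a * a) := by
  simp only [mul_sub, sub_mul, mul_assoc]
  abel

private theorem AbA_r3 {R : Type*} [Ring R] (a b : R) :
    (a * b + b * a) * a - a * (a * b + b * a) = b * (a * a) - (a * a) * b := by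
  simp only [mul_add, add_mul, mul_assoc]
  abel

private theorem AbA_r4 {R : Type*} [Ring R] (a b : R) :
    (a * b + b * a) * (a * b - b * a) - (a * b - b * a) * (a * b + b * a) =
      b * (a * a) * b + b * (a * a) * b - (a * (b * b) * a + a * (b * b) * a) := by
  simp only [mul_sub, sub_mul, mul_add, add_mul, mul_assoc]
  abel

theorem bq_nondeg {η : K} (hη : η ≠ 0) {x : V4 K} (h : ∀ y, bq η x y = 0) : x = 0 := by
  have h0 := h ![1, 0, 0, 0]
  have h1 := h ![0, 1, 0, 0]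
  have h2 := h ![0, 0, 1, 0]
  have h3 := h ![0, 0, 0, 1]
  simp [bq] at h0 h1 h2 h3
  have h1' := h1.resolve_left hη
  have h3' := h3.resolve_left hη
  ext i
  fin_cases i
  · exact h0
  · exact h1'
  · exact h2
  · exact h3'

namespace Cfg

variable {η : K} {J J' U : Module.End K (V4 K)} {τ κ d : K} {w1 w2 : V4 K}

theorem D_sq (h : Cfg η J J' U τ κ d w1 w2) : (J * J' - J' * J) * (J * J' - J' * J) =
    (J * J' + J' * J) * (J * J' + J' * J) - (4 : K) • (1 : Module.End K (V4 K)) := by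
  have e := AbA_r1 J J'
  have e4 : (4 : K) • (1 : Module.End K (V4 K)) = 1 + 1 + 1 + 1 := by
    rw [show (4 : K) = 1 + 1 + 1 + 1 by norm_num, add_smul, add_smul, add_smul, one_smul]
  rw [e, h.J_sq, h.J'_sq, mul_one, mul_one, h.J_sq, h.J'_sq, e4]

theorem D_J (h : Cfg η J J' U τ κ d w1 w2) : (J * J' - J' * J) * J = -(J * (J * J' - J' * J)) := by
  have e := AbA_r2 J J'
  rw [h.J_sq, one_mul, mul_one, sub_self] at e
  exact eq_neg_of_add_eq_zero_left e

private theorem AbA_cancel (h : Cfg η J J' U τ κ d w1 w2) {X Y : Module.End K (V4 K)}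
    (e : κ • X = κ • Y) : X = Y := by
  have h1 : κ⁻¹ • κ • X = κ⁻¹ • κ • Y := by rw [e]
  rwa [smul_smul, smul_smul, inv_mul_cancel₀ h.κ_ne, one_smul, one_smul] at h1

private theorem AbA_U (h : Cfg η J J' U τ κ d w1 w2) :
    κ • U = J * J' + J' * J - τ • (1 : Module.End K (V4 K)) := by
  rw [h.T_eq]
  abel

theorem U_J (h : Cfg η J J' U τ κ d w1 w2) : U * J = J * U := by
  apply AbA_cancel h
  rw [← smul_mul_assoc, ← mul_smul_comm, AbA_U h]
  have e : (J * J' + J' * J) * J = J * (J * J' + J' * J) := by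
    have e1 := AbA_r3 J J'
    rw [h.J_sq, one_mul, mul_one, sub_self] at e1
    exact sub_eq_zero.1 e1
  rw [sub_mul, mul_sub, e, smul_mul_assoc, mul_smul_comm, one_mul, mul_one]

theorem U_D (h : Cfg η J J' U τ κ d w1 w2) : U * (J * J' - J' * J) = (J * J' - J' * J) * U := by
  apply AbA_cancel h
  rw [← smul_mul_assoc, ← mul_smul_comm, AbA_U h]
  have e : (J * J' + J' * J) * (J * J' - J' * J) = (J * J' - J' * J) * (J * J' + J' * J) := by
    have e1 := AbA_r4 J J'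
    rw [h.J_sq, h.J'_sq, mul_one, mul_one, h.J_sq, h.J'_sq, sub_self] at e1
    exact sub_eq_zero.1 e1
  generalize J * J' - J' * J = D at e ⊢
  rw [sub_mul, mul_sub, e, smul_mul_assoc, mul_smul_comm, one_mul, mul_one]

theorem D_adj (h : Cfg η J J' U τ κ d w1 w2) (x y : V4 K) :
    bq η ((J * J' - J' * J) x) y = -bq η x ((J * J' - J' * J) y) := by
  have e1 : ∀ z, (J * J' - J' * J) z = J (J' z) + -(J' (J z)) := fun z => by
    rw [LinearMap.sub_apply, Module.End.mul_apply, Module.End.mul_apply, sub_eq_add_neg]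
  rw [e1, e1, bq_add_left, bq_add_right, bq_neg_left, bq_neg_right, h.J_adj, h.J'_adj, h.J'_adj,
    h.J_adj]
  ring

private theorem AbA_JD (h : Cfg η J J' U τ κ d w1 w2) (x : V4 K) :
    J ((J * J' - J' * J) x) = -((J * J' - J' * J) (J x)) := by
  have e := LinearMap.congr_fun h.D_J x
  rw [Module.End.mul_apply, LinearMap.neg_apply, Module.End.mul_apply] at e
  rw [e, neg_neg]

private theorem AbA_UD (h : Cfg η J J' U τ κ d w1 w2) (x : V4 K) :
    U ((J * J' - J' * J) x) = (J * J' - J' * J) (U x) := by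
  have e := LinearMap.congr_fun h.U_D x
  rwa [Module.End.mul_apply, Module.End.mul_apply] at e

private theorem AbA_DD (h : Cfg η J J' U τ κ d w1 w2) {x : V4 K} {c : K} (hx : U x = c • x) :
    (J * J' - J' * J) ((J * J' - J' * J) x) = ((τ + κ * c) ^ 2 - 4) • x := by
  have e : (J * J' - J' * J) ((J * J' - J' * J) x) =
      (J * J' + J' * J) ((J * J' + J' * J) x) - (4 : K) • x := LinearMap.congr_fun h.D_sq x
  have hT : ∀ z : V4 K, U z = c • z → (J * J' + J' * J) z = (τ + κ * c) • z := fun z hz => by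
    rw [h.T_eq, LinearMap.add_apply, LinearMap.smul_apply, LinearMap.smul_apply, hz,
      Module.End.one_apply, smul_smul, add_smul]
  have hTx := hT x hx
  rw [hTx, map_smul, hTx, smul_smul] at e
  rw [e, sub_smul]
  congr 2
  ring

private theorem AbA_n1 (h : Cfg η J J' U τ κ d w1 w2) : (4 - (τ + κ * d) ^ 2) ≠ 0 := fun h0 =>
  h.ns1 (by rw [h0]; exact ⟨0, by ring⟩)

private theorem AbA_n2 (h : Cfg η J J' U τ κ d w1 w2) : (4 - (τ - κ * d) ^ 2) ≠ 0 := fun h0 =>
  h.ns2 (by rw [h0]; exact ⟨0, by ring⟩)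

private theorem AbA_DD1 (h : Cfg η J J' U τ κ d w1 w2) {x : V4 K} (hx : U x = d • x) :
    (J * J' - J' * J) ((J * J' - J' * J) x) = (-(4 - (τ + κ * d) ^ 2)) • x := by
  rw [AbA_DD h hx]
  congr 1
  ring

private theorem AbA_DD2 (h : Cfg η J J' U τ κ d w1 w2) {x : V4 K} (hx : U x = -(d • x)) :
    (J * J' - J' * J) ((J * J' - J' * J) x) = (-(4 - (τ - κ * d) ^ 2)) • x := by
  rw [AbA_DD h (c := -d) (by rw [hx, neg_smul])]
  congr 1
  ring

theorem span4 (h : Cfg η J J' U τ κ d w1 w2) (x : V4 K) : ∃ a b a' b' : K,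
    x = a • w1 + b • (J * J' - J' * J) w1 + (a' • w2 + b' • (J * J' - J' * J) w2) := by
  have h2 := h.two_ne
  have hd := h.d_ne
  have hJJ : J (J x) = x := by
    have e := LinearMap.congr_fun h.J_sq x
    rwa [Module.End.mul_apply, Module.End.one_apply] at e
  obtain ⟨a, a', ha⟩ := h.span ((2 : K)⁻¹ • (x + J x)) (by
    rw [map_smul, map_add, hJJ, add_comm])
  obtain ⟨y, hy⟩ : ∃ y, y = (2 : K)⁻¹ • (x - J x) := ⟨_, rfl⟩
  have hJy : J y = -y := by
    rw [hy, map_smul, map_sub, hJJ, ← smul_neg, neg_sub]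
  have hxy : x = (2 : K)⁻¹ • (x + J x) + y := by
    rw [hy, ← smul_add]
    have e : x + J x + (x - J x) = (2 : K) • x := by rw [two_smul]; abel
    rw [e, smul_smul, inv_mul_cancel₀ h2, one_smul]
  obtain ⟨b, b', hb⟩ := h.span ((J * J' - J' * J) y) (by
    rw [AbA_JD h, hJy, map_neg, neg_neg])
  obtain ⟨u, hu⟩ : ∃ u, u = (2 : K)⁻¹ • (y + d⁻¹ • U y) := ⟨_, rfl⟩
  obtain ⟨v, hv⟩ : ∃ v, v = (2 : K)⁻¹ • (y - d⁻¹ • U y) := ⟨_, rfl⟩
  have hUU : U (U y) = (d ^ 2) • y := by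
    have e := LinearMap.congr_fun h.U_sq y
    rwa [Module.End.mul_apply, LinearMap.smul_apply, Module.End.one_apply] at e
  have hyuv : y = u + v := by
    rw [hu, hv, ← smul_add]
    have e : y + d⁻¹ • U y + (y - d⁻¹ • U y) = (2 : K) • y := by rw [two_smul]; abel
    rw [e, smul_smul, inv_mul_cancel₀ h2, one_smul]
  have e1 : d⁻¹ • ((d ^ 2) • y) = d • y := by
    rw [smul_smul]
    congr 1
    field_simp
  have e2 : d • (d⁻¹ • U y) = U y := by
    rw [smul_smul, mul_inv_cancel₀ hd, one_smul]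
  have hUu : U u = d • u := by
    rw [hu, map_smul, map_add, map_smul, hUU, e1, smul_comm d, smul_add d, e2, add_comm]
  have hUv : U v = -(d • v) := by
    rw [hv, map_smul, map_sub, map_smul, hUU, e1, smul_comm d, smul_sub d, e2, ← smul_neg, neg_sub]
  have e3 : U ((J * J' - J' * J) y) = d • (b • w1) - d • (b' • w2) := by
    rw [hb, map_add, map_smul, map_smul, h.Uw1, h.Uw2, smul_neg, smul_comm b, smul_comm b',
      sub_eq_add_neg]
  have e4 : d⁻¹ • (d • (b • w1) - d • (b' • w2)) = b • w1 - b' • w2 := by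
    rw [smul_sub, smul_smul d⁻¹ d, smul_smul d⁻¹ d, inv_mul_cancel₀ hd, one_smul, one_smul]
  have hDu : (J * J' - J' * J) u = b • w1 := by
    rw [hu, map_smul, map_add, map_smul, ← AbA_UD h, e3, e4, hb]
    have e : b • w1 + b' • w2 + (b • w1 - b' • w2) = (2 : K) • (b • w1) := by
      rw [two_smul]; abel
    rw [e, smul_smul, inv_mul_cancel₀ h2, one_smul]
  have hDv : (J * J' - J' * J) v = b' • w2 := by
    rw [hv, map_smul, map_sub, map_smul, ← AbA_UD h, e3, e4, hb]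
    have e : b • w1 + b' • w2 - (b • w1 - b' • w2) = (2 : K) • (b' • w2) := by
      rw [two_smul]; abel
    rw [e, smul_smul, inv_mul_cancel₀ h2, one_smul]
  have n1 := AbA_n1 h
  have n2 := AbA_n2 h
  have hu2 : u = (-(4 - (τ + κ * d) ^ 2))⁻¹ • (b • (J * J' - J' * J) w1) := by
    rw [← map_smul, ← hDu, AbA_DD1 h hUu, smul_smul, inv_mul_cancel₀ (neg_ne_zero.2 n1), one_smul]
  have hv2 : v = (-(4 - (τ - κ * d) ^ 2))⁻¹ • (b' • (J * J' - J' * J) w2) := by
    rw [← map_smul, ← hDv, AbA_DD2 h hUv, smul_smul, inv_mul_cancel₀ (neg_ne_zero.2 n2), one_smul]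
  refine ⟨a, (-(4 - (τ + κ * d) ^ 2))⁻¹ * b, a', (-(4 - (τ - κ * d) ^ 2))⁻¹ * b', ?_⟩
  rw [mul_smul, mul_smul, ← hu2, ← hv2]
  conv_lhs => rw [hxy, ha, hyuv]
  abel

private theorem AbA_half (h : Cfg η J J' U τ κ d w1 w2) {c : K} (hc : c = -c) : c = 0 := by
  have h1 : (2 : K) * c = 0 := by linear_combination hc
  exact (mul_eq_zero.1 h1).resolve_left h.two_ne

private theorem AbA_o (h : Cfg η J J' U τ κ d w1 w2) {u v : V4 K} (hu : J u = u) (hv : J v = v) :
    bq η u ((J * J' - J' * J) v) = 0 := by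
  apply AbA_half h
  have e := h.J_adj u ((J * J' - J' * J) v)
  rw [hu, AbA_JD h, hv, bq_neg_right] at e
  exact e

private theorem AbA_12 (h : Cfg η J J' U τ κ d w1 w2) : bq η w1 w2 = 0 := by
  have e := h.U_adj w1 w2
  rw [h.Uw1, h.Uw2, bq_smul_left, bq_neg_right, bq_smul_right] at e
  have e1 : d * bq η w1 w2 = 0 := AbA_half h e
  exact (mul_eq_zero.1 e1).resolve_left h.d_ne

theorem ne1 (h : Cfg η J J' U τ κ d w1 w2) : bq η w1 w1 ≠ 0 := by
  intro h0
  refine h.w1_ne (bq_nondeg h.η_ne fun y => ?_)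
  obtain ⟨a, b, a', b', hy⟩ := h.span4 y
  rw [hy, bq_add_right, bq_add_right, bq_add_right, bq_smul_right, bq_smul_right, bq_smul_right,
    bq_smul_right, h0, AbA_o h h.Jw1 h.Jw1, AbA_o h h.Jw1 h.Jw2, AbA_12 h]
  ring

theorem ne2 (h : Cfg η J J' U τ κ d w1 w2) : bq η w2 w2 ≠ 0 := by
  intro h0
  refine h.w2_ne (bq_nondeg h.η_ne fun y => ?_)
  obtain ⟨a, b, a', b', hy⟩ := h.span4 y
  rw [hy, bq_add_right, bq_add_right, bq_add_right, bq_smul_right, bq_smul_right, bq_smul_right,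
    bq_smul_right, h0, AbA_o h h.Jw2 h.Jw1, AbA_o h h.Jw2 h.Jw2, bq_comm η w2 w1, AbA_12 h]
  ring

theorem orth1 (h : Cfg η J J' U τ κ d w1 w2) : bq η w1 ((J * J' - J' * J) w1) = 0 :=
  AbA_o h h.Jw1 h.Jw1

theorem orth2 (h : Cfg η J J' U τ κ d w1 w2) : bq η w2 ((J * J' - J' * J) w2) = 0 :=
  AbA_o h h.Jw2 h.Jw2

theorem nrm1 (h : Cfg η J J' U τ κ d w1 w2) : bq η ((J * J' - J' * J) w1) ((J * J' - J' * J) w1) =
    (4 - (τ + κ * d) ^ 2) * bq η w1 w1 := by
  rw [h.D_adj, AbA_DD1 h h.Uw1, bq_smul_right]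
  ring

theorem nrm2 (h : Cfg η J J' U τ κ d w1 w2) : bq η ((J * J' - J' * J) w2) ((J * J' - J' * J) w2) =
    (4 - (τ - κ * d) ^ 2) * bq η w2 w2 := by
  rw [h.D_adj, AbA_DD2 h h.Uw2, bq_smul_right]
  ring

private theorem AbA_e1 (h : Cfg η J J' U τ κ d w1 w2) (a b : K) :
    U (a • w1 + b • (J * J' - J' * J) w1) = d • (a • w1 + b • (J * J' - J' * J) w1) := by
  rw [map_add, map_smul, map_smul, AbA_UD h, h.Uw1, map_smul, smul_add, smul_comm a, smul_comm b]

private theorem AbA_e2 (h : Cfg η J J' U τ κ d w1 w2) (a b : K) :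
    U (a • w2 + b • (J * J' - J' * J) w2) = -(d • (a • w2 + b • (J * J' - J' * J) w2)) := by
  rw [map_add, map_smul, map_smul, AbA_UD h, h.Uw2, map_neg, map_smul, smul_add, smul_neg,
    smul_neg, smul_comm a, smul_comm b, neg_add]

private theorem AbA_z (h : Cfg η J J' U τ κ d w1 w2) {z : V4 K} (hz : d • z = -(d • z)) :
    z = 0 := by
  have h1 : (2 * d) • z = 0 := by
    rw [mul_smul, two_smul]
    nth_rewrite 1 [hz]
    exact neg_add_cancel _
  exact (smul_eq_zero.1 h1).resolve_left (mul_ne_zero h.two_ne h.d_ne)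

theorem eig_pos (h : Cfg η J J' U τ κ d w1 w2) (x : V4 K) :
    U x = d • x ↔ ∃ a b : K, x = a • w1 + b • (J * J' - J' * J) w1 := by
  constructor
  · intro hx
    obtain ⟨a, b, a', b', hy⟩ := h.span4 x
    have hz : a' • w2 + b' • (J * J' - J' * J) w2 = 0 := by
      rw [hy, map_add, AbA_e1 h, AbA_e2 h] at hx
      generalize a • w1 + b • (J * J' - J' * J) w1 = z1 at hx
      generalize a' • w2 + b' • (J * J' - J' * J) w2 = z2 at hx ⊢
      rw [smul_add d] at hx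
      exact AbA_z h (add_left_cancel hx).symm
    rw [hz, add_zero] at hy
    exact ⟨a, b, hy⟩
  · rintro ⟨a, b, rfl⟩
    exact AbA_e1 h a b

theorem eig_neg (h : Cfg η J J' U τ κ d w1 w2) (x : V4 K) :
    U x = -(d • x) ↔ ∃ a b : K, x = a • w2 + b • (J * J' - J' * J) w2 := by
  constructor
  · intro hx
    obtain ⟨a, b, a', b', hy⟩ := h.span4 x
    have hz : a • w1 + b • (J * J' - J' * J) w1 = 0 := by
      rw [hy, map_add, AbA_e1 h, AbA_e2 h] at hx
      generalize a • w1 + b • (J * J' - J' * J) w1 = z1 at hx ⊢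
      generalize a' • w2 + b' • (J * J' - J' * J) w2 = z2 at hx
      rw [smul_add d, neg_add] at hx
      exact AbA_z h (add_right_cancel hx)
    rw [hz, zero_add] at hy
    exact ⟨a', b', hy⟩
  · rintro ⟨a, b, rfl⟩
    exact AbA_e2 h a b

end Cfg

end Pool.Agent.H42.PL
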