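import Pool.Agent.H42.PL.Defs

/-!
# PL.Zer : zeros of `f (x, x ^ m)`

PROOF. `IsBi_det`: Leibniz (`Matrix.det_apply`): the determinant is `∑_σ sign σ (∏_r (A0 + x A1) (σ r) r) (∏_r (B0 + y B1) (σ r) r)`. Each product of eight factors `α + x β` is a polynomial in `x` of degree at most `8` (`Polynomial.natDegree_prod_le`: the product of `C α + X * C β`, `Fintype.card (Fin 4 × Fin 2) = 8`),
so it is `∑_{i < 9} u i x ^ i` (`Polynomial.eval_eq_sum_range'`). `a i j = ∑_σ sign σ * u_σ i * w_σ j`.
`card_zero`: the polynomial `P = ∑_{i, j < 9} a i j X ^ (i + m j)` has degree at most `8 + 8 m`, `P.eval x = f x (x ^ m)`. If `m ≥ 9` the exponents `i + m j`, `i, j < 9`, are different, so `P = 0` implies that all `a i j = 0` and `f = 0`, contradiction. So `P ≠ 0` and it has at most `8 + 8 m` roots.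
-/

set_option autoImplicit false

namespace Pool.Agent.H42.PL

variable {K : Type} [Field K]

private theorem prod_poly (α β : Fin 4 × Fin 2 → K) :
    ∃ u : ℕ → K, ∀ x, ∏ r, (α r + x * β r) = ∑ i ∈ Finset.range 9, u i * x ^ i := by
  classical
  set P : Polynomial K := ∏ r, (Polynomial.C (α r) + Polynomial.X * Polynomial.C (β r)) with hP
  have hd : P.natDegree < 9 := by
    have h1 : P.natDegree ≤ ∑ r : Fin 4 × Fin 2,
        (Polynomial.C (α r) + Polynomial.X * Polynomial.C (β r)).natDegree :=
      Polynomial.natDegree_prod_le _ _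
    have h2 : ∑ r : Fin 4 × Fin 2, (Polynomial.C (α r) + Polynomial.X * Polynomial.C (β r)).natDegree
        ≤ ∑ _r : Fin 4 × Fin 2, 1 := by
      refine Finset.sum_le_sum fun r _ => ?_
      compute_degree
    have h3 : ∑ _r : Fin 4 × Fin 2, 1 = 8 := by simp
    omega
  refine ⟨P.coeff, fun x => ?_⟩
  rw [← Polynomial.eval_eq_sum_range' hd x]
  rw [hP, Polynomial.eval_prod]
  refine Finset.prod_congr rfl fun r _ => ?_
  simp only [Polynomial.eval_add, Polynomial.eval_C, Polynomial.eval_mul, Polynomial.eval_X]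

theorem IsBi_det (A0 A1 B0 B1 : Matrix (Fin 4 × Fin 2) (Fin 4 × Fin 2) K) :
    IsBi fun x y => (Matrix.of fun r s => (A0 r s + x * A1 r s) * (B0 r s + y * B1 r s)).det := by
  classical
  choose u hu using fun σ : Equiv.Perm (Fin 4 × Fin 2) =>
    prod_poly (fun r => A0 (σ r) r) (fun r => A1 (σ r) r)
  choose w hw using fun σ : Equiv.Perm (Fin 4 × Fin 2) =>
    prod_poly (fun r => B0 (σ r) r) (fun r => B1 (σ r) r)
  refine ⟨fun i j => ∑ σ : Equiv.Perm (Fin 4 × Fin 2),
    ((Equiv.Perm.sign σ : ℤ) : K) * u σ i * w σ j, fun x y => ?_⟩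
  have key : ∀ σ : Equiv.Perm (Fin 4 × Fin 2), ((Equiv.Perm.sign σ : ℤ) : K) *
      ∏ i, (Matrix.of fun r s => (A0 r s + x * A1 r s) * (B0 r s + y * B1 r s)) (σ i) i =
      ∑ i ∈ Finset.range 9, ∑ j ∈ Finset.range 9,
        ((Equiv.Perm.sign σ : ℤ) : K) * u σ i * w σ j * x ^ i * y ^ j := by
    intro σ
    simp only [Matrix.of_apply]
    rw [Finset.prod_mul_distrib, hu, hw, Finset.sum_mul_sum, Finset.mul_sum]
    refine Finset.sum_congr rfl fun i _ => ?_
    rw [Finset.mul_sum]
    refine Finset.sum_congr rfl fun j _ => ?_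
    ring
  show Matrix.det _ = _
  rw [Matrix.det_apply', Finset.sum_congr rfl fun σ _ => key σ, Finset.sum_comm]
  refine Finset.sum_congr rfl fun i _ => ?_
  rw [Finset.sum_comm]
  refine Finset.sum_congr rfl fun j _ => ?_
  simp only [Finset.sum_mul]

theorem card_zero [Finite K] (f : K → K → K) (hf : IsBi f) (h : ∃ x y, f x y ≠ 0) (m : ℕ) (hm : 9 ≤ m) :
    Nat.card {x : K // f x (x ^ m) = 0} ≤ 8 + 8 * m := by
  classical
  obtain ⟨a, ha⟩ := hf
  set P : Polynomial K := ∑ i ∈ Finset.range 9, ∑ j ∈ Finset.range 9,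
    Polynomial.C (a i j) * Polynomial.X ^ (i + m * j) with hP
  have hev : ∀ x, P.eval x = f x (x ^ m) := by
    intro x
    rw [ha, hP]
    simp only [Polynomial.eval_finsetSum, Polynomial.eval_mul, Polynomial.eval_C,
      Polynomial.eval_pow, Polynomial.eval_X]
    refine Finset.sum_congr rfl fun i _ => Finset.sum_congr rfl fun j _ => ?_
    rw [pow_add, pow_mul]
    ring
  have hdeg : P.natDegree ≤ 8 + 8 * m := by
    rw [hP]
    refine Polynomial.natDegree_sum_le_of_forall_le _ _ fun i hi => ?_
    refine Polynomial.natDegree_sum_le_of_forall_le _ _ fun j hj => ?_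
    refine (Polynomial.natDegree_C_mul_X_pow_le _ _).trans ?_
    have hi' := Finset.mem_range.1 hi
    have hj' := Finset.mem_range.1 hj
    have : m * j ≤ m * 8 := Nat.mul_le_mul_left m (by omega)
    omega
  have hne : P ≠ 0 := by
    intro h0
    obtain ⟨x, y, hxy⟩ := h
    apply hxy
    have hall : ∀ i ∈ Finset.range 9, ∀ j ∈ Finset.range 9, a i j = 0 := by
      intro i0 hi0 j0 hj0
      have hi1 := Finset.mem_range.1 hi0
      have hj1 := Finset.mem_range.1 hj0
      have hc : P.coeff (i0 + m * j0) = a i0 j0 := by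
        rw [hP]
        simp only [Polynomial.finsetSum_coeff, Polynomial.coeff_C_mul_X_pow]
        rw [Finset.sum_eq_single i0, Finset.sum_eq_single j0]
        · simp
        · intro j hj hne
          rw [if_neg]
          intro he
          have : m * j0 = m * j := by omega
          exact hne (Nat.eq_of_mul_eq_mul_left (by omega) this).symm
        · intro hn
          exact absurd hj0 hn
        · intro i hi hne
          refine Finset.sum_eq_zero fun j hj => ?_
          rw [if_neg]
          intro he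
          have hi2 := Finset.mem_range.1 hi
          have hm1 : (i0 + m * j0) % m = i0 := by
            rw [Nat.add_mul_mod_self_left, Nat.mod_eq_of_lt (by omega)]
          have hm2 : (i + m * j) % m = i := by
            rw [Nat.add_mul_mod_self_left, Nat.mod_eq_of_lt (by omega)]
          rw [he, hm2] at hm1
          exact hne hm1
        · intro hn
          exact absurd hi0 hn
      rw [← hc, h0, Polynomial.coeff_zero]
    rw [ha]
    refine Finset.sum_eq_zero fun i hi => Finset.sum_eq_zero fun j hj => ?_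
    rw [hall i hi j hj]
    ring
  have hsub : {x : K | f x (x ^ m) = 0} ⊆ ((P.roots.toFinset : Finset K) : Set K) := by
    intro x hx
    have hx' : f x (x ^ m) = 0 := hx
    simp only [Finset.mem_coe, Multiset.mem_toFinset]
    rw [Polynomial.mem_roots hne, Polynomial.IsRoot.def, hev]
    exact hx'
  have h1 : Nat.card {x : K // f x (x ^ m) = 0} = Set.ncard {x : K | f x (x ^ m) = 0} := rfl
  rw [h1]
  calc Set.ncard {x : K | f x (x ^ m) = 0}
      ≤ Set.ncard ((P.roots.toFinset : Finset K) : Set K) :=
        Set.ncard_le_ncard hsub (Finset.finite_toSet _)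
    _ = P.roots.toFinset.card := Set.ncard_coe_finset _
    _ ≤ Multiset.card P.roots := Multiset.toFinset_card_le _
    _ ≤ P.natDegree := Polynomial.card_roots' P
    _ ≤ 8 + 8 * m := hdeg

end Pool.Agent.H42.PL
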