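import Pool.Agent.H42.PL.Mnr
import Pool.Agent.H42.PL.Zer

/-!
# PL.BdA : the pairs `(x, x')` with a vanishing determinant

PROOF. Put `m = q ^ c`, `φ = fr ^ c`, so `φ x = x ^ m` (`fr_apply`, iterate), `(Mx η t x x').map φ = Mx (φ η) (φ t) (φ x) (φ x')` (`Mx_map`: `map_add`, `map_mul`, ...). `Mx η t x x'` is affine in `x` and in `x'`: `Mx η t x x' = Mx η t 0 x' + x • (Mx η t 1 x' - Mx η t 0 x')` and the same in `x'` (`Mx_aff`, `Mx_aff'`).
So for fixed `x'` the function `D_{x'} (x, y) = det Kd (Mx η t x x') (Mx η' t' y (x' ^ m))` satisfies `IsBi` (`IsBi_det`, entries of `Kd`: `A (qr ..) (pr ..) * B ..`), and `D' (x', y') = det Kd (Mx η t 1 x') (Mx η' t' 0 y')` too. `D' (0, 0) ≠ 0` (`det_pt` with `η' = φ η`, `t' = φ t`; `1 + η ≠ 0`, `1 + η t ^ 2 ≠ 0`: `-1 = i ^ 2` is a square, `η` is not; `t ≠ 0` and `1 + t ^ 2 ≠ 0` from `GdT`),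
so (`card_zero`) at most `8 + 8 m` values `x'` have `D' (x', x' ^ m) = 0`; for the other `x'` we have `D_{x'} (1, 0) = D' (x', x' ^ m) ≠ 0`, so at most `8 + 8 m` values `x` have `D_{x'} (x, x ^ m) = 0`. Total: `(8 + 8 m) Q + Q (8 + 8 m)`.
-/

set_option autoImplicit false

namespace Pool.Agent.H42.PL

open Module Pool.Agent.H32.UD

variable (F : Type) {K : Type} [Field F] [Field K] [Algebra F K] [Finite F] [Finite K]

theorem Mx_map {R S : Type} [CommRing R] [CommRing S] (φ : R →+* S) (η t x x' : R) :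
    (Mx η t x x').map φ = Mx (φ η) (φ t) (φ x) (φ x') := by
  unfold Mx
  rw [Matrix.map_mul]
  congr 1
  · ext i j
    fin_cases i <;> fin_cases j <;> simp [Lm, vv]
  · ext i j
    fin_cases i <;> fin_cases j <;> simp [Rm, vv]

theorem Mx_aff {R : Type} [CommRing R] (η t x x' : R) :
    Mx η t x x' = Mx η t 0 x' + x • (Mx η t 1 x' - Mx η t 0 x') := by
  have h : Lm η (vv t x) = Lm η (vv t 0) + x • (Lm η (vv t 1) - Lm η (vv t 0)) := by
    ext i j
    fin_cases i <;> fin_cases j <;> simp [Lm, vv] <;> ring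
  unfold Mx
  rw [h, Matrix.add_mul, Matrix.smul_mul, Matrix.sub_mul]

theorem Mx_aff' {R : Type} [CommRing R] (η t x x' : R) :
    Mx η t x x' = Mx η t x 0 + x' • (Mx η t x 1 - Mx η t x 0) := by
  have h : Rm η (vv t x') = Rm η (vv t 0) + x' • (Rm η (vv t 1) - Rm η (vv t 0)) := by
    ext i j
    fin_cases i <;> fin_cases j <;> simp [Rm, vv] <;> ring
  unfold Mx
  rw [h, Matrix.mul_add, Matrix.mul_smul, Matrix.mul_sub]

theorem fr_pow_apply (c : ℕ) (x : K) : (fr F K ^ c) x = x ^ (Nat.card F ^ c) := by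
  induction c with
  | zero => simp
  | succ c ih =>
    rw [pow_succ', AlgEquiv.mul_apply, ih, fr_apply, ← pow_mul, ← pow_succ]

private lemma BdA_bi {L : Type} [Field L] (pr qr : Fin 4 → Fin 2 → Fin 4)
    (A0 A1 B0 B1 : Matrix (Fin 4) (Fin 4) L) :
    IsBi fun x y => (Kd pr qr (A0 + x • A1) (B0 + y • B1)).det := by
  obtain ⟨a, ha⟩ := IsBi_det (fun r s => A0 (qr r.1 r.2) (pr s.1 s.2))
    (fun r s => A1 (qr r.1 r.2) (pr s.1 s.2)) (fun r s => B0 s.1 r.1) (fun r s => B1 s.1 r.1)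
  refine ⟨a, fun x y => ?_⟩
  rw [← ha x y]
  congr 1

private lemma BdA_point {L : Type} [Field L] (η i t : L) (hη : ¬ IsSquare η) (hi : i ^ 2 = -1)
    (ht : GdT i t) :
    η ≠ 0 ∧ t ≠ 0 ∧ 1 + η ≠ 0 ∧ 1 + t ^ 2 ≠ 0 ∧ 1 + η * t ^ 2 ≠ 0 := by
  have ht0 : t ≠ 0 := by
    have h := ht.ne 1
    intro h0
    apply h
    simp [aj, h0]
  refine ⟨?_, ht0, ?_, ?_, ?_⟩
  · rintro rfl
    exact hη ⟨0, by ring⟩
  · intro h
    apply hη
    exact ⟨i, by linear_combination h - hi⟩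
  · have h := ht.ne 2
    simpa [aj] using h
  · intro h
    apply hη
    refine ⟨i / t, ?_⟩
    have h1 : i / t * (i / t) = i ^ 2 / t ^ 2 := by
      field_simp
    rw [h1, hi, eq_div_iff (pow_ne_zero 2 ht0)]
    linear_combination h

theorem card_bad (η i t : K) (hη : ¬ IsSquare η) (hi : i ^ 2 = -1) (ht : GdT i t) (c : ℕ)
    (hc : 9 ≤ Nat.card F ^ c) (pr qr : Fin 4 → Fin 2 → Fin 4) (hp : ∀ l, Function.Injective (pr l))
    (hq : ∀ l, Function.Injective (qr l)) :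
    Nat.card {z : K × K // (Kd pr qr (Mx η t z.1 z.2) ((Mx η t z.1 z.2).map ⇑(fr F K ^ c))).det = 0} ≤
      16 * (1 + Nat.card F ^ c) * Nat.card K := by
  classical
  let _ := Fintype.ofFinite K
  obtain ⟨h0, ht0, h1, h2, h3⟩ := BdA_point η i t hη hi ht
  have hmap : ∀ x x' : K, (Mx η t x x').map ⇑(fr F K ^ c) =
      Mx (η ^ (Nat.card F ^ c)) (t ^ (Nat.card F ^ c)) (x ^ (Nat.card F ^ c))
        (x' ^ (Nat.card F ^ c)) := by
    intro x x'
    have h := Mx_map (((fr F K ^ c : K ≃ₐ[F] K) : K →ₐ[F] K) : K →+* K) η t x x'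
    have e : ∀ y : K, (((fr F K ^ c : K ≃ₐ[F] K) : K →ₐ[F] K) : K →+* K) y =
        y ^ (Nat.card F ^ c) := fun y => fr_pow_apply F c y
    rw [e, e, e, e] at h
    exact h
  set m : ℕ := Nat.card F ^ c with hm
  set η' : K := η ^ m with hη'
  set t' : K := t ^ m with ht'
  -- the values x'
  let D' : K → K → K := fun x y => (Kd pr qr (Mx η t 1 x) (Mx η' t' 0 y)).det
  have hbi' : IsBi D' := by
    have h := BdA_bi pr qr (Mx η t 1 0) (Mx η t 1 1 - Mx η t 1 0) (Mx η' t' 0 0)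
      (Mx η' t' 0 1 - Mx η' t' 0 0)
    simp only [← Mx_aff'] at h
    exact h
  have hD0 : D' 0 0 ≠ 0 := det_pt η t η' t' h0 ht0 h1 h2 h3 pr qr hp hq
  have hS := card_zero D' hbi' ⟨0, 0, hD0⟩ m hc
  -- the values x
  have hx : ∀ x' : K, D' x' (x' ^ m) ≠ 0 → Nat.card {x : K //
      (Kd pr qr (Mx η t x x') ((Mx η t x x').map ⇑(fr F K ^ c))).det = 0} ≤ 8 + 8 * m := by
    intro x' hx'
    have h := BdA_bi pr qr (Mx η t 0 x') (Mx η t 1 x' - Mx η t 0 x') (Mx η' t' 0 (x' ^ m))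
      (Mx η' t' 1 (x' ^ m) - Mx η' t' 0 (x' ^ m))
    simp only [← Mx_aff] at h
    have h4 := card_zero _ h ⟨1, 0, hx'⟩ m hc
    refine le_trans (le_of_eq (Nat.card_congr (Equiv.subtypeEquivRight fun x => ?_))) h4
    rw [hmap]
  -- counting
  let e : {z : K × K // (Kd pr qr (Mx η t z.1 z.2) ((Mx η t z.1 z.2).map ⇑(fr F K ^ c))).det = 0} ≃
      Σ x' : K, {x : K // (Kd pr qr (Mx η t x x') ((Mx η t x x').map ⇑(fr F K ^ c))).det = 0} :=
    { toFun := fun z => ⟨z.1.2, z.1.1, z.2⟩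
      invFun := fun w => ⟨(w.2.1, w.1), w.2.2⟩
      left_inv := fun z => rfl
      right_inv := fun w => rfl }
  rw [Nat.card_congr e, Nat.card_sigma]
  have hle : ∀ x' : K, Nat.card {x : K //
      (Kd pr qr (Mx η t x x') ((Mx η t x x').map ⇑(fr F K ^ c))).det = 0} ≤
      (if D' x' (x' ^ m) = 0 then Nat.card K else 0) + (8 + 8 * m) := by
    intro x'
    split_ifs with h
    · exact (Nat.card_le_card_of_injective _ Subtype.val_injective).trans (Nat.le_add_right _ _)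
    · rw [zero_add]
      exact hx x' h
  refine (Finset.sum_le_sum fun x' _ => hle x').trans ?_
  rw [Finset.sum_add_distrib, ← Finset.sum_filter, Finset.sum_const, Finset.sum_const,
    Finset.card_univ, ← Nat.card_eq_fintype_card, smul_eq_mul, smul_eq_mul]
  have hS' : (Finset.univ.filter fun x' : K => D' x' (x' ^ m) = 0).card ≤ 8 + 8 * m := by
    rw [Nat.card_eq_fintype_card, Fintype.card_subtype] at hS
    exact hS
  calc (Finset.univ.filter fun x' : K => D' x' (x' ^ m) = 0).card * Nat.card K +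
        Nat.card K * (8 + 8 * m)
      ≤ (8 + 8 * m) * Nat.card K + Nat.card K * (8 + 8 * m) :=
        Nat.add_le_add_right (Nat.mul_le_mul_right _ hS') _
    _ = 16 * (1 + m) * Nat.card K := by ring

end Pool.Agent.H42.PL
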