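import Pool.Agent.H45.WB.Chs

/-!
# PL.ChA : counting the points with given quadratic characters

PROOF. `char_sum` in `Pool/Agent/H45/WB/Chs.lean`. Let `N` be the number of `x` with `χ (f_b x) = e_b` for all `b`, `Q = card K`. Expand (`Finset.prod_one_add` or `Finset.prod_add`): `∑_x ∏_b (1 + e_b χ (f_b x)) = ∑_{A ⊆ Fin 6} (∏_{b ∈ A} e_b) ∑_x χ ((∏_{b ∈ A} f_b) x)` (`χ = quadraticChar K` is multiplicative, `Polynomial.eval_prod`).
`A = ∅` gives `Q`; each of the `63` other terms is at most `11 * 18 * √Q = 198 √Q` (`64 * 19 ^ 2 ≤ Q`). The left side: `x` counted by `N` contributes `64`; an `x` with all `f_b x ≠ 0` not counted contributes `0` (some factor is `1 - 1`); the `x` with some `f_b x = 0` are roots of `∏_b f_b`, at most `18`, each contributes at most `64`.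
So `Q - 63 * 198 √Q ≤ 64 N + 64 * 18`, and for `Q ≥ 2 ^ 30` (`√Q ≥ 2 ^ 15`): `12474 √Q + 1152 ≤ 12475 √Q ≤ Q / 2`, so `Q / 2 ≤ 64 N`.
-/

set_option autoImplicit false

namespace Pool.Agent.H42.PL

open Polynomial

/-- the factor `1 + e_b χ (f_b x)` -/
private noncomputable def chaF {K : Type} [Field K] [Fintype K] [DecidableEq K] (f : Fin 6 → K[X])
    (e : Fin 6 → ℤ) (x : K) (b : Fin 6) : ℝ :=
  1 + ((e b * quadraticChar K ((f b).eval x) : ℤ) : ℝ)

private theorem chaF_mem {K : Type} [Field K] [Fintype K] [DecidableEq K] (f : Fin 6 → K[X])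
    (e : Fin 6 → ℤ) (he : ∀ b, e b = 1 ∨ e b = -1) (x : K) (b : Fin 6) :
    0 ≤ chaF f e x b ∧ chaF f e x b ≤ 2 ∧ ((f b).eval x ≠ 0 → quadraticChar K ((f b).eval x) ≠ e b →
      chaF f e x b = 0) := by
  unfold chaF
  by_cases hx : (f b).eval x = 0
  · rw [hx, quadraticChar_zero]
    refine ⟨by norm_num, by norm_num, fun h => absurd rfl h⟩
  · rcases quadraticChar_dichotomy hx with h | h <;> rcases he b with h' | h' <;> rw [h, h'] <;>
      norm_num

private theorem cha_prod {K : Type} [Field K] [Fintype K] [DecidableEq K] (f : Fin 6 → K[X])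
    (e : Fin 6 → ℤ) (x : K) :
    ∏ b, chaF f e x b = ∑ A : Finset (Fin 6), ((∏ b ∈ A, e b : ℤ) : ℝ) *
      ((quadraticChar K ((∏ b ∈ A, f b).eval x) : ℤ) : ℝ) := by
  unfold chaF
  rw [Finset.prod_one_add, Finset.powerset_univ]
  refine Finset.sum_congr rfl fun A _ => ?_
  rw [eval_prod, map_prod, ← Int.cast_mul, ← Finset.prod_mul_distrib, ← Int.cast_prod]

theorem count_chi {K : Type} [Field K] [Fintype K] [DecidableEq K] (hodd : ringChar K ≠ 2) (f : Fin 6 → K[X])
    (e : Fin 6 → ℤ) (he : ∀ b, e b = 1 ∨ e b = -1)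
    (hf : ∀ A : Finset (Fin 6), A.Nonempty → Squarefree (∏ b ∈ A, f b) ∧ 1 ≤ (∏ b ∈ A, f b).natDegree ∧
      (∏ b ∈ A, f b).natDegree ≤ 18) (hQ : 2 ^ 30 ≤ Fintype.card K) :
    Fintype.card K ≤ 128 * (Finset.univ.filter fun x => ∀ b, quadraticChar K ((f b).eval x) = e b).card := by
  set N := (Finset.univ.filter fun x => ∀ b, quadraticChar K ((f b).eval x) = e b).card with hN
  set Q := Fintype.card K with hQd
  have hQ' : (1073741824 : ℝ) ≤ (Q : ℝ) := by
    have h : (1073741824 : ℕ) ≤ Q := by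
      have : (1073741824 : ℕ) = 2 ^ 30 := by norm_num
      rw [this]
      exact hQ
    exact_mod_cast h
  have hs : (32768 : ℝ) ≤ √(Q : ℝ) := by
    apply Real.le_sqrt_of_sq_le
    linarith
  have hss : √(Q : ℝ) * √(Q : ℝ) = Q := Real.mul_self_sqrt (Nat.cast_nonneg Q)
  have hs0 : 0 ≤ √(Q : ℝ) := Real.sqrt_nonneg _
  -- lower bound
  have hlow : (Q : ℝ) - 63 * (198 * √(Q : ℝ)) ≤ ∑ x : K, ∏ b, chaF f e x b := by
    rw [Finset.sum_congr rfl fun x _ => cha_prod f e x, Finset.sum_comm,
      ← Finset.add_sum_erase _ _ (Finset.mem_univ (∅ : Finset (Fin 6)))]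
    have h1 : ∑ x : K, ((∏ b ∈ (∅ : Finset (Fin 6)), e b : ℤ) : ℝ) *
        ((quadraticChar K ((∏ b ∈ (∅ : Finset (Fin 6)), f b).eval x) : ℤ) : ℝ) = Q := by
      simp [hQd]
    have h2 : -(63 * (198 * √(Q : ℝ))) ≤ ∑ A ∈ (Finset.univ : Finset (Finset (Fin 6))).erase ∅,
        ∑ x : K, ((∏ b ∈ A, e b : ℤ) : ℝ) *
          ((quadraticChar K ((∏ b ∈ A, f b).eval x) : ℤ) : ℝ) := by
      have h3 : ((Finset.univ : Finset (Finset (Fin 6))).erase ∅).card = 63 := by
        rw [Finset.card_erase_of_mem (Finset.mem_univ _), Finset.card_univ, Fintype.card_finset,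
          Fintype.card_fin]
        norm_num
      have h4 : ((Finset.univ : Finset (Finset (Fin 6))).erase ∅).card • (-(198 * √(Q : ℝ))) ≤
          ∑ A ∈ (Finset.univ : Finset (Finset (Fin 6))).erase ∅,
            ∑ x : K, ((∏ b ∈ A, e b : ℤ) : ℝ) *
              ((quadraticChar K ((∏ b ∈ A, f b).eval x) : ℤ) : ℝ) := by
        refine Finset.card_nsmul_le_sum _ _ _ fun A hA => ?_
        have hA' : A.Nonempty := Finset.nonempty_iff_ne_empty.2 (Finset.ne_of_mem_erase hA)
        obtain ⟨g1, g2, g3⟩ := hf A hA'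
        have hdeg : 64 * ((∏ b ∈ A, f b).natDegree + 1) ^ 2 ≤ Fintype.card K := by
          have h5 : ((∏ b ∈ A, f b).natDegree + 1) ^ 2 ≤ 19 ^ 2 := Nat.pow_le_pow_left (by omega) 2
          calc 64 * ((∏ b ∈ A, f b).natDegree + 1) ^ 2 ≤ 64 * 19 ^ 2 := Nat.mul_le_mul_left _ h5
            _ ≤ 2 ^ 30 := by norm_num
            _ ≤ _ := hQ
        have h6 := Pool.Agent.H45.WB.char_sum hodd (∏ b ∈ A, f b) g1 g2 hdeg
        rw [← Finset.mul_sum]
        have h7 : |((∏ b ∈ A, e b : ℤ) : ℝ)| = 1 := by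
          rw [← Int.cast_abs, Finset.abs_prod, Finset.prod_eq_one, Int.cast_one]
          intro b _
          rcases he b with h | h <;> rw [h] <;> rfl
        have h8 : |((∏ b ∈ A, e b : ℤ) : ℝ) *
            ∑ x : K, ((quadraticChar K ((∏ b ∈ A, f b).eval x) : ℤ) : ℝ)| ≤ 198 * √(Q : ℝ) := by
          rw [abs_mul, h7, one_mul]
          refine h6.trans ?_
          have h9 : ((∏ b ∈ A, f b).natDegree : ℝ) ≤ 18 := by exact_mod_cast g3
          have h10 : 11 * ((∏ b ∈ A, f b).natDegree : ℝ) ≤ 198 := by linarith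
          exact mul_le_mul_of_nonneg_right h10 hs0
        exact (abs_le.1 h8).1
      rw [h3, nsmul_eq_mul] at h4
      have h5 : ((63 : ℕ) : ℝ) * (-(198 * √(Q : ℝ))) = -(63 * (198 * √(Q : ℝ))) := by
        push_cast
        ring
      rw [h5] at h4
      exact h4
    rw [h1]
    linarith
  -- upper bound
  have hup : ∑ x : K, ∏ b, chaF f e x b ≤ 64 * N + 64 * 18 := by
    obtain ⟨g1, g2, g3⟩ := hf Finset.univ Finset.univ_nonempty
    have hne := g1.ne_zero
    set Z := Finset.univ.filter fun x : K => (∏ b, f b).eval x = 0 with hZ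
    have hZc : Z.card ≤ 18 := by
      have h1 : Z ⊆ (∏ b, f b).roots.toFinset := by
        intro x hx
        rw [Multiset.mem_toFinset, mem_roots hne]
        exact (Finset.mem_filter.1 hx).2
      exact ((Finset.card_le_card h1).trans ((Multiset.toFinset_card_le _).trans
        (card_roots' _))).trans g3
    have h1 : ∀ x : K, ∏ b, chaF f e x b ≤
        64 * (if ∀ b, quadraticChar K ((f b).eval x) = e b then (1 : ℝ) else 0) +
        64 * (if (∏ b, f b).eval x = 0 then (1 : ℝ) else 0) := by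
      intro x
      have h64 : ∏ b, chaF f e x b ≤ 64 := by
        calc ∏ b, chaF f e x b ≤ ∏ _b : Fin 6, (2 : ℝ) :=
              Finset.prod_le_prod (fun b _ => (chaF_mem f e he x b).1)
                fun b _ => (chaF_mem f e he x b).2.1
          _ = 64 := by
              rw [Finset.prod_const, Finset.card_univ, Fintype.card_fin]
              norm_num
      by_cases hx : (∏ b, f b).eval x = 0
      · rw [if_pos hx]
        split_ifs <;> linarith
      · rw [if_neg hx]
        by_cases hx' : ∀ b, quadraticChar K ((f b).eval x) = e b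
        · rw [if_pos hx']
          linarith
        · rw [if_neg hx']
          push Not at hx'
          obtain ⟨b, hb⟩ := hx'
          have h2 : (f b).eval x ≠ 0 := by
            intro h
            apply hx
            rw [eval_prod]
            exact Finset.prod_eq_zero (Finset.mem_univ b) h
          have h3 : ∏ b, chaF f e x b = 0 :=
            Finset.prod_eq_zero (Finset.mem_univ b) ((chaF_mem f e he x b).2.2 h2 hb)
          rw [h3]
          norm_num
    refine (Finset.sum_le_sum fun x _ => h1 x).trans ?_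
    rw [Finset.sum_add_distrib, ← Finset.mul_sum, ← Finset.mul_sum]
    have h2 : ∑ x : K, (if ∀ b, quadraticChar K ((f b).eval x) = e b then (1 : ℝ) else 0) = N := by
      rw [hN, Finset.card_filter]
      push_cast
      rfl
    have h3 : ∑ x : K, (if (∏ b, f b).eval x = 0 then (1 : ℝ) else 0) = Z.card := by
      rw [hZ, Finset.card_filter]
      push_cast
      rfl
    rw [h2, h3]
    have h4 : (Z.card : ℝ) ≤ 18 := by exact_mod_cast hZc
    linarith
  have h5 : (Q : ℝ) ≤ 128 * N := by nlinarith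
  exact_mod_cast h5

end Pool.Agent.H42.PL
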