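import Pool.Agent.H42.PL.Defs

/-!
# PL.Cof : `End_F (K ^ 4) = ⨁ M_4 (K) fr ^ c`

PROOF. Compare `Pool/Agent/H32/UD/Dec.lean` (the same for `E` of degree `2 r`, index set `ZMod (2 r)`; here the index set is `Finset.range n`, `n = finrank F K`, and nothing about `c + d` is needed).
One dimensional case: the map `(Fin n → K) → (K →ₗ[F] K)`, `a ↦ ∑ c, a c * fr ^ c` is `F`-linear and injective (`linearIndependent_monoidHom K K`; the `fr ^ c`, `c < n = orderOf (fr F K)` (`orderOf_fr`), are distinct), both sides have `F`-dimension `n ^ 2`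
(`Module.finrank_linearMap`), so it is bijective.
`exists_cof`: apply this to the sixteen maps `K → K`, `x ↦ (y (Pi.single l x)) m`, and `y x = ∑ l, y (Pi.single l (x l))` (`LinearMap.pi_apply_eq_sum_univ`, `Finset.univ_sum_single`). `cof_unique`: `x = Pi.single l k`, component `m`. `ev_left`: `Matrix.mulVec_mulVec`, `Matrix.mulVec_sum` (`Matrix.mulVecLin`, `map_sum`).
`ev_right`: `(fr ^ c) ((M.mulVec x) l) = ((M.map (fr ^ c)).mulVec ((fr ^ c) ∘ x)) l` (`map_sum`, `map_mul`) and `Matrix.mulVec_mulVec`.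
-/

set_option autoImplicit false

namespace Pool.Agent.H42.PL

open Module Pool.Agent.H32.UD

variable (F : Type) {K : Type} [Field F] [Field K] [Algebra F K] [Finite F] [Finite K]

/-- one dimensional case: the map from the coefficients -/
private noncomputable def cofPhi : (Fin (finrank F K) → K) →ₗ[F] (K →ₗ[F] K) where
  toFun a := ∑ c, (LinearMap.mulLeft F (a c)) ∘ₗ (fr F K ^ (c : ℕ)).toLinearMap
  map_add' a b := by
    rw [← Finset.sum_add_distrib]
    refine Finset.sum_congr rfl fun c _ => ?_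
    ext x
    simp [add_mul]
  map_smul' t a := by
    rw [RingHom.id_apply, Finset.smul_sum]
    refine Finset.sum_congr rfl fun c _ => ?_
    ext x
    simp

private theorem cofPhi_apply (a : Fin (finrank F K) → K) (x : K) :
    cofPhi F a x = ∑ c, a c * (fr F K ^ (c : ℕ)) x := by
  show (∑ c, (LinearMap.mulLeft F (a c)) ∘ₗ (fr F K ^ (c : ℕ)).toLinearMap) x = _
  rw [LinearMap.sum_apply]
  rfl

private theorem cof_fin : Module.Finite F K := Module.Finite.of_finite

private theorem cofPhi_inj : Function.Injective (cofPhi F (K := K)) := by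
  rw [← LinearMap.ker_eq_bot, LinearMap.ker_eq_bot']
  intro a ha
  have hli := linearIndependent_monoidHom K K
  have hinj : Function.Injective fun c : Fin (finrank F K) =>
      ((fr F K ^ (c : ℕ) : K ≃ₐ[F] K) : K →* K) := by
    intro c d h
    have h1 : fr F K ^ (c : ℕ) = fr F K ^ (d : ℕ) := by
      ext x
      exact DFunLike.congr_fun h x
    have ho := orderOf_fr F K
    apply Fin.ext
    exact (pow_injOn_Iio_orderOf (x := fr F K)) (by simpa [ho] using c.2) (by simpa [ho] using d.2) h1
  have hli2 := hli.comp _ hinj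
  rw [Fintype.linearIndependent_iff] at hli2
  have h1 : ∑ c, a c • (((fun f : K →* K => (f : K → K)) ∘ fun c : Fin (finrank F K) =>
      ((fr F K ^ (c : ℕ) : K ≃ₐ[F] K) : K →* K)) c) = 0 := by
    ext x
    have h2 := LinearMap.congr_fun ha x
    rw [cofPhi_apply, LinearMap.zero_apply] at h2
    rw [Finset.sum_apply]
    exact h2
  ext c
  exact hli2 a h1 c

private theorem cofPhi_surj : Function.Surjective (cofPhi F (K := K)) := by
  have h1 : Module.Finite F K := cof_fin F
  have h2 : finrank F (Fin (finrank F K) → K) = finrank F (K →ₗ[F] K) := by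
    rw [Module.finrank_pi_fintype, Finset.sum_const, Finset.card_univ, Fintype.card_fin,
      Module.finrank_linearMap, smul_eq_mul]
  exact (LinearMap.injective_iff_surjective_of_finrank_eq_finrank h2).1 (cofPhi_inj F)

private theorem cof_one (f : K →ₗ[F] K) : ∃ a : ℕ → K, ∀ x, f x =
    ∑ c ∈ Finset.range (finrank F K), a c * (fr F K ^ c) x := by
  obtain ⟨a, ha⟩ := cofPhi_surj F f
  refine ⟨fun c => if h : c < finrank F K then a ⟨c, h⟩ else 0, fun x => ?_⟩
  rw [← ha, cofPhi_apply, Finset.sum_range]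
  refine Finset.sum_congr rfl fun c _ => ?_
  have h1 : (if h : (c : ℕ) < finrank F K then a ⟨(c : ℕ), h⟩ else 0) = a c := dif_pos c.2
  exact congrArg (fun z => z * (fr F K ^ (c : ℕ)) x) h1.symm

private theorem cof_one_unique (a b : ℕ → K) (h : ∀ x, ∑ c ∈ Finset.range (finrank F K), a c * (fr F K ^ c) x =
    ∑ c ∈ Finset.range (finrank F K), b c * (fr F K ^ c) x) : ∀ c < finrank F K, a c = b c := by
  intro c hc
  have h1 : cofPhi F (fun c : Fin (finrank F K) => a c) = cofPhi F (fun c : Fin (finrank F K) => b c) := by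
    refine LinearMap.ext fun x => ?_
    rw [cofPhi_apply, cofPhi_apply]
    have := h x
    rw [Finset.sum_range, Finset.sum_range] at this
    exact this
  exact congrFun (cofPhi_inj F h1) ⟨c, hc⟩

private theorem ev_apply (a : ℕ → Matrix (Fin 4) (Fin 4) K) (x : V4 K) (m : Fin 4) :
    ev F a x m = ∑ c ∈ Finset.range (finrank F K), ∑ l, a c m l * (fr F K ^ c) (x l) := by
  unfold ev
  rw [Finset.sum_apply]
  rfl

theorem exists_cof (y : V4 K →ₗ[F] V4 K) :
    ∃ a : ℕ → Matrix (Fin 4) (Fin 4) K, ∀ x, y x = ev F a x := by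
  have h1 : ∀ m l : Fin 4, ∃ a : ℕ → K, ∀ x : K, (y (Pi.single l x)) m =
      ∑ c ∈ Finset.range (finrank F K), a c * (fr F K ^ c) x := by
    intro m l
    obtain ⟨a, ha⟩ := cof_one F ((LinearMap.proj m) ∘ₗ y ∘ₗ (LinearMap.single F (fun _ : Fin 4 => K) l))
    exact ⟨a, ha⟩
  choose a ha using h1
  refine ⟨fun c => Matrix.of fun m l => a m l c, fun x => ?_⟩
  ext m
  rw [ev_apply, Finset.sum_comm]
  have h2 : x = ∑ l, Pi.single l (x l) := (Finset.univ_sum_single x).symm
  conv_lhs => rw [h2, map_sum, Finset.sum_apply]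
  refine Finset.sum_congr rfl fun l _ => ?_
  rw [ha]
  rfl

theorem cof_unique {a b : ℕ → Matrix (Fin 4) (Fin 4) K} (h : ∀ x : V4 K, ev F a x = ev F b x) :
    ∀ c < finrank F K, a c = b c := by
  have key : ∀ (a : ℕ → Matrix (Fin 4) (Fin 4) K) (m l : Fin 4) (k : K),
      ev F a (Pi.single l k) m = ∑ c ∈ Finset.range (finrank F K), a c m l * (fr F K ^ c) k := by
    intro a m l k
    rw [ev_apply]
    refine Finset.sum_congr rfl fun c _ => ?_
    rw [Finset.sum_eq_single l]
    · rw [Pi.single_eq_same]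
    · intro l' _ hl
      rw [Pi.single_eq_of_ne hl, map_zero, mul_zero]
    · intro hl
      exact absurd (Finset.mem_univ l) hl
  intro c hc
  ext m l
  refine cof_one_unique F (fun c => a c m l) (fun c => b c m l) (fun k => ?_) c hc
  rw [← key, ← key, h]

theorem ev_left (M : Matrix (Fin 4) (Fin 4) K) (a : ℕ → Matrix (Fin 4) (Fin 4) K) (x : V4 K) :
    M.mulVec (ev F a x) = ev F (fun c => M * a c) x := by
  unfold ev
  rw [← Matrix.mulVecLin_apply, map_sum]
  refine Finset.sum_congr rfl fun c _ => ?_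
  rw [Matrix.mulVecLin_apply, Matrix.mulVec_mulVec]

theorem ev_right (M : Matrix (Fin 4) (Fin 4) K) (a : ℕ → Matrix (Fin 4) (Fin 4) K) (x : V4 K) :
    ev F a (M.mulVec x) = ev F (fun c => a c * M.map (fr F K ^ c)) x := by
  unfold ev
  refine Finset.sum_congr rfl fun c _ => ?_
  rw [← Matrix.mulVec_mulVec]
  congr 1
  ext l
  show (fr F K ^ c) (∑ j, M l j * x j) = ∑ j, (fr F K ^ c) (M l j) * (fr F K ^ c) (x j)
  rw [map_sum]
  exact Finset.sum_congr rfl fun j _ => map_mul _ _ _

theorem ev_congr {a b : ℕ → Matrix (Fin 4) (Fin 4) K} (h : ∀ c < finrank F K, a c = b c) (x : V4 K) :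
    ev F a x = ev F b x := by
  unfold ev
  refine Finset.sum_congr rfl fun c hc => ?_
  rw [h c (Finset.mem_range.1 hc)]

/-- if only the coefficient at `c = 0` is there then the map is `K`-linear -/
theorem ev_zero {a : ℕ → Matrix (Fin 4) (Fin 4) K} (h : ∀ c < finrank F K, c ≠ 0 → a c = 0) (x : V4 K) :
    ev F a x = (a 0).mulVec x := by
  have hfin : Module.Finite F K := cof_fin F
  have hpos : 0 < finrank F K := Module.finrank_pos
  unfold ev
  rw [Finset.sum_eq_single 0]
  · congr 1
  · intro c hc h0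
    rw [h c (Finset.mem_range.1 hc) h0, Matrix.zero_mulVec]
  · intro h0
    exact absurd (Finset.mem_range.2 hpos) h0

end Pool.Agent.H42.PL
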