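import Pool.Agent.H42.PL.SupK

/-!
# PL.Jnc : a `K`-linear element which normalises an algebra commutes up to sign with one of the `Jd i`

PROOF. Let `y x = A.mulVec x`: this is `ev F a` with `a 0 = A`, `a c = 0` for `c ≠ 0` (`ev_zero`; `0 < finrank F K`). `det A ≠ 0` as `y` is bijective, so (`Matrix.det_apply`, `Finset.exists_ne_zero_of_sum_ne_zero`) there is a permutation `π` with `A (π l) l ≠ 0` for all `l`.
Case `NJ`: this is the claim for `i = 0`. Case `NorK p j`: `NorK_supp` at `c = 0` gives `s` with `A m l ≠ 0 → sg l = s + sg m` in `ZMod p`. Sum over `l` with `m = π l`: `4 s = 0` in `ZMod p`.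
`p` odd: `s = 0` (`p` does not divide `4`). If `(j : ZMod p) = 0` then `sg = (0, 1, 0, 1)`, so `A m l ≠ 0` implies `Jh 1 m = Jh 1 l`: `y` commutes with `Jd 1`. If `(j : ZMod p) ≠ 0`: `sg 0 ≠ sg 1`, `sg 0 ≠ sg 2`, `sg 1 ≠ sg 3`, `sg 2 ≠ sg 3`, so `A m l ≠ 0` implies `m = l` or `{m, l} = {0, 3}` or `{m, l} = {1, 2}`:
`Jh 2 m = Jh 2 l`, `y` commutes with `Jd 2`. `p = 2`: `j = 0` in `ZMod 2`: `A m l ≠ 0` implies `sg l = s + sg m`, and `Jh 1 m = (-1)^(sg m)`: commutes (`s = 0`) or anticommutes (`s = 1`) with `Jd 1`; `j = 1` in `ZMod 2`: `sg = (0, 1, 1, 0)`, the same with `Jd 2`.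
(From the entries to the operators: `y (Jd i x) = ± Jd i (y x)` componentwise: `∑ l, A m l * (Jh i l * x l) = ± Jh i m * ∑ l, A m l * x l`.)
-/

set_option autoImplicit false

namespace Pool.Agent.H42.PL

open Module Pool.Agent.H32.UD

variable (F : Type) {K : Type} [Field F] [Field K] [Algebra F K] [Finite F] [Finite K]

theorem Jd_of_supp (A : Matrix (Fin 4) (Fin 4) K) (i : Fin 3) (ε : ℤ)
    (h : ∀ m l, A m l ≠ 0 → Jh i l = ε * Jh i m) (x : V4 K) :
    A.mulVec (Jd i x) = (ε : K) • Jd i (A.mulVec x) := by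
  funext m
  rw [Pi.smul_apply, smul_eq_mul]
  show ∑ l, A m l * ((Jh i l : K) * x l) = (ε : K) * ((Jh i m : K) * ∑ l, A m l * x l)
  rw [Finset.mul_sum, Finset.mul_sum]
  refine Finset.sum_congr rfl fun l _ => ?_
  by_cases h0 : A m l = 0
  · rw [h0]
    ring
  · rw [h m l h0]
    push_cast
    ring

private def sgv {R : Type} [CommRing R] (t : R) : Fin 4 → R := ![0, 1, t, t + 1]

private theorem sg_cast (p j : ℕ) (m : Fin 4) : ((sg j m : ℕ) : ZMod p) = sgv (j : ZMod p) m := by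
  fin_cases m <;> simp [sg, sgv]

private theorem supp_odd0 {R : Type} [Field R] (m l : Fin 4) (h : sgv (0 : R) l = sgv (0 : R) m) :
    Jh 1 l = 1 * Jh 1 m := by
  have h01 : (0 : R) ≠ 1 := zero_ne_one
  have h10 : (1 : R) ≠ 0 := one_ne_zero
  fin_cases m <;> fin_cases l <;> simp [sgv, Jh] at h ⊢

private theorem supp_odd1 {R : Type} [Field R] {t : R} (ht : t ≠ 0) (m l : Fin 4)
    (h : sgv t l = sgv t m) : Jh 2 l = 1 * Jh 2 m := by
  fin_cases m <;> fin_cases l <;> simp [sgv, Jh, ht, Ne.symm ht] at h ⊢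

private theorem supp_two0 : ∀ s : ZMod 2, ∃ ε : ℤ, (ε = 1 ∨ ε = -1) ∧ ∀ m l : Fin 4,
    sgv (0 : ZMod 2) l = s + sgv (0 : ZMod 2) m → Jh 1 l = ε * Jh 1 m := by
  intro s
  fin_cases s
  · exact ⟨1, Or.inl rfl, by decide⟩
  · exact ⟨-1, Or.inr rfl, by decide⟩

private theorem supp_two1 : ∀ s : ZMod 2, ∃ ε : ℤ, (ε = 1 ∨ ε = -1) ∧ ∀ m l : Fin 4,
    sgv (1 : ZMod 2) l = s + sgv (1 : ZMod 2) m → Jh 2 l = ε * Jh 2 m := by
  intro s
  fin_cases s
  · exact ⟨1, Or.inl rfl, by decide⟩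
  · exact ⟨-1, Or.inr rfl, by decide⟩

private theorem two_cases : ∀ t : ZMod 2, t = 0 ∨ t = 1 := by decide

private theorem concl (A : Matrix (Fin 4) (Fin 4) K) (i : Fin 3) (ε : ℤ) (hε : ε = 1 ∨ ε = -1)
    (h : ∀ m l, A m l ≠ 0 → Jh i l = ε * Jh i m) :
    (∀ x, A.mulVec (Jd i x) = Jd i (A.mulVec x)) ∨ (∀ x, A.mulVec (Jd i x) = -Jd i (A.mulVec x)) := by
  rcases hε with rfl | rfl
  · left
    intro x
    rw [Jd_of_supp A i 1 h x, Int.cast_one, one_smul]
  · right
    intro x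
    rw [Jd_of_supp A i (-1) h x, Int.cast_neg, Int.cast_one, neg_smul, one_smul]

theorem Nrm_Jd (y : V4 K ≃ₗ[F] V4 K) (A : Matrix (Fin 4) (Fin 4) K) (hA : ∀ x, y x = A.mulVec x)
    (h : Nrm F y) :
    ∃ i : Fin 3, (∀ x, A.mulVec (Jd i x) = Jd i (A.mulVec x)) ∨ (∀ x, A.mulVec (Jd i x) = -Jd i (A.mulVec x)) := by
  rcases h with h | ⟨p, j, hp, hpn, h⟩
  · refine ⟨0, ?_⟩
    rcases h with h | h
    · left
      intro x
      rw [← hA, ← hA, h]
    · right
      intro x
      rw [← hA, ← hA, h]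
  · have : Fact p.Prime := ⟨hp⟩
    have hpos : 0 < finrank F K := finrank_pos
    let a : ℕ → Matrix (Fin 4) (Fin 4) K := fun c => if c = 0 then A else 0
    have ha : ∀ x, y x = ev F a x := by
      intro x
      rw [hA, ev_zero F (a := a) (fun c _ hc => if_neg hc)]
      rfl
    obtain ⟨s, hs⟩ := NorK_supp F hp hpn y a ha h
    have hs' : ∀ m l, A m l ≠ 0 → sgv (j : ZMod p) l = s + sgv (j : ZMod p) m := by
      intro m l hml
      have h1 := hs 0 hpos m l hml
      rwa [Nat.cast_zero, zero_add, sg_cast, sg_cast] at h1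
    -- a permutation in the support
    have hinj : Function.Injective A.mulVec := by
      intro x x' hxx
      apply y.injective
      rw [hA, hA]
      exact hxx
    have hdet : A.det ≠ 0 := by
      have h1 : IsUnit A := Matrix.mulVec_injective_iff_isUnit.1 hinj
      exact ((Matrix.isUnit_iff_isUnit_det A).1 h1).ne_zero
    obtain ⟨π, hπ⟩ : ∃ π : Equiv.Perm (Fin 4), ∀ l, A (π l) l ≠ 0 := by
      rw [Matrix.det_apply] at hdet
      obtain ⟨π, -, h1⟩ := Finset.exists_ne_zero_of_sum_ne_zero hdet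
      refine ⟨π, fun l hl => h1 ?_⟩
      have h2 : ∏ i, A (π i) i = 0 := Finset.prod_eq_zero (i := l) (Finset.mem_univ l) hl
      rw [h2, smul_zero]
    have h4 : (4 : ZMod p) * s = 0 := by
      have h1 : ∑ l, sgv (j : ZMod p) l = ∑ l, (s + sgv (j : ZMod p) (π l)) :=
        Finset.sum_congr rfl fun l _ => hs' _ _ (hπ l)
      rw [Finset.sum_add_distrib, Equiv.sum_comp π (sgv (j : ZMod p)), Finset.sum_const,
        Finset.card_univ, Fintype.card_fin, nsmul_eq_mul] at h1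
      have h2 : ((4 : ℕ) : ZMod p) * s = 0 := by linear_combination -h1
      exact_mod_cast h2
    by_cases hp2 : p = 2
    · subst hp2
      have hj : (j : ZMod 2) = 0 ∨ (j : ZMod 2) = 1 := two_cases _
      rcases hj with hj | hj
      · rw [hj] at hs'
        obtain ⟨ε, hε, h1⟩ := supp_two0 s
        exact ⟨1, concl A 1 ε hε fun m l hml => h1 m l (hs' m l hml)⟩
      · rw [hj] at hs'
        obtain ⟨ε, hε, h1⟩ := supp_two1 s
        exact ⟨2, concl A 2 ε hε fun m l hml => h1 m l (hs' m l hml)⟩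
    · have h2 : (2 : ZMod p) ≠ 0 := by
        intro h0
        have h1 : ((2 : ℕ) : ZMod p) = 0 := by exact_mod_cast h0
        rw [ZMod.natCast_eq_zero_iff] at h1
        exact hp2 ((Nat.prime_dvd_prime_iff_eq hp Nat.prime_two).1 h1)
      have hs0 : s = 0 := by
        have h1 : (4 : ZMod p) = 2 * 2 := by norm_num
        rw [h1] at h4
        exact (mul_eq_zero.1 h4).resolve_left (mul_ne_zero h2 h2)
      rw [hs0] at hs'
      simp only [zero_add] at hs'
      by_cases hj : (j : ZMod p) = 0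
      · rw [hj] at hs'
        exact ⟨1, concl A 1 1 (Or.inl rfl) fun m l hml => supp_odd0 m l (hs' m l hml)⟩
      · exact ⟨2, concl A 2 1 (Or.inl rfl) fun m l hml => supp_odd1 hj m l (hs' m l hml)⟩

end Pool.Agent.H42.PL
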