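import Pool.Agent.H42.PL.Defs

/-!
# PL.Mnr : the minors and the determinant at the formal point

PROOF. `Mx_one_zero`: the columns of `Mx η t 1 0 = L_v R_{n2}`, `v = (0, 1, 1, t)`, are `(-1, -t, 0, 1)`, `(-η t, 1, -η, 0)`, `(0, -1, -1, -t)`, `(η, 0, -η t, 1)` (`simp [Mx, Lm, Rm, vv, Matrix.mul_apply, Fin.sum_univ_four]`). `minor_ne`: the 2 x 2 minors are up to sign and up to powers of `η` : `1`, `t`, `t ^ 2`, `1 + η`, `1 + t ^ 2`, `1 + η t ^ 2`
(36 pairs of subsets; `Matrix.det_fin_two`; for the injective functions `r`, `c` use `fin_cases` on the four values `r 0, r 1, c 0, c 1`, or first the 36 cases with increasing `r`, `c` and then the sign). `Mx_zero_zero`: `y ↦ n2 y n2` is `diag (-1, 1, -1, 1)`.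
`det_Kd_diag`: `Kd pr qr A (diagonal d) (l, i) (b, j) = A (qr l i) (pr b j) * (if b = l then d l else 0)`: block diagonal (`Matrix.det_blockDiagonal`; `Matrix.blockDiagonal` is indexed by `m × o`, here `o = Fin 4` is the first factor: reindex with `Equiv.prodComm`, `Matrix.det_submatrix_equiv_self`). `det_pt` follows: all factors are nonzero.
-/

set_option autoImplicit false

namespace Pool.Agent.H42.PL

variable {K : Type} [Field K]

theorem Mx_one_zero (η t : K) : Mx η t 1 0 =
    !![-1, -(η * t), 0, η; -t, 1, -1, 0; 0, -η, -1, -(η * t); 1, 0, -t, 1] := by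
  ext i j
  fin_cases i <;> fin_cases j <;>
    simp [Mx, Lm, Rm, vv, Matrix.mul_apply, Fin.sum_univ_four]

private theorem mnr_core (η t : K) (hη : η ≠ 0) (ht : t ≠ 0) (h1 : 1 + η ≠ 0) (h2 : 1 + t ^ 2 ≠ 0)
    (h3 : 1 + η * t ^ 2 ≠ 0) (i j k l : Fin 4) (hij : i < j) (hkl : k < l) :
    Mx η t 1 0 i k * Mx η t 1 0 j l - Mx η t 1 0 i l * Mx η t 1 0 j k ≠ 0 := by
  rw [Mx_one_zero]
  have n1 : (1 : K) ≠ 0 := one_ne_zero
  have nt : t ≠ 0 := ht
  have ne : η ≠ 0 := hη
  have net : η * t ≠ 0 := mul_ne_zero hη ht
  have nett : η * t ^ 2 ≠ 0 := mul_ne_zero hη (pow_ne_zero 2 ht)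
  have n4 : η ^ 2 * (1 + t ^ 2) ≠ 0 := mul_ne_zero (pow_ne_zero 2 hη) h2
  fin_cases i <;> fin_cases j
  · exact absurd hij (by decide)
  · fin_cases k <;> fin_cases l
    · exact absurd hkl (by decide)
    · change (-1 : K) * (1) - (-(η * t)) * (-t) ≠ 0
      exact fun h => h3 (by linear_combination -h)
    · change (-1 : K) * (-1) - (0) * (-t) ≠ 0
      exact fun h => n1 (by linear_combination h)
    · change (-1 : K) * (0) - (η) * (-t) ≠ 0
      exact fun h => net (by linear_combination h)
    · exact absurd hkl (by decide)
    · exact absurd hkl (by decide)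
    · change (-(η * t) : K) * (-1) - (0) * (1) ≠ 0
      exact fun h => net (by linear_combination h)
    · change (-(η * t) : K) * (0) - (η) * (1) ≠ 0
      exact fun h => ne (by linear_combination -h)
    · exact absurd hkl (by decide)
    · exact absurd hkl (by decide)
    · exact absurd hkl (by decide)
    · change (0 : K) * (0) - (η) * (-1) ≠ 0
      exact fun h => ne (by linear_combination h)
    · exact absurd hkl (by decide)
    · exact absurd hkl (by decide)
    · exact absurd hkl (by decide)
    · exact absurd hkl (by decide)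
  · fin_cases k <;> fin_cases l
    · exact absurd hkl (by decide)
    · change (-1 : K) * (-η) - (-(η * t)) * (0) ≠ 0
      exact fun h => ne (by linear_combination h)
    · change (-1 : K) * (-1) - (0) * (0) ≠ 0
      exact fun h => n1 (by linear_combination h)
    · change (-1 : K) * (-(η * t)) - (η) * (0) ≠ 0
      exact fun h => net (by linear_combination h)
    · exact absurd hkl (by decide)
    · exact absurd hkl (by decide)
    · change (-(η * t) : K) * (-1) - (0) * (-η) ≠ 0
      exact fun h => net (by linear_combination h)
    · change (-(η * t) : K) * (-(η * t)) - (η) * (-η) ≠ 0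
      exact fun h => n4 (by linear_combination h)
    · exact absurd hkl (by decide)
    · exact absurd hkl (by decide)
    · exact absurd hkl (by decide)
    · change (0 : K) * (-(η * t)) - (η) * (-1) ≠ 0
      exact fun h => ne (by linear_combination h)
    · exact absurd hkl (by decide)
    · exact absurd hkl (by decide)
    · exact absurd hkl (by decide)
    · exact absurd hkl (by decide)
  · fin_cases k <;> fin_cases l
    · exact absurd hkl (by decide)
    · change (-1 : K) * (0) - (-(η * t)) * (1) ≠ 0
      exact fun h => net (by linear_combination h)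
    · change (-1 : K) * (-t) - (0) * (1) ≠ 0
      exact fun h => nt (by linear_combination h)
    · change (-1 : K) * (1) - (η) * (1) ≠ 0
      exact fun h => h1 (by linear_combination -h)
    · exact absurd hkl (by decide)
    · exact absurd hkl (by decide)
    · change (-(η * t) : K) * (-t) - (0) * (0) ≠ 0
      exact fun h => nett (by linear_combination h)
    · change (-(η * t) : K) * (1) - (η) * (0) ≠ 0
      exact fun h => net (by linear_combination -h)
    · exact absurd hkl (by decide)
    · exact absurd hkl (by decide)
    · exact absurd hkl (by decide)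
    · change (0 : K) * (1) - (η) * (-t) ≠ 0
      exact fun h => net (by linear_combination h)
    · exact absurd hkl (by decide)
    · exact absurd hkl (by decide)
    · exact absurd hkl (by decide)
    · exact absurd hkl (by decide)
  · exact absurd hij (by decide)
  · exact absurd hij (by decide)
  · fin_cases k <;> fin_cases l
    · exact absurd hkl (by decide)
    · change (-t : K) * (-η) - (1) * (0) ≠ 0
      exact fun h => net (by linear_combination h)
    · change (-t : K) * (-1) - (-1) * (0) ≠ 0
      exact fun h => nt (by linear_combination h)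
    · change (-t : K) * (-(η * t)) - (0) * (0) ≠ 0
      exact fun h => nett (by linear_combination h)
    · exact absurd hkl (by decide)
    · exact absurd hkl (by decide)
    · change (1 : K) * (-1) - (-1) * (-η) ≠ 0
      exact fun h => h1 (by linear_combination -h)
    · change (1 : K) * (-(η * t)) - (0) * (-η) ≠ 0
      exact fun h => net (by linear_combination -h)
    · exact absurd hkl (by decide)
    · exact absurd hkl (by decide)
    · exact absurd hkl (by decide)
    · change (-1 : K) * (-(η * t)) - (0) * (-1) ≠ 0
      exact fun h => net (by linear_combination h)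
    · exact absurd hkl (by decide)
    · exact absurd hkl (by decide)
    · exact absurd hkl (by decide)
    · exact absurd hkl (by decide)
  · fin_cases k <;> fin_cases l
    · exact absurd hkl (by decide)
    · change (-t : K) * (0) - (1) * (1) ≠ 0
      exact fun h => n1 (by linear_combination -h)
    · change (-t : K) * (-t) - (-1) * (1) ≠ 0
      exact fun h => h2 (by linear_combination h)
    · change (-t : K) * (1) - (0) * (1) ≠ 0
      exact fun h => nt (by linear_combination -h)
    · exact absurd hkl (by decide)
    · exact absurd hkl (by decide)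
    · change (1 : K) * (-t) - (-1) * (0) ≠ 0
      exact fun h => nt (by linear_combination -h)
    · change (1 : K) * (1) - (0) * (0) ≠ 0
      exact fun h => n1 (by linear_combination h)
    · exact absurd hkl (by decide)
    · exact absurd hkl (by decide)
    · exact absurd hkl (by decide)
    · change (-1 : K) * (1) - (0) * (-t) ≠ 0
      exact fun h => n1 (by linear_combination -h)
    · exact absurd hkl (by decide)
    · exact absurd hkl (by decide)
    · exact absurd hkl (by decide)
    · exact absurd hkl (by decide)
  · exact absurd hij (by decide)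
  · exact absurd hij (by decide)
  · exact absurd hij (by decide)
  · fin_cases k <;> fin_cases l
    · exact absurd hkl (by decide)
    · change (0 : K) * (0) - (-η) * (1) ≠ 0
      exact fun h => ne (by linear_combination h)
    · change (0 : K) * (-t) - (-1) * (1) ≠ 0
      exact fun h => n1 (by linear_combination h)
    · change (0 : K) * (1) - (-(η * t)) * (1) ≠ 0
      exact fun h => net (by linear_combination h)
    · exact absurd hkl (by decide)
    · exact absurd hkl (by decide)
    · change (-η : K) * (-t) - (-1) * (0) ≠ 0
      exact fun h => net (by linear_combination h)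
    · change (-η : K) * (1) - (-(η * t)) * (0) ≠ 0
      exact fun h => ne (by linear_combination -h)
    · exact absurd hkl (by decide)
    · exact absurd hkl (by decide)
    · exact absurd hkl (by decide)
    · change (-1 : K) * (1) - (-(η * t)) * (-t) ≠ 0
      exact fun h => h3 (by linear_combination -h)
    · exact absurd hkl (by decide)
    · exact absurd hkl (by decide)
    · exact absurd hkl (by decide)
    · exact absurd hkl (by decide)
  · exact absurd hij (by decide)
  · exact absurd hij (by decide)
  · exact absurd hij (by decide)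
  · exact absurd hij (by decide)

theorem minor_ne (η t : K) (hη : η ≠ 0) (ht : t ≠ 0) (h1 : 1 + η ≠ 0) (h2 : 1 + t ^ 2 ≠ 0) (h3 : 1 + η * t ^ 2 ≠ 0)
    (r c : Fin 2 → Fin 4) (hr : Function.Injective r) (hc : Function.Injective c) :
    (Matrix.of fun i j => Mx η t 1 0 (r i) (c j)).det ≠ 0 := by
  have hr' : r 0 ≠ r 1 := fun h => absurd (hr h) (by decide)
  have hc' : c 0 ≠ c 1 := fun h => absurd (hc h) (by decide)
  rw [Matrix.det_fin_two]
  simp only [Matrix.of_apply]
  have key := mnr_core η t hη ht h1 h2 h3
  rcases lt_or_gt_of_ne hr' with h | h <;> rcases lt_or_gt_of_ne hc' with h' | h'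
  · exact key _ _ _ _ h h'
  · intro h0
    exact key _ _ _ _ h h' (by linear_combination -h0)
  · intro h0
    exact key _ _ _ _ h h' (by linear_combination -h0)
  · intro h0
    exact key _ _ _ _ h h' (by linear_combination h0)

theorem Mx_zero_zero (η t : K) : Mx η t 0 0 = Matrix.diagonal ![-1, 1, -1, 1] := by
  ext i j
  fin_cases i <;> fin_cases j <;>
    simp [Mx, Lm, Rm, vv, Matrix.mul_apply, Fin.sum_univ_four]

theorem det_Kd_diag (pr qr : Fin 4 → Fin 2 → Fin 4) (A : Matrix (Fin 4) (Fin 4) K) (d : Fin 4 → K) :
    (Kd pr qr A (Matrix.diagonal d)).det =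
      ∏ l, ((d l) ^ 2 * (Matrix.of fun i j => A (qr l i) (pr l j)).det) := by
  have h : Kd pr qr A (Matrix.diagonal d) =
      (Matrix.blockDiagonal fun l : Fin 4 => d l • Matrix.of fun i j => A (qr l i) (pr l j)).submatrix
        (Equiv.prodComm (Fin 4) (Fin 2)) (Equiv.prodComm (Fin 4) (Fin 2)) := by
    ext ⟨l, i⟩ ⟨b, j⟩
    simp only [Kd, Matrix.submatrix_apply, Equiv.prodComm_apply, Prod.swap_prod_mk,
      Matrix.blockDiagonal_apply, Matrix.smul_apply, Matrix.of_apply, Matrix.diagonal_apply, smul_eq_mul]
    by_cases hb : l = b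
    · subst hb
      rw [if_pos rfl, if_pos rfl, mul_comm]
    · rw [if_neg hb, if_neg (fun h => hb h.symm), mul_zero]
  rw [h, Matrix.det_submatrix_equiv_self, Matrix.det_blockDiagonal]
  refine Finset.prod_congr rfl fun l _ => ?_
  rw [Matrix.det_smul, Fintype.card_fin]

theorem det_pt (η t η' t' : K) (hη : η ≠ 0) (ht : t ≠ 0) (h1 : 1 + η ≠ 0) (h2 : 1 + t ^ 2 ≠ 0) (h3 : 1 + η * t ^ 2 ≠ 0)
    (pr qr : Fin 4 → Fin 2 → Fin 4) (hp : ∀ l, Function.Injective (pr l)) (hq : ∀ l, Function.Injective (qr l)) :
    (Kd pr qr (Mx η t 1 0) (Mx η' t' 0 0)).det ≠ 0 := by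
  rw [Mx_zero_zero, det_Kd_diag, Finset.prod_ne_zero_iff]
  intro l _
  refine mul_ne_zero (pow_ne_zero 2 ?_) (minor_ne η t hη ht h1 h2 h3 _ _ (hq l) (hp l))
  fin_cases l
  · exact neg_ne_zero.2 one_ne_zero
  · exact one_ne_zero
  · exact neg_ne_zero.2 one_ne_zero
  · exact one_ne_zero

end Pool.Agent.H42.PL
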