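import Pool.Agent.H42.PL.Sgn
import Pool.Agent.H42.PL.Sqr

/-!
# PL.Mv2 : the number of the solutions of `Tr (c a² + c' b²) = lam`

PROOF. Split the pairs `(a, b)` into: `a ≠ 0` and `b ≠ 0`: the maps `(a, b) ↦ (-a, b)` and `(a, b) ↦ (a, -b)` act as in `four_dvd` (`2 ≠ 0`): the number is divisible by four. `a = 0 = b`: none, as `lam ≠ 0`. `a ≠ 0`, `b = 0` and `a = 0`, `b ≠ 0`: the number is `|{a ≠ 0 | Tr (c a²) = lam}| + |{b ≠ 0 | Tr (c' b²) = lam}|`
`= ∑_{z ≠ 0, Tr z = lam} (|{a | c a² = z}| + |{b | c' b² = z}|)`, and for every `z ≠ 0` exactly one of `z / c`, `z / c'` is a square (their quotient is `c' / c = c c' / c²`, not a square; `quadraticChar`), so the bracket is `2` (a nonzero square has two roots). So the number is `2 |{z | Tr z = lam}|`, and the fibre of the trace (surjective and `F`-linear) has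
`q ^ (n - 1)` elements, an odd number (`card_fib`: `|K| = q * |fibre|` and `|K| = q ^ n` is odd; all the fibres are translates of the kernel). So the total is `2` modulo `4`. `odd_fib`: `Odd (Nat.card {z : K // Tr z = lam})`: since `|K| = q |fibre|` is odd.
-/

set_option autoImplicit false

namespace Pool.Agent.H42.PL

open Module Pool.Agent.H32.UD

variable (F : Type) {K : Type} [Field F] [Field K] [Algebra F K] [Finite F] [Finite K]

private theorem mv2_split {α : Type} [Finite α] (P Q : α → Prop) :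
    Nat.card {z // P z} = Nat.card {z // P z ∧ Q z} + Nat.card {z // P z ∧ ¬ Q z} := by
  classical
  rw [← Nat.card_sum]
  exact Nat.card_congr ((Equiv.sumCompl (fun z : {z // P z} => Q z.1)).symm.trans
    (Equiv.sumCongr (Equiv.subtypeSubtypeEquivSubtypeInter P Q)
      (Equiv.subtypeSubtypeEquivSubtypeInter P (fun z => ¬ Q z))))

private theorem mv2_char (hodd : Odd (Nat.card F)) : ringChar K ≠ 2 := by
  intro h
  have h2 : (2 : K) ≠ 0 := two_ne_K F K hodd
  have h3 : ((ringChar K : ℕ) : K) = 0 := ringChar.Nat.cast_ringChar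
  rw [h] at h3
  exact h2 (by exact_mod_cast h3)

private theorem mv2_sqrt (hodd : Odd (Nat.card F)) (c c' : K) (hcc : ¬ IsSquare (c * c')) (z : K)
    (hz : z ≠ 0) [Fintype K] [DecidableEq K] :
    ((Finset.univ.filter fun a : K => c * a ^ 2 = z).card +
      (Finset.univ.filter fun b : K => c' * b ^ 2 = z).card) = 2 := by
  have hch := mv2_char F (K := K) hodd
  have hc : c ≠ 0 := by
    rintro rfl
    exact hcc (by rw [zero_mul]; exact IsSquare.zero)
  have hc' : c' ≠ 0 := by
    rintro rfl
    exact hcc (by rw [mul_zero]; exact IsSquare.zero)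
  have key : ∀ d : K, d ≠ 0 → (((Finset.univ.filter fun a : K => d * a ^ 2 = z).card : ℕ) : ℤ) =
      quadraticChar K (z / d) + 1 := by
    intro d hd
    rw [← quadraticChar_card_sqrts hch (z / d)]
    congr 2
    ext x
    rw [Finset.mem_filter, Set.mem_toFinset, Set.mem_ofPred_eq, eq_div_iff hd, mul_comm d]
    exact ⟨fun h => h.2, fun h => ⟨Finset.mem_univ _, h⟩⟩
  have h1 := key c hc
  have h2 := key c' hc'
  have h3 : quadraticChar K (z / c) * quadraticChar K (z / c') = -1 := by
    rw [← map_mul]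
    have e : z / c * (z / c') = (c * c') * (z / (c * c')) ^ 2 := by
      field_simp
    rw [e, map_mul, quadraticChar_sq_one' (div_ne_zero hz (mul_ne_zero hc hc')), mul_one]
    exact quadraticChar_neg_one_iff_not_isSquare.2 hcc
  rcases quadraticChar_dichotomy (div_ne_zero hz hc) with h4 | h4
  · rw [h4, one_mul] at h3
    rw [h4] at h1
    rw [h3] at h2
    omega
  · rw [h4] at h3
    rw [h4] at h1
    have h5 : quadraticChar K (z / c') = 1 := by linarith
    rw [h5] at h2
    omega

private theorem mv2_sum {K : Type} [Fintype K] [DecidableEq K] (f g : K → K) (Q : K → Prop)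
    [DecidablePred Q] (h : ∀ z, Q z → ((Finset.univ.filter fun a : K => f a = z).card +
      (Finset.univ.filter fun b : K => g b = z).card) = 2) :
    (Finset.univ.filter fun a : K => Q (f a)).card + (Finset.univ.filter fun b : K => Q (g b)).card =
      2 * (Finset.univ.filter fun z : K => Q z).card := by
  have h1 : ∀ f : K → K, (Finset.univ.filter fun a : K => Q (f a)).card =
      ∑ z ∈ Finset.univ.filter fun z : K => Q z, (Finset.univ.filter fun a : K => f a = z).card := by
    intro f
    rw [Finset.card_eq_sum_card_fiberwise (f := f) (t := Finset.univ.filter fun z : K => Q z)]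
    · refine Finset.sum_congr rfl fun z hz => ?_
      congr 1
      ext a
      rw [Finset.mem_filter] at hz
      simp only [Finset.mem_filter, Finset.mem_univ, true_and]
      constructor
      · exact fun h => h.2
      · exact fun h => ⟨h ▸ hz.2, h⟩
    · intro a ha
      rw [Finset.mem_coe, Finset.mem_filter] at ha ⊢
      exact ⟨Finset.mem_univ _, ha.2⟩
  rw [h1 f, h1 g, ← Finset.sum_add_distrib, Finset.sum_congr rfl fun z hz => h z (Finset.mem_filter.1 hz).2,
    Finset.sum_const, smul_eq_mul, mul_comm]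

theorem odd_fib (hodd : Odd (Nat.card F)) (lam : F) : Odd (Nat.card {z : K // Algebra.trace F K z = lam}) := by
  obtain ⟨z0, hz0⟩ := Algebra.trace_surjective F K lam
  have h1 : Nat.card {z : K // Algebra.trace F K z = lam} =
      Nat.card ((Algebra.trace F K).toAddMonoidHom.ker) := by
    refine Nat.card_congr ⟨fun z => ⟨z.1 - z0, ?_⟩, fun z => ⟨z.1 + z0, ?_⟩, ?_, ?_⟩
    · rw [AddMonoidHom.mem_ker]
      change Algebra.trace F K (z.1 - z0) = 0
      rw [map_sub, z.2, hz0, sub_self]
    · have h := z.2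
      rw [AddMonoidHom.mem_ker] at h
      have h' : Algebra.trace F K z.1 = 0 := h
      rw [map_add, h', hz0, zero_add]
    · intro z
      exact Subtype.ext (sub_add_cancel _ _)
    · intro z
      exact Subtype.ext (add_sub_cancel_right _ _)
  rw [h1]
  have h2 : Odd (Nat.card K) := by
    rw [card_K F]
    exact hodd.pow
  exact Odd.of_dvd_nat h2 (AddSubgroup.card_addSubgroup_dvd_card _)

theorem card_axes (hodd : Odd (Nat.card F)) (c c' : K) (hcc : ¬ IsSquare (c * c')) (lam : F) (hlam : lam ≠ 0) :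
    Nat.card {a : K // Algebra.trace F K (c * a ^ 2) = lam} + Nat.card {b : K // Algebra.trace F K (c' * b ^ 2) = lam} =
      2 * Nat.card {z : K // Algebra.trace F K z = lam} := by
  classical
  let _ := Fintype.ofFinite K
  have h1 : ∀ f : K → K, Nat.card {a : K // Algebra.trace F K (f a) = lam} =
      (Finset.univ.filter fun a : K => Algebra.trace F K (f a) = lam).card := by
    intro f
    rw [Nat.card_eq_fintype_card, Fintype.card_subtype]
  rw [h1 (fun a => c * a ^ 2), h1 (fun b => c' * b ^ 2), h1 (fun z => z)]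
  refine mv2_sum (fun a => c * a ^ 2) (fun b => c' * b ^ 2) (fun z => Algebra.trace F K z = lam) ?_
  intro z hz
  refine mv2_sqrt F hodd c c' hcc z ?_
  rintro rfl
  exact hlam (by rw [← hz, map_zero])

theorem card_two (hodd : Odd (Nat.card F)) (c c' : K) (hcc : ¬ IsSquare (c * c')) (lam : F) (hlam : lam ≠ 0) :
    Nat.card {z : K × K // Algebra.trace F K (c * z.1 ^ 2 + c' * z.2 ^ 2) = lam} % 4 = 2 := by
  classical
  have h2K : (2 : K) ≠ 0 := two_ne_K F K hodd
  have hneg : ∀ x : K, x ≠ 0 → -x ≠ x := by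
    intro x hx h
    have : (2 : K) * x = 0 := by linear_combination -h
    exact (mul_ne_zero h2K hx) this
  have h1 := mv2_split (fun z : K × K => Algebra.trace F K (c * z.1 ^ 2 + c' * z.2 ^ 2) = lam)
    (fun z => z.1 ≠ 0 ∧ z.2 ≠ 0)
  have h4 : 4 ∣ Nat.card {z : K × K // Algebra.trace F K (c * z.1 ^ 2 + c' * z.2 ^ 2) = lam ∧
      (z.1 ≠ 0 ∧ z.2 ≠ 0)} := by
    refine four_dvd (fun z => ⟨(-z.1.1, z.1.2), ?_, ?_, ?_⟩) (fun z => ⟨(z.1.1, -z.1.2), ?_, ?_, ?_⟩)
      ?_ ?_ ?_ ?_ ?_ ?_
    · change Algebra.trace F K (c * (-z.1.1) ^ 2 + c' * z.1.2 ^ 2) = lam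
      rw [neg_sq]
      exact z.2.1
    · exact neg_ne_zero.2 z.2.2.1
    · exact z.2.2.2
    · change Algebra.trace F K (c * z.1.1 ^ 2 + c' * (-z.1.2) ^ 2) = lam
      rw [neg_sq]
      exact z.2.1
    · exact z.2.2.1
    · exact neg_ne_zero.2 z.2.2.2
    · intro z
      exact Subtype.ext (Prod.ext (neg_neg _) rfl)
    · intro z
      exact Subtype.ext (Prod.ext rfl (neg_neg _))
    · intro z
      rfl
    · intro z h
      have h' : (-z.1.1 : K) = z.1.1 := congrArg (fun w => w.1.1) h
      exact hneg _ z.2.2.1 h'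
    · intro z h
      have h' : (-z.1.2 : K) = z.1.2 := congrArg (fun w => w.1.2) h
      exact hneg _ z.2.2.2 h'
    · intro z h
      have h' : (-z.1.1 : K) = z.1.1 := congrArg (fun w => w.1.1) h
      exact hneg _ z.2.2.1 h'
  have h5 : Nat.card {z : K × K // Algebra.trace F K (c * z.1 ^ 2 + c' * z.2 ^ 2) = lam ∧
      ¬ (z.1 ≠ 0 ∧ z.2 ≠ 0)} = Nat.card {a : K // Algebra.trace F K (c * a ^ 2) = lam} +
        Nat.card {b : K // Algebra.trace F K (c' * b ^ 2) = lam} := by
    rw [← Nat.card_sum]
    symm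
    let φ : {a : K // Algebra.trace F K (c * a ^ 2) = lam} ⊕
        {b : K // Algebra.trace F K (c' * b ^ 2) = lam} →
        {z : K × K // Algebra.trace F K (c * z.1 ^ 2 + c' * z.2 ^ 2) = lam ∧
          ¬ (z.1 ≠ 0 ∧ z.2 ≠ 0)} := fun t => match t with
      | Sum.inl a => ⟨(a.1, 0), by
          change Algebra.trace F K (c * a.1 ^ 2 + c' * 0 ^ 2) = lam
          rw [zero_pow two_ne_zero, mul_zero, add_zero]
          exact a.2, fun h => h.2 rfl⟩
      | Sum.inr b => ⟨(0, b.1), by
          change Algebra.trace F K (c * 0 ^ 2 + c' * b.1 ^ 2) = lam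
          rw [zero_pow two_ne_zero, mul_zero, zero_add]
          exact b.2, fun h => h.1 rfl⟩
    have ha0 : ∀ d x : K, Algebra.trace F K (d * x ^ 2) = lam → x ≠ 0 := by
      rintro d x h rfl
      rw [zero_pow two_ne_zero, mul_zero, map_zero] at h
      exact hlam h.symm
    refine Nat.card_congr (Equiv.ofBijective φ ⟨?_, ?_⟩)
    · rintro (a | b) (a' | b') h
      · have h' : a.1 = a'.1 := congrArg (fun w => w.1.1) h
        rw [Subtype.ext h']
      · have h' : a.1 = 0 := congrArg (fun w => w.1.1) h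
        exact absurd h' (ha0 c _ a.2)
      · have h' : b.1 = 0 := congrArg (fun w => w.1.2) h
        exact absurd h' (ha0 c' _ b.2)
      · have h' : b.1 = b'.1 := congrArg (fun w => w.1.2) h
        rw [Subtype.ext h']
    · rintro ⟨⟨x, y⟩, h6, h7⟩
      by_cases hy : y = 0
      · subst hy
        refine ⟨Sum.inl ⟨x, ?_⟩, rfl⟩
        have h8 : Algebra.trace F K (c * x ^ 2 + c' * 0 ^ 2) = lam := h6
        rwa [zero_pow two_ne_zero, mul_zero, add_zero] at h8
      · have hx : x = 0 := by
          by_contra hx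
          exact h7 ⟨hx, hy⟩
        subst hx
        refine ⟨Sum.inr ⟨y, ?_⟩, rfl⟩
        have h8 : Algebra.trace F K (c * 0 ^ 2 + c' * y ^ 2) = lam := h6
        rwa [zero_pow two_ne_zero, mul_zero, zero_add] at h8
  rw [card_axes F hodd c c' hcc lam hlam] at h5
  obtain ⟨m, hm⟩ := odd_fib F (K := K) hodd lam
  obtain ⟨k, hk⟩ := h4
  rw [h1]
  omega

end Pool.Agent.H42.PL
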