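import Pool.Agent.H42.PL.Tu

/-!
# PL.Pln : the eigenvectors of `U` in the plane `Jd i x = x`

PROOF. `Jd i x = x` iff `x m = 0` for all `m ≠ 0, i.succ`, that is `x = x 0 • 1 + x i.succ • n_i` (`2 ≠ 0`). Let `ν`, `μ` be the pure parts of `aq η t i k x`, `aq η t i k x'`; both are orthogonal to `n_i` (`pu_orth`). So `ν μ = A0 + B0 n_i` (`A0 = -bq ν μ`; the cross product of two vectors orthogonal to `n_i` is a multiple of `n_i`), and
`ν n_i = -n_i ν`, `U 1 = A0 + B0 n_i`, `U n_i = ν n_i μ = -n_i (A0 + B0 n_i) = -A0 n_i + B0 N_i`, with `U² = d²`. In coordinates `(p, q)` for `p + q n_i`: `U (p, q) = (A0 p + B0 N_i q, B0 p - A0 q)`, `A0² + B0² N_i = d²`.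
If `B0 ≠ 0`: `w1 = (A0 + d, B0)`, `w2 = (A0 - d, B0)`. If `B0 = 0` then `A0 = ± d` and `w1, w2` are `(1, 0), (0, 1)` in the order given by the sign. In all cases the determinant of `w1, w2` is not zero (`2 d B0`, `± 1`), which gives `span`. (`fin_cases i` gives three explicit computations; `k` can stay general: only `pu_orth` is used.)
-/

set_option autoImplicit false

namespace Pool.Agent.H42.PL

variable {K : Type} [Field K]

private def pl (i : Fin 3) (p q : K) : V4 K :=
  match i with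
  | 0 => ![p, q, 0, 0]
  | 1 => ![p, 0, q, 0]
  | 2 => ![p, 0, 0, q]

private theorem pl_zero (i : Fin 3) (p q : K) : pl i p q 0 = p := by
  fin_cases i <;> rfl

private theorem pl_succ (i : Fin 3) (p q : K) : pl i p q i.succ = q := by
  fin_cases i <;> rfl

private theorem pl_add (i : Fin 3) (p q p' q' : K) : pl i p q + pl i p' q' = pl i (p + p') (q + q') := by
  fin_cases i <;> (ext m; fin_cases m <;> simp [pl])

private theorem pl_smul (i : Fin 3) (c p q : K) : c • pl i p q = pl i (c * p) (c * q) := by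
  fin_cases i <;> (ext m; fin_cases m <;> simp [pl])

private theorem pl_neg (i : Fin 3) (p q : K) : -pl i p q = pl i (-p) (-q) := by
  fin_cases i <;> (ext m; fin_cases m <;> simp [pl])

private theorem Jd_pl (i : Fin 3) (p q : K) : Jd i (pl i p q) = pl i p q := by
  fin_cases i <;> (ext m; fin_cases m <;> simp [pl, Jd, Jh])

private theorem neg_eq_self (h2 : (2 : K) ≠ 0) {a : K} (h : -a = a) : a = 0 := by
  have h' : (2 : K) * a = 0 := by linear_combination -h
  exact (mul_eq_zero.1 h').resolve_left h2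

private theorem eq_pl (h2 : (2 : K) ≠ 0) (i : Fin 3) (y : V4 K) (h : Jd i y = y) :
    y = pl i (y 0) (y i.succ) := by
  have h1 := congrFun h 1
  have h3 := congrFun h 2
  have h4 := congrFun h 3
  fin_cases i
  · simp [Jd, Jh] at h1 h3 h4
    have a3 := neg_eq_self h2 h3
    have a4 := neg_eq_self h2 h4
    ext m; fin_cases m <;> simp [pl, a3, a4]
  · simp [Jd, Jh] at h1 h3 h4
    have a3 := neg_eq_self h2 h1
    have a4 := neg_eq_self h2 h4
    ext m; fin_cases m <;> simp [pl, a3, a4]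
  · simp [Jd, Jh] at h1 h3 h4
    have a3 := neg_eq_self h2 h1
    have a4 := neg_eq_self h2 h3
    ext m; fin_cases m <;> simp [pl, a3, a4]

private theorem key (η : K) (i : Fin 3) (ν μ : V4 K) (hν0 : ν 0 = 0) (hν : ν i.succ = 0)
    (hμ0 : μ 0 = 0) (hμ : μ i.succ = 0) (p q : K) :
    qm η ν (qm η (pl i p q) μ) =
      pl i (-bq η ν μ * p + qm η ν μ i.succ * Nn η i * q) (qm η ν μ i.succ * p - -bq η ν μ * q) := by
  fin_cases i
  · simp at hν hμ
    ext m; fin_cases m <;> simp [pl, qm, bq, Nn, hν0, hν, hμ0, hμ] <;> ring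
  · simp at hν hμ
    ext m; fin_cases m <;> simp [pl, qm, bq, Nn, hν0, hν, hμ0, hμ] <;> ring
  · simp at hν hμ
    ext m; fin_cases m <;> simp [pl, qm, bq, Nn, hν0, hν, hμ0, hμ] <;> ring

private theorem key2 (η : K) (i : Fin 3) (ν μ : V4 K) (hν0 : ν 0 = 0) (hν : ν i.succ = 0)
    (hμ0 : μ 0 = 0) (hμ : μ i.succ = 0) :
    (-bq η ν μ) ^ 2 + qm η ν μ i.succ * qm η ν μ i.succ * Nn η i = bq η ν ν * bq η μ μ := by
  fin_cases i
  · simp at hν hμ
    simp [qm, bq, Nn, hν0, hν, hμ0, hμ]; ring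
  · simp at hν hμ
    simp [qm, bq, Nn, hν0, hν, hμ0, hμ]; ring
  · simp at hν hμ
    simp [qm, bq, Nn, hν0, hν, hμ0, hμ]; ring

private theorem pl_ne (i : Fin 3) {p q : K} (h : p ≠ 0 ∨ q ≠ 0) : pl i p q ≠ 0 := by
  intro h0
  have hp := congrFun h0 0
  have hq := congrFun h0 i.succ
  rw [pl_zero] at hp
  rw [pl_succ] at hq
  rcases h with h | h
  · exact h hp
  · exact h hq

theorem exists_w (h2 : (2 : K) ≠ 0) (η t x x' d : K) (i k : Fin 3) (hη : η ≠ 0) (hd : d ≠ 0)
    (hd2 : d ^ 2 = fq η t i k x * fq η t i k x') :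
    ∃ w1 w2 : V4 K, w1 ≠ 0 ∧ w2 ≠ 0 ∧ JL i w1 = w1 ∧ JL i w2 = w2 ∧ UL η t x x' i k w1 = d • w1 ∧
      UL η t x x' i k w2 = -(d • w2) ∧ ∀ y : V4 K, JL i y = y → ∃ a b : K, y = a • w1 + b • w2 := by
  have hν0 : pu (aq η t i k x) 0 = 0 := rfl
  have hμ0 : pu (aq η t i k x') 0 = 0 := rfl
  have hν : pu (aq η t i k x) i.succ = 0 := by
    have h := pu_orth η t x i k
    fin_cases i <;> exact h
  have hμ : pu (aq η t i k x') i.succ = 0 := by
    have h := pu_orth η t x' i k
    fin_cases i <;> exact h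
  have hN : Nn η i ≠ 0 := by
    fin_cases i
    · exact hη
    · exact one_ne_zero
    · exact hη
  have hU := key η i _ _ hν0 hν hμ0 hμ
  have hA := key2 η i _ _ hν0 hν hμ0 hμ
  rw [pu_sq, pu_sq, neg_mul_neg, ← hd2] at hA
  have hUL : ∀ p q : K, UL η t x x' i k (pl i p q) =
      pl i (-bq η (pu (aq η t i k x)) (pu (aq η t i k x')) * p +
        qm η (pu (aq η t i k x)) (pu (aq η t i k x')) i.succ * Nn η i * q)
        (qm η (pu (aq η t i k x)) (pu (aq η t i k x')) i.succ * p -
          -bq η (pu (aq η t i k x)) (pu (aq η t i k x')) * q) := fun p q => hU p q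
  generalize (-bq η (pu (aq η t i k x)) (pu (aq η t i k x'))) = A at hA hUL
  generalize (qm η (pu (aq η t i k x)) (pu (aq η t i k x')) i.succ) = B at hA hUL
  generalize Nn η i = N at hA hUL hN
  by_cases hB : B = 0
  · subst hB
    have hAd : A = d ∨ A = -d := sq_eq_sq_iff_eq_or_eq_neg.1 (by linear_combination hA)
    rcases hAd with h | h
    · subst h
      refine ⟨pl i 1 0, pl i 0 1, pl_ne i (Or.inl one_ne_zero), pl_ne i (Or.inr one_ne_zero),
        Jd_pl i 1 0, Jd_pl i 0 1, ?_, ?_, ?_⟩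
      · rw [hUL, pl_smul]; congr 1 <;> ring
      · rw [hUL, pl_smul, pl_neg]; congr 1 <;> ring
      · intro y hy
        refine ⟨y 0, y i.succ, ?_⟩
        rw [pl_smul, pl_smul, pl_add]
        have h := eq_pl h2 i y hy
        calc y = pl i (y 0) (y i.succ) := h
          _ = _ := by congr 1 <;> ring
    · subst h
      refine ⟨pl i 0 1, pl i 1 0, pl_ne i (Or.inr one_ne_zero), pl_ne i (Or.inl one_ne_zero),
        Jd_pl i 0 1, Jd_pl i 1 0, ?_, ?_, ?_⟩
      · rw [hUL, pl_smul]; congr 1 <;> ring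
      · rw [hUL, pl_smul, pl_neg]; congr 1 <;> ring
      · intro y hy
        refine ⟨y i.succ, y 0, ?_⟩
        rw [pl_smul, pl_smul, pl_add]
        have h := eq_pl h2 i y hy
        calc y = pl i (y 0) (y i.succ) := h
          _ = _ := by congr 1 <;> ring
  · refine ⟨pl i (A + d) B, pl i (A - d) B, pl_ne i (Or.inr hB), pl_ne i (Or.inr hB),
      Jd_pl i _ _, Jd_pl i _ _, ?_, ?_, ?_⟩
    · rw [hUL, pl_smul]
      congr 1
      · linear_combination hA
      · ring
    · rw [hUL, pl_smul, pl_neg]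
      congr 1
      · linear_combination hA
      · ring
    · intro y hy
      have h := eq_pl h2 i y hy
      refine ⟨(B * y 0 - (A - d) * y i.succ) / (2 * d * B),
        ((A + d) * y i.succ - B * y 0) / (2 * d * B), ?_⟩
      rw [pl_smul, pl_smul, pl_add]
      calc y = pl i (y 0) (y i.succ) := h
        _ = _ := by
          congr 1
          · field_simp; ring
          · field_simp; ring

end Pool.Agent.H42.PL
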