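import Pool.Agent.H42.PL.Defs

/-!
# PL.Sgn : the sign of an involution, commutators are even

PROOF. `four_dvd`: `f`, `g` generate a group `{1, f, g, f g}` acting freely. For instance: choose a linear order (`Fintype`, `α ≃ Fin n`), map every `x` to the least element `r x` of `{x, f x, g x, f (g x)}`; every fibre of `r` over its image has exactly four elements `{r, f r, g r, f (g r)}` (different by the hypotheses), `Finset.card_eq_sum_card_fiberwise`;
or `MulAction` of `Multiplicative (ZMod 2) × Multiplicative (ZMod 2)`; or: `f` has `|α| / 2` orbits and `g` acts on them without fixed points. `two_dvd`: one involution without fixed points.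
`sign_inv`: if `σ ∘ σ = 1`, `σ ≠ 1` then `orderOf σ = 2` and `Equiv.Perm.cycleType_prime_order` gives `cycleType σ = replicate (n + 1) 2`, `sign σ = (-1) ^ (n + 1)` (`Equiv.Perm.sign_of_cycleType`), the number of the moved points is `2 (n + 1)` (`Equiv.Perm.sum_cycleType`, `Equiv.Perm.card_support`); `2 (n + 1) % 4 = 2` implies that `n + 1` is odd.
`not_mem_comm`: `OG F η` acts on the finite set `X = {v | Bf F η v v = lam}`: the homomorphism `OG F η →* Equiv.Perm X` followed by `Equiv.Perm.sign` into the commutative group `ℤˣ` is trivial on `⁅OG, OG⁆` (`Subgroup.commutator_le` / `Subgroup.closure_induction` on the set of the commutators; work with the subgroup `{g ∈ OG | sign .. = 1}` of `V4 K ≃ₗ[F] V4 K`).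
-/

set_option autoImplicit false

namespace Pool.Agent.H42.PL

open Module Pool.Agent.H32.UD

/-- the orbits of an involution -/
private def sgnSet {α : Type} (f : α → α) (hf : ∀ x, f (f x) = x) : Setoid α where
  r x y := y = x ∨ y = f x
  iseqv := by
    refine ⟨fun x => Or.inl rfl, ?_, ?_⟩
    · rintro x y (h | h)
      · exact Or.inl h.symm
      · exact Or.inr (by rw [h, hf])
    · rintro x y z (h | h) (h' | h')
      · exact Or.inl (by rw [h', h])
      · exact Or.inr (by rw [h', h])
      · exact Or.inr (by rw [h', h])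
      · exact Or.inl (by rw [h', h, hf])

private theorem sgn_card {α : Type} [Finite α] (f : α → α) (hf : ∀ x, f (f x) = x)
    (h1 : ∀ x, f x ≠ x) : Nat.card α = Nat.card (Quotient (sgnSet f hf)) * 2 := by
  classical
  have : Fintype α := Fintype.ofFinite α
  have : Fintype (Quotient (sgnSet f hf)) := Fintype.ofFinite _
  rw [Nat.card_eq_fintype_card, Nat.card_eq_fintype_card, ← Finset.card_univ, ← Finset.card_univ]
  rw [Finset.card_eq_sum_card_fiberwise (f := fun x => Quotient.mk (sgnSet f hf) x)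
    (t := Finset.univ) (fun x _ => Finset.mem_coe.2 (Finset.mem_univ _)), ← smul_eq_mul,
    ← Finset.sum_const]
  refine Finset.sum_congr rfl fun q _ => ?_
  induction q using Quotient.ind with
  | _ x =>
    have h2 : (Finset.univ.filter fun y : α => Quotient.mk (sgnSet f hf) y =
        Quotient.mk (sgnSet f hf) x) = {x, f x} := by
      ext y
      rw [Finset.mem_filter, Finset.mem_insert, Finset.mem_singleton, eq_comm, Quotient.eq]
      exact ⟨fun h => h.2, fun h => ⟨Finset.mem_univ _, h⟩⟩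
    rw [h2]
    exact Finset.card_pair (h1 x).symm

theorem two_dvd {α : Type} [Finite α] (f : α → α) (hf : ∀ x, f (f x) = x) (h1 : ∀ x, f x ≠ x) :
    2 ∣ Nat.card α := by
  rw [sgn_card f hf h1]
  exact dvd_mul_left _ _

theorem four_dvd {α : Type} [Finite α] (f g : α → α) (hf : ∀ x, f (f x) = x) (hg : ∀ x, g (g x) = x)
    (hfg : ∀ x, f (g x) = g (f x)) (h1 : ∀ x, f x ≠ x) (h2 : ∀ x, g x ≠ x) (h3 : ∀ x, f x ≠ g x) :
    4 ∣ Nat.card α := by
  rw [sgn_card f hf h1]
  let g' : Quotient (sgnSet f hf) → Quotient (sgnSet f hf) :=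
    Quotient.map g (by
      rintro x y (h | h)
      · exact Or.inl (by rw [h])
      · exact Or.inr (by rw [h, hfg]))
  have h4 : 2 ∣ Nat.card (Quotient (sgnSet f hf)) := by
    refine two_dvd g' ?_ ?_
    · intro q
      induction q using Quotient.ind with
      | _ x =>
        change Quotient.mk (sgnSet f hf) (g (g x)) = Quotient.mk (sgnSet f hf) x
        rw [hg]
    · intro q
      induction q using Quotient.ind with
      | _ x =>
        intro h
        have h5 : Quotient.mk (sgnSet f hf) (g x) = Quotient.mk (sgnSet f hf) x := h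
        rcases Quotient.exact h5 with h6 | h6
        · exact h2 x h6.symm
        · apply h3 x
          calc f x = f (f (g x)) := by rw [← h6]
            _ = g x := hf _
  obtain ⟨m, hm⟩ := h4
  exact ⟨m, by rw [hm]; ring⟩

theorem sign_inv {α : Type} [Fintype α] [DecidableEq α] (σ : Equiv.Perm α) (h : ∀ x, σ (σ x) = x)
    (hc : Nat.card {x // σ x ≠ x} % 4 = 2) : Equiv.Perm.sign σ = -1 := by
  have h2 : σ ^ 2 = 1 := by
    ext x
    rw [pow_two, Equiv.Perm.mul_apply, h]
    rfl
  rw [Equiv.Perm.sign_of_pow_two_eq_one h2, Equiv.Perm.card_fixedPoints, Equiv.Perm.sum_cycleType]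
  have h3 : Nat.card {x // σ x ≠ x} = σ.support.card := by
    rw [Nat.card_eq_fintype_card, Fintype.card_subtype]
    rfl
  rw [h3] at hc
  have h4 : σ.support.card ≤ Fintype.card α := Finset.card_le_univ _
  have h5 : Fintype.card α - (Fintype.card α - σ.support.card) = σ.support.card := by omega
  rw [h5]
  have h6 : Odd (σ.support.card / 2) := by
    rw [Nat.odd_iff]
    omega
  exact h6.neg_one_pow

/-- the action of the isometry group on a level set of the form -/
private noncomputable def sgnHom (F : Type) {K : Type} [Field F] [Field K] [Algebra F K] (η : K)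
    (lam : F) : OG F η →* Equiv.Perm {v : V4 K // Bf F η v v = lam} where
  toFun g :=
    { toFun := fun v => ⟨(g : V4 K ≃ₗ[F] V4 K) v.1, by rw [g.2 v.1 v.1]; exact v.2⟩
      invFun := fun v => ⟨((g⁻¹ : OG F η) : V4 K ≃ₗ[F] V4 K) v.1, by
        rw [(g⁻¹ : OG F η).2 v.1 v.1]; exact v.2⟩
      left_inv := fun v => Subtype.ext (by
        change ((g⁻¹ : OG F η) : V4 K ≃ₗ[F] V4 K) ((g : V4 K ≃ₗ[F] V4 K) v.1) = v.1
        rw [← LinearEquiv.mul_apply, Subgroup.coe_inv, inv_mul_cancel]
        rfl)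
      right_inv := fun v => Subtype.ext (by
        change (g : V4 K ≃ₗ[F] V4 K) (((g⁻¹ : OG F η) : V4 K ≃ₗ[F] V4 K) v.1) = v.1
        rw [← LinearEquiv.mul_apply, Subgroup.coe_inv, mul_inv_cancel]
        rfl) }
  map_one' := by
    ext v
    rfl
  map_mul' a b := by
    ext v
    rfl

theorem not_mem_comm (F : Type) {K : Type} [Field F] [Field K] [Algebra F K] [Finite F] [Finite K] (η : K)
    (ω : V4 K ≃ₗ[F] V4 K) (hω : ω ∈ OG F η) (hinv : ∀ v, ω (ω v) = v) (lam : F)
    (hc : Nat.card {v : V4 K // Bf F η v v = lam ∧ ω v ≠ v} % 4 = 2) : ω ∉ ⁅OG F η, OG F η⁆ := by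
  classical
  intro hmem
  have hfin : Fintype {v : V4 K // Bf F η v v = lam} := Fintype.ofFinite _
  let φ : OG F η →* ℤˣ := Equiv.Perm.sign.comp (sgnHom F η lam)
  have h1 : ⁅OG F η, OG F η⁆ ≤ φ.ker.map (OG F η).subtype := by
    rw [Subgroup.commutator_le]
    intro a ha b hb
    refine ⟨(⟨a, ha⟩ : OG F η) * ⟨b, hb⟩ * (⟨a, ha⟩ : OG F η)⁻¹ * (⟨b, hb⟩ : OG F η)⁻¹, ?_, rfl⟩
    change φ ((⟨a, ha⟩ : OG F η) * ⟨b, hb⟩ * (⟨a, ha⟩ : OG F η)⁻¹ * (⟨b, hb⟩ : OG F η)⁻¹) = 1
    rw [map_mul, map_mul, map_mul, map_inv, map_inv, mul_comm (φ ⟨a, ha⟩) (φ ⟨b, hb⟩),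
      mul_inv_cancel_right, mul_inv_cancel]
  obtain ⟨w, hw, hw'⟩ := h1 hmem
  have h2 : φ w = 1 := hw
  have h3 : w = ⟨ω, hω⟩ := Subtype.ext hw'
  rw [h3] at h2
  have h4 : Equiv.Perm.sign (sgnHom F η lam ⟨ω, hω⟩) = -1 := by
    refine sign_inv _ (fun x => Subtype.ext (hinv x.1)) ?_
    have e : {x : {v : V4 K // Bf F η v v = lam} // sgnHom F η lam ⟨ω, hω⟩ x ≠ x} ≃
        {v : V4 K // Bf F η v v = lam ∧ ω v ≠ v} :=
      (Equiv.subtypeEquivRight fun x => by
        rw [Ne, Ne, Subtype.ext_iff]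
        exact Iff.rfl).trans
      (Equiv.subtypeSubtypeEquivSubtypeInter (fun v : V4 K => Bf F η v v = lam) (fun v => ω v ≠ v))
    rw [Nat.card_congr e]
    exact hc
  have h5 : Equiv.Perm.sign (sgnHom F η lam ⟨ω, hω⟩) = 1 := h2
  rw [h4] at h5
  exact absurd h5 (by decide)

end Pool.Agent.H42.PL
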