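import Pool.Agent.H42.PL.Cof

/-!
# PL.SupK : the support of an element which normalises one of the algebras

PROOF. `exists_subK`: `Pool/Agent/H89/UD/Nrm.lean`, `exists_sub`, with `K` and `n` instead of `E` and `2 r`. `NorK_supp`: `Nor_SS` there. In detail: `y (dg F j k x) = dg F j k' (y x)` for all `x` says (`cof_unique`) `a c m l * fr^(c + sg l) k = fr^(sg m) k' * a c m l` for all `c < n`, `m`, `l`, with `sg = (0, 1, j, j + 1)`.
`y ≠ 0`, so there are `c₀`, `m₀`, `l₀` with `a c₀ m₀ l₀ ≠ 0`; `s = c₀ + sg l₀ - sg m₀ ∈ ZMod p`. Take `k` with `fr^p k = k`, `fr k ≠ k` and its `k'`: `fr^(c + sg l) k = fr^(sg m) k'` for all `(c, m, l)` with `a c m l ≠ 0`. Since `fr^p` fixes `k` and `k'`, the powers of `fr` on them depend on the exponent modulo `p` only: `k' = fr^(c + sg l - sg m) k`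
for all of them, and if `c + sg l - sg m ≠ s` in `ZMod p` then `fr^d k = k` for some `d` prime to `p`, so `fr k = k` (`Function.IsPeriodicPt.gcd`), contradiction.
`NJ_supp`: compare coefficients: `a c m l * Jh 0 l = ± Jh 0 m * a c m l`, and `2 ≠ 0` in `K` (`h2`). `Nrm_two`: for a fixed column `l` and `c` the rows `m` with `a c m l ≠ 0` satisfy `sg m = c + sg l - s` in `ZMod p`; as `0 ≠ 1` in `ZMod p` at most one of the rows `0`, `1` and at most one of the rows `2`, `3` (`j ≠ j + 1`): `e 0 ∈ {0, 1}`, `e 1 ∈ {2, 3}`.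
For `NJ` the rows are `{0, 1}` or `{2, 3}`. `Nrm_two'` (complement): for an injective `e : Fin 2 → Fin 4` there is an injective `e' : Fin 2 → Fin 4` with `e' i ≠ e i'` for all `i`, `i'` (`decide`, or `fin_cases`).
-/

set_option autoImplicit false

namespace Pool.Agent.H42.PL

open Module Pool.Agent.H32.UD

variable (F : Type) {K : Type} [Field F] [Field K] [Algebra F K] [Finite F] [Finite K]

/-- the exponents -/
def sg (j : ℕ) : Fin 4 → ℕ := ![0, 1, j, j + 1]

theorem dg_apply (j : ℕ) (k : K) (x : V4 K) (m : Fin 4) : dg F j k x m = (fr F K ^ sg j m) k * x m := by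
  fin_cases m <;> simp [dg, sg]

theorem exists_subK {p : ℕ} (hp : p.Prime) (hpn : p ∣ finrank F K) :
    ∃ a : K, (fr F K ^ p) a = a ∧ fr F K a ≠ a := by
  by_contra hcon
  push Not at hcon
  have : Module.Finite F K := Module.Finite.of_finite
  have hpos : 0 < finrank F K := finrank_pos
  have h1 : fr F K ∈ Subgroup.zpowers (fr F K ^ p) := by
    rw [← IntermediateField.fixingSubgroup_fixedField (Subgroup.zpowers (fr F K ^ p)),
      IntermediateField.mem_fixingSubgroup_iff]
    intro x hx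
    rw [IntermediateField.mem_fixedField_iff] at hx
    exact hcon x (hx _ (Subgroup.mem_zpowers _))
  have h2 := orderOf_dvd_of_mem_zpowers h1
  have h3 : orderOf (fr F K) = finrank F K := orderOf_fr F K
  have h4 : orderOf (fr F K ^ p) = finrank F K / p := by
    rw [orderOf_pow' _ hp.ne_zero, h3, Nat.gcd_eq_right hpn]
  rw [h3, h4] at h2
  have h5 : finrank F K / p < finrank F K := Nat.div_lt_self hpos hp.one_lt
  have h6 : 0 < finrank F K / p := Nat.div_pos (Nat.le_of_dvd hpos hpn) hp.pos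
  exact absurd (Nat.le_of_dvd h6 h2) (not_le.2 h5)

private theorem supK_iter (a : K) (n : ℕ) : (fr F K ^ n) a = (fr F K)^[n] a := by
  induction n with
  | zero => rfl
  | succ n ih => rw [pow_succ', AlgEquiv.mul_apply, ih, Function.iterate_succ_apply']

/-- exponents with the same effect on a generator of the subfield are congruent -/
private theorem supK_le {p : ℕ} (hp : p.Prime) {k : K} (hk : (fr F K ^ p) k = k)
    (hk' : fr F K k ≠ k) {A B : ℕ} (hAB : A ≤ B) (h : (fr F K ^ A) k = (fr F K ^ B) k) :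
    (A : ZMod p) = (B : ZMod p) := by
  obtain ⟨d, rfl⟩ := Nat.exists_eq_add_of_le hAB
  rw [pow_add, AlgEquiv.mul_apply] at h
  have h1 : k = (fr F K ^ d) k := (fr F K ^ A).injective h
  have hdvd : p ∣ d := by
    by_contra hnd
    have hcop : Nat.gcd d p = 1 := by
      rw [Nat.gcd_comm]
      exact (Nat.Prime.coprime_iff_not_dvd hp).2 hnd
    have p1 : Function.IsPeriodicPt (fr F K) d k := by
      have h2 := h1.symm
      rw [supK_iter] at h2
      exact h2
    have p2 : Function.IsPeriodicPt (fr F K) p k := by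
      have h2 := hk
      rw [supK_iter] at h2
      exact h2
    have p3 := p1.gcd p2
    rw [hcop] at p3
    exact hk' p3
  have h3 : (d : ZMod p) = 0 := (ZMod.natCast_eq_zero_iff d p).2 hdvd
  rw [Nat.cast_add, h3, add_zero]

private theorem supK_eq {p : ℕ} (hp : p.Prime) {k : K} (hk : (fr F K ^ p) k = k)
    (hk' : fr F K k ≠ k) {A B : ℕ} (h : (fr F K ^ A) k = (fr F K ^ B) k) :
    (A : ZMod p) = (B : ZMod p) := by
  rcases le_total A B with h1 | h1
  · exact supK_le F hp hk hk' h1 h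
  · exact (supK_le F hp hk hk' h1 h.symm).symm

private theorem supK_diag (d : Fin 4 → K) (x : V4 K) :
    (Matrix.diagonal d).mulVec x = fun m => d m * x m := by
  ext m
  rw [Matrix.mulVec_diagonal]

/-- the coefficients of a map which commutes with diagonal matrices up to their change -/
private theorem supK_comm (y : V4 K ≃ₗ[F] V4 K) (a : ℕ → Matrix (Fin 4) (Fin 4) K)
    (ha : ∀ x, y x = ev F a x) (d d' : Fin 4 → K)
    (h : ∀ x : V4 K, y (fun m => d m * x m) = fun m => d' m * y x m) :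
    ∀ c < finrank F K, ∀ m l, a c m l * (fr F K ^ c) (d l) = d' m * a c m l := by
  have h1 : ∀ x : V4 K, ev F (fun c => a c * (Matrix.diagonal d).map (fr F K ^ c)) x =
      ev F (fun c => Matrix.diagonal d' * a c) x := by
    intro x
    rw [← ev_right, ← ev_left, supK_diag, supK_diag, ← ha, ← ha]
    exact h x
  intro c hc m l
  have h2 := cof_unique F h1 c hc
  have h3 := congrFun (congrFun h2 m) l
  have h4 : (Matrix.diagonal d).map (fr F K ^ c) = Matrix.diagonal fun l => (fr F K ^ c) (d l) :=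
    Matrix.diagonal_map (map_zero _)
  change (a c * (Matrix.diagonal d).map (fr F K ^ c)) m l = (Matrix.diagonal d' * a c) m l at h3
  rw [h4, Matrix.mul_diagonal, Matrix.diagonal_mul] at h3
  exact h3

private theorem supK_ne (y : V4 K ≃ₗ[F] V4 K) (a : ℕ → Matrix (Fin 4) (Fin 4) K)
    (ha : ∀ x, y x = ev F a x) : ∃ c < finrank F K, ∃ m l, a c m l ≠ 0 := by
  by_contra hcon
  push Not at hcon
  have h1 : ∀ x : V4 K, y x = 0 := by
    intro x
    rw [ha]
    unfold ev
    refine Finset.sum_eq_zero fun c hc => ?_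
    have h2 : a c = 0 := by
      ext m l
      exact hcon c (Finset.mem_range.1 hc) m l
    rw [h2, Matrix.zero_mulVec]
  have h3 : (fun _ => 1 : V4 K) = 0 := y.map_eq_zero_iff.1 (h1 _)
  exact one_ne_zero (congrFun h3 0)

theorem NorK_supp {p j : ℕ} (hp : p.Prime) (hpn : p ∣ finrank F K) (y : V4 K ≃ₗ[F] V4 K)
    (a : ℕ → Matrix (Fin 4) (Fin 4) K) (ha : ∀ x, y x = ev F a x) (h : NorK F p j y) :
    ∃ s : ZMod p, ∀ c < finrank F K, ∀ m l, a c m l ≠ 0 →
      (c : ZMod p) + (sg j l : ZMod p) = s + (sg j m : ZMod p) := by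
  obtain ⟨c₀, hc₀, m₀, l₀, h₀⟩ := supK_ne F y a ha
  obtain ⟨k, hk, hk'⟩ := exists_subK F hp hpn
  obtain ⟨k', -, hy⟩ := h k hk
  have key : ∀ c < finrank F K, ∀ m l, a c m l ≠ 0 →
      (fr F K ^ (c + sg j l)) k = (fr F K ^ sg j m) k' := by
    intro c hc m l hne
    have h1 := supK_comm F y a ha (fun l => (fr F K ^ sg j l) k) (fun m => (fr F K ^ sg j m) k')
      (fun x => by
        have e1 : (fun m => (fr F K ^ sg j m) k * x m) = dg F j k x := by
          ext m; rw [dg_apply]
        have e2 : (fun m => (fr F K ^ sg j m) k' * y x m) = dg F j k' (y x) := by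
          ext m; rw [dg_apply]
        rw [e1, e2]
        exact hy x) c hc m l
    rw [mul_comm ((fr F K ^ sg j m) k')] at h1
    have h2 := mul_left_cancel₀ hne h1
    rw [pow_add, AlgEquiv.mul_apply]
    exact h2
  refine ⟨(c₀ : ZMod p) + (sg j l₀ : ZMod p) - (sg j m₀ : ZMod p), fun c hc m l hne => ?_⟩
  have h1 := key c hc m l hne
  have h2 := key c₀ hc₀ m₀ l₀ h₀
  have h3 : (fr F K ^ (sg j m₀ + (c + sg j l))) k = (fr F K ^ (sg j m + (c₀ + sg j l₀))) k := by
    rw [pow_add, AlgEquiv.mul_apply, h1, ← AlgEquiv.mul_apply, ← pow_add, add_comm (sg j m₀),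
      pow_add, AlgEquiv.mul_apply, ← h2, ← AlgEquiv.mul_apply, ← pow_add]
  have h4 := supK_eq F hp hk hk' h3
  push_cast at h4
  linear_combination h4

theorem NJ_supp (h2 : (2 : K) ≠ 0) (y : V4 K ≃ₗ[F] V4 K) (a : ℕ → Matrix (Fin 4) (Fin 4) K)
    (ha : ∀ x, y x = ev F a x) (h : NJ F y) :
    (∀ c < finrank F K, ∀ m l, a c m l ≠ 0 → Jh 0 m = Jh 0 l) ∨
    (∀ c < finrank F K, ∀ m l, a c m l ≠ 0 → Jh 0 m = -Jh 0 l) := by
  have hJ : ∀ m : Fin 4, Jh 0 m = 1 ∨ Jh 0 m = -1 := by
    intro m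
    fin_cases m <;> simp [Jh]
  have h1 : (1 : K) ≠ -1 := by
    intro h1
    apply h2
    linear_combination h1
  rcases h with h | h
  · left
    intro c hc m l hne
    have h3 := supK_comm F y a ha (fun l => ((Jh 0 l : ℤ) : K)) (fun m => ((Jh 0 m : ℤ) : K)) h
      c hc m l
    rw [map_intCast, mul_comm ((Jh 0 m : ℤ) : K)] at h3
    have h4 := mul_left_cancel₀ hne h3
    rcases hJ m with e1 | e1 <;> rcases hJ l with e2 | e2 <;> rw [e1, e2] at h4 ⊢
    · push_cast at h4
      exact absurd h4.symm h1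
    · push_cast at h4
      exact absurd h4 h1
  · right
    intro c hc m l hne
    have h3 := supK_comm F y a ha (fun l => ((Jh 0 l : ℤ) : K)) (fun m => -((Jh 0 m : ℤ) : K))
      (fun x => by
        have e1 : (fun m => -((Jh 0 m : ℤ) : K) * y x m) = -Jd 0 (y x) := by
          ext m
          simp [Jd]
        rw [e1]
        exact h x)
      c hc m l
    rw [map_intCast, mul_comm (-((Jh 0 m : ℤ) : K))] at h3
    have h4 := mul_left_cancel₀ hne h3
    rcases hJ m with e1 | e1 <;> rcases hJ l with e2 | e2 <;> rw [e1, e2] at h4 ⊢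
    · push_cast at h4
      exact absurd h4 h1
    · norm_num
    · push_cast at h4
      rw [neg_neg] at h4
      exact absurd h4.symm h1

private theorem supK_two_J (v : ℤ) : ∃ e : Fin 2 → Fin 4, Function.Injective e ∧
    ∀ m, Jh 0 m = v → m = e 0 ∨ m = e 1 := by
  by_cases hv : v = 1
  · refine ⟨![0, 1], by decide, fun m hm => ?_⟩
    rw [hv] at hm
    fin_cases m
    · exact Or.inl rfl
    · exact Or.inr rfl
    · exact absurd hm (by decide)
    · exact absurd hm (by decide)
  · refine ⟨![2, 3], by decide, fun m hm => ?_⟩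
    fin_cases m
    · exact absurd hm.symm hv
    · exact absurd hm.symm hv
    · exact Or.inl rfl
    · exact Or.inr rfl

private theorem supK_two_K {p : ℕ} (hp : p.Prime) (j : ℕ) (t : ZMod p) :
    ∃ e : Fin 2 → Fin 4, Function.Injective e ∧ ∀ m, (sg j m : ZMod p) = t → m = e 0 ∨ m = e 1 := by
  have : Fact p.Prime := ⟨hp⟩
  have h01 : (0 : ZMod p) ≠ 1 := zero_ne_one
  have e0 : (sg j 0 : ZMod p) = 0 := by simp [sg]
  have e1 : (sg j 1 : ZMod p) = 1 := by simp [sg]
  have e2 : (sg j 2 : ZMod p) = (j : ZMod p) := by simp [sg]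
  have e3 : (sg j 3 : ZMod p) = (j : ZMod p) + 1 := by simp [sg]
  have hcase : ∀ r0 r1 : Fin 4, (r0 = 0 ∨ r0 = 1) → (r1 = 2 ∨ r1 = 3) →
      Function.Injective ![r0, r1] := by decide
  by_cases h0 : (0 : ZMod p) = t <;> by_cases h2 : (j : ZMod p) = t
  · refine ⟨![0, 2], hcase _ _ (Or.inl rfl) (Or.inl rfl), fun m hm => ?_⟩
    fin_cases m
    · exact Or.inl rfl
    · exact absurd (h0.trans (hm.symm.trans e1)) h01
    · exact Or.inr rfl
    · exfalso
      have h3 : (j : ZMod p) + 1 = j := (e3.symm.trans hm).trans h2.symm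
      exact h01 (by linear_combination -h3)
  · refine ⟨![0, 3], hcase _ _ (Or.inl rfl) (Or.inr rfl), fun m hm => ?_⟩
    fin_cases m
    · exact Or.inl rfl
    · exact absurd (h0.trans (hm.symm.trans e1)) h01
    · exact absurd (e2.symm.trans hm) h2
    · exact Or.inr rfl
  · refine ⟨![1, 2], hcase _ _ (Or.inr rfl) (Or.inl rfl), fun m hm => ?_⟩
    fin_cases m
    · exact absurd (e0.symm.trans hm) h0
    · exact Or.inl rfl
    · exact Or.inr rfl
    · exfalso
      have h3 : (j : ZMod p) + 1 = j := (e3.symm.trans hm).trans h2.symm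
      exact h01 (by linear_combination -h3)
  · refine ⟨![1, 3], hcase _ _ (Or.inr rfl) (Or.inr rfl), fun m hm => ?_⟩
    fin_cases m
    · exact absurd (e0.symm.trans hm) h0
    · exact Or.inl rfl
    · exact absurd (e2.symm.trans hm) h2
    · exact Or.inr rfl

private theorem supK_compl : ∀ e : Fin 2 → Fin 4, Function.Injective e →
    ∃ e' : Fin 2 → Fin 4, Function.Injective e' ∧ ∀ i i', e' i ≠ e i' := by
  decide

theorem Nrm_two (h2 : (2 : K) ≠ 0) (y : V4 K ≃ₗ[F] V4 K) (a : ℕ → Matrix (Fin 4) (Fin 4) K)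
    (ha : ∀ x, y x = ev F a x) (h : Nrm F y) (c : ℕ) (hc : c < finrank F K) :
    ∃ e : Fin 4 → Fin 2 → Fin 4, (∀ l, Function.Injective (e l)) ∧
      ∀ m l, a c m l ≠ 0 → m = e l 0 ∨ m = e l 1 := by
  have h1 : ∀ l : Fin 4, ∃ e : Fin 2 → Fin 4, Function.Injective e ∧
      ∀ m, a c m l ≠ 0 → m = e 0 ∨ m = e 1 := by
    intro l
    rcases h with h | ⟨p, j, hp, hpn, h⟩
    · rcases NJ_supp F h2 y a ha h with h3 | h3
      · obtain ⟨e, he, he'⟩ := supK_two_J (Jh 0 l)
        exact ⟨e, he, fun m hm => he' m (h3 c hc m l hm)⟩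
      · obtain ⟨e, he, he'⟩ := supK_two_J (-Jh 0 l)
        exact ⟨e, he, fun m hm => he' m (h3 c hc m l hm)⟩
    · obtain ⟨s, hs⟩ := NorK_supp F hp hpn y a ha h
      obtain ⟨e, he, he'⟩ := supK_two_K hp j ((c : ZMod p) + (sg j l : ZMod p) - s)
      refine ⟨e, he, fun m hm => he' m ?_⟩
      have h3 := hs c hc m l hm
      linear_combination -h3
  choose e he he' using h1
  exact ⟨e, he, fun m l hm => he' l m hm⟩

theorem Nrm_two' (h2 : (2 : K) ≠ 0) (y : V4 K ≃ₗ[F] V4 K) (a : ℕ → Matrix (Fin 4) (Fin 4) K)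
    (ha : ∀ x, y x = ev F a x) (h : Nrm F y) (c : ℕ) (hc : c < finrank F K) :
    ∃ e : Fin 4 → Fin 2 → Fin 4, (∀ l, Function.Injective (e l)) ∧ ∀ l i, a c (e l i) l = 0 := by
  obtain ⟨e, he, he'⟩ := Nrm_two F h2 y a ha h c hc
  choose e' h3 h4 using fun l => supK_compl (e l) (he l)
  refine ⟨e', h3, fun l i => ?_⟩
  by_contra hne
  rcases he' (e' l i) l hne with h5 | h5
  · exact h4 l i 0 h5
  · exact h4 l i 1 h5

end Pool.Agent.H42.PL
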