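import Pool.Agent.H42.PL.AbA

/-!
# PL.Tu : `J J' + J' J` for the quaternions

PROOF. `v = vv t x`, `v' = vv t x'`, `N = NN η t x`, `N' = NN η t x'`, `a = aq η t i k x = n_i v n_k (cj v)`, `b = aq η t i k x'`, `A = N_i N_k`. `Jd i y = N_i⁻¹ n_i y (cj n_i)` (`nn_conj`). For `g y = κ v y v'`, `κ² N N' = 1`: `J' y = g (Jd k (g y)) = (N N' N_k)⁻¹ v n_k v y v' (cj n_k) v' = -(N N' N_k)⁻¹ (v n_k cj v) y (v' n_k cj v')`
(`cj_pure`), so `J J' y = (A N N')⁻¹ a y (cj b)` and `J' J y = (A N N')⁻¹ (cj a) y b` (`cj a = v n_k (cj v) n_i`: `cj_qm`, `cj_pure`), and with `a = α + ν`, `b = β + μ` (`α`, `β` scalar, `ν = pu a`, `μ = pu b`): `a y (cj b) + (cj a) y b = 2 α β y - 2 ν y μ`.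
(For a computational proof: `fin_cases i <;> fin_cases k`, `ext m; fin_cases m`, `simp [..]`, `field_simp`, `ring` after clearing the denominators; the conceptual proof with `qm_assoc`, `qm_smul_left`, ... is safer. Lemma `TU_raw` is without denominators: `η`, `t`, `x`, `x'` in a commutative ring.)
`Uq_sq`: `ν (ν y μ) μ = ν² μ² y = fq .. x * fq .. x' • y` (`qm_pure`, `qm_pure_right`, `pu_sq`). `Uq_adj`: `bq_adj_left`, `bq_adj_right`, `cj_pure`. `pu_orth`: the coefficient of `n_i` in `aq i k` is `0`: `a = n_i P` with `P` pure.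
-/

set_option autoImplicit false

namespace Pool.Agent.H42.PL

section ring

variable {R : Type} [CommRing R]

/-- `y ↦ ν y μ` -/
def Uq (η t x x' : R) (i k : Fin 3) (y : V4 R) : V4 R :=
  qm η (pu (aq η t i k x)) (qm η y (pu (aq η t i k x')))

private theorem tu_ab (η : R) (a b y : V4 R) :
    qm η a (qm η y (cj b)) + qm η (cj a) (qm η y b) =
      (2 * a 0 * b 0) • y - (2 : R) • qm η (pu a) (qm η y (pu b)) := by
  ext m
  fin_cases m <;> simp [qm, cj, pu] <;> ring

private theorem tu_cv (t x : R) : cj (vv t x) = -vv t x := cj_pure (vv_pure t x)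

private theorem tu_cn (i : Fin 3) : cj (nn i : V4 R) = -nn i := cj_pure (nn_pure i)

private theorem tu_cj_neg (x : V4 R) : cj (-x) = -cj x := by
  ext m
  fin_cases m <;> simp [cj]

private theorem tu_one (η t x x' : R) (i k : Fin 3) (y : V4 R) :
    (Nn η i * Nn η k) • Jd i ((Mx η t x x').mulVec (Jd k ((Mx η t x x').mulVec y))) =
      qm η (aq η t i k x) (qm η y (cj (aq η t i k x'))) := by
  have e : (Nn η i * Nn η k) • Jd i (qm η (vv t x) (qm η (Jd k (qm η (vv t x) (qm η y (vv t x')))) (vv t x'))) =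
      Nn η i • Jd i (qm η (vv t x) (qm η (Nn η k • Jd k (qm η (vv t x) (qm η y (vv t x')))) (vv t x'))) := by
    rw [qm_smul_left, qm_smul_right, Jd_smul, smul_smul]
  rw [Mx_mulVec, Mx_mulVec, e, ← nn_conj, ← nn_conj]
  simp only [aq, cj_qm, tu_cv, tu_cn, tu_cj_neg, qm_neg_left, qm_neg_right, neg_neg, qm_assoc]

private theorem tu_two (η t x x' : R) (i k : Fin 3) (y : V4 R) :
    (Nn η i * Nn η k) • (Mx η t x x').mulVec (Jd k ((Mx η t x x').mulVec (Jd i y))) =
      qm η (cj (aq η t i k x)) (qm η y (aq η t i k x')) := by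
  have e : (Nn η i * Nn η k) • qm η (vv t x) (qm η (Jd k (qm η (vv t x) (qm η (Jd i y) (vv t x')))) (vv t x')) =
      qm η (vv t x) (qm η (Nn η k • Jd k (qm η (vv t x) (qm η (Nn η i • Jd i y) (vv t x')))) (vv t x')) := by
    rw [qm_smul_left η (Nn η i), qm_smul_right η (Nn η i), Jd_smul, smul_smul, mul_comm (Nn η i),
      qm_smul_left, qm_smul_right]
  rw [Mx_mulVec, Mx_mulVec, e, ← nn_conj, ← nn_conj]
  simp only [aq, cj_qm, tu_cv, tu_cn, tu_cj_neg, qm_neg_left, qm_neg_right, neg_neg, qm_assoc]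

theorem TU_raw (η t x x' : R) (i k : Fin 3) (y : V4 R) :
    (Nn η i * Nn η k) • (Jd i ((Mx η t x x').mulVec (Jd k ((Mx η t x x').mulVec y))) +
      (Mx η t x x').mulVec (Jd k ((Mx η t x x').mulVec (Jd i y)))) =
    (2 * aq η t i k x 0 * aq η t i k x' 0) • y - (2 : R) • Uq η t x x' i k y := by
  rw [smul_add, tu_one, tu_two, tu_ab]
  rfl

theorem Uq_sq (η t x x' : R) (i k : Fin 3) (y : V4 R) :
    Uq η t x x' i k (Uq η t x x' i k y) = (fq η t i k x * fq η t i k x') • y := by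
  have h0 : ∀ u : V4 R, (pu u) 0 = 0 := fun _ => rfl
  unfold Uq
  rw [qm_assoc η (pu (aq η t i k x)), qm_pure_right η (h0 (aq η t i k x')), qm_pure η (h0 _),
    pu_sq, pu_sq, smul_smul, neg_neg, neg_neg]

theorem Uq_adj (η t x x' : R) (i k : Fin 3) (y z : V4 R) :
    bq η (Uq η t x x' i k y) z = bq η y (Uq η t x x' i k z) := by
  have h0 : ∀ u : V4 R, (pu u) 0 = 0 := fun _ => rfl
  unfold Uq
  rw [bq_adj_left, bq_adj_right, cj_pure (h0 _), cj_pure (h0 _)]
  simp only [qm_neg_left, qm_neg_right, neg_neg, qm_assoc]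

theorem Uq_add (η t x x' : R) (i k : Fin 3) (y z : V4 R) :
    Uq η t x x' i k (y + z) = Uq η t x x' i k y + Uq η t x x' i k z := by
  unfold Uq
  rw [qm_add_left, qm_add_right]

theorem Uq_smul (η t x x' : R) (i k : Fin 3) (c : R) (y : V4 R) :
    Uq η t x x' i k (c • y) = c • Uq η t x x' i k y := by
  unfold Uq
  rw [qm_smul_left, qm_smul_right]

/-- `ν` is orthogonal to `n_i` -/
theorem pu_orth (η t x : R) (i k : Fin 3) : aq η t i k x i.succ = 0 := by
  fin_cases i <;> fin_cases k <;> simp [aq, qm, nn, cj, vv] <;> ring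

end ring

variable {K : Type} [Field K]

/-- `Jd i` as a linear map -/
def JL (i : Fin 3) : Module.End K (V4 K) where
  toFun := Jd i
  map_add' := Jd_add i
  map_smul' := Jd_smul i

/-- `y ↦ ν y μ` as a linear map -/
def UL (η t x x' : K) (i k : Fin 3) : Module.End K (V4 K) where
  toFun := Uq η t x x' i k
  map_add' := Uq_add η t x x' i k
  map_smul' := Uq_smul η t x x' i k

/-- `g` as a `K`-linear map -/
def gL (η t x x' κ : K) : Module.End K (V4 K) := κ • (Mx η t x x').mulVecLin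

theorem JL_apply (i : Fin 3) (y : V4 K) : JL i y = Jd i y := rfl

theorem UL_apply (η t x x' : K) (i k : Fin 3) (y : V4 K) : UL η t x x' i k y = Uq η t x x' i k y := rfl

theorem gL_apply (η t x x' κ : K) (y : V4 K) : gL η t x x' κ y = κ • (Mx η t x x').mulVec y := rfl

theorem TU (η t x x' κ : K) (i k : Fin 3) (hη : η ≠ 0) (hκ : κ ^ 2 * (NN η t x * NN η t x') = 1) :
    JL i * (gL η t x x' κ * JL k * gL η t x x' κ) + (gL η t x x' κ * JL k * gL η t x x' κ) * JL i =
    (2 * aq η t i k x 0 * aq η t i k x' 0 * (κ ^ 2 / (Nn η i * Nn η k))) • (1 : Module.End K (V4 K)) +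
      (-2 * (κ ^ 2 / (Nn η i * Nn η k))) • UL η t x x' i k := by
  have hN : ∀ j : Fin 3, Nn η j ≠ 0 := by
    intro j
    fin_cases j
    · exact hη
    · exact one_ne_zero
    · exact hη
  have hM : Nn η i * Nn η k ≠ 0 := mul_ne_zero (hN i) (hN k)
  refine LinearMap.ext fun y => ?_
  have h1 := TU_raw η t x x' i k y
  have h2 : Jd i ((Mx η t x x').mulVec (Jd k ((Mx η t x x').mulVec y))) +
      (Mx η t x x').mulVec (Jd k ((Mx η t x x').mulVec (Jd i y))) =
      (Nn η i * Nn η k)⁻¹ • ((2 * aq η t i k x 0 * aq η t i k x' 0) • y -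
        (2 : K) • Uq η t x x' i k y) := by
    rw [← h1, smul_smul, inv_mul_cancel₀ hM, one_smul]
  have h3 : (JL i * (gL η t x x' κ * JL k * gL η t x x' κ) +
      (gL η t x x' κ * JL k * gL η t x x' κ) * JL i : Module.End K (V4 K)) y = (κ ^ 2) •
      (Jd i ((Mx η t x x').mulVec (Jd k ((Mx η t x x').mulVec y))) +
      (Mx η t x x').mulVec (Jd k ((Mx η t x x').mulVec (Jd i y)))) := by
    simp only [LinearMap.add_apply, Module.End.mul_apply, JL_apply, gL_apply, Jd_smul,
      Matrix.mulVec_smul, smul_smul, smul_add, pow_two]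
  rw [h3, h2, LinearMap.add_apply, LinearMap.smul_apply, LinearMap.smul_apply,
    Module.End.one_apply, UL_apply, smul_smul, smul_sub, smul_smul, smul_smul, sub_eq_add_neg,
    ← neg_smul]
  congr 2
  · rw [div_eq_mul_inv]; ring
  · rw [div_eq_mul_inv]; ring

end Pool.Agent.H42.PL
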